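import Pool.Agent.Lib.MP_21a058_co.Duo.Blk

/-!
MP_21a058_co, two-sided rounding with trees on both sides: a small block is given up. The rank function `r`
becomes `r (A ∩ P) + r (A ∪ M) - r M`, the elements of `M \ P` are loops.
-/

set_option autoImplicit false

namespace Pool.Agent.Lib.MP_21a058_co.Duo

open Finset MP21a058

variable {E : Type} [Fintype E] [DecidableEq E]

/-- the restriction of a vector to a set -/
def on (B : Finset E) (z : E → ℚ) : E → ℚ := fun e => if e ∈ B then z e else 0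

omit [Fintype E] in
theorem sum_on (B S : Finset E) (z : E → ℚ) : ∑ e ∈ S, on B z e = ∑ e ∈ S ∩ B, z e := by
  unfold on
  rw [sum_ite_mem]

omit [Fintype E] in
theorem on_mem {B : Finset E} {z : E → ℚ} {e : E} (h : e ∈ B) : on B z e = z e := if_pos h

omit [Fintype E] in
theorem on_not {B : Finset E} {z : E → ℚ} {e : E} (h : e ∉ B) : on B z e = 0 := if_neg h

theorem frac_on {B : Finset E} {z : E → ℚ} : frac (on B z) ⊆ B ∩ frac z := by
  intro e he
  have h1 := mem_frac.1 he
  by_cases hB : e ∈ B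
  · rw [on_mem hB] at h1
    exact mem_inter.2 ⟨hB, mem_frac.2 h1⟩
  · rw [on_not hB] at h1
    exact absurd rfl h1.1

/-- the new rank function -/
def fr (r : Finset E → ℕ) (P M : Finset E) (A : Finset E) : ℕ := r (A ∩ P) + (r (A ∪ M) - r M)

variable {r : Finset E → ℕ} {s : ℕ} {x : E → ℚ}

omit [Fintype E] in
theorem fr_add (hr : Rk r) (P M A : Finset E) : fr r P M A + r M = r (A ∩ P) + r (A ∪ M) := by
  have := hr.mono M (A ∪ M) subset_union_right
  unfold fr
  omega

omit [Fintype E] in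
theorem fr_rk (hr : Rk r) {P M : Finset E} (hPM : P ⊆ M) : Rk (fr r P M) where
  emp := by
    unfold fr
    rw [empty_inter, empty_union, hr.emp, Nat.sub_self]
  mono A A' h := by
    have h1 := fr_add hr P M A
    have h2 := fr_add hr P M A'
    have h3 := hr.mono (A ∩ P) (A' ∩ P) (inter_subset_inter_right h)
    have h4 := hr.mono (A ∪ M) (A' ∪ M) (union_subset_union_left h)
    omega
  one A e := by
    have h1 := fr_add hr P M A
    have h2 := fr_add hr P M (insert e A)
    by_cases he : e ∈ P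
    · have h3 : insert e A ∩ P = insert e (A ∩ P) := insert_inter_of_mem he
      have h4 : insert e A ∪ M = A ∪ M := by
        rw [insert_union, insert_eq_self]
        exact mem_union_right _ (hPM he)
      have h5 := hr.one (A ∩ P) e
      rw [h3, h4] at h2
      omega
    · have h3 : insert e A ∩ P = A ∩ P := insert_inter_of_notMem he
      have h4 : insert e A ∪ M = insert e (A ∪ M) := insert_union e A M
      have h5 := hr.one (A ∪ M) e
      rw [h3, h4] at h2
      omega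
  sub A A' := by
    have h1 := fr_add hr P M A
    have h2 := fr_add hr P M A'
    have h3 := fr_add hr P M (A ∪ A')
    have h4 := fr_add hr P M (A ∩ A')
    have h5 := hr.sub (A ∩ P) (A' ∩ P)
    have h6 := hr.sub (A ∪ M) (A' ∪ M)
    have e1 : A ∩ P ∪ A' ∩ P = (A ∪ A') ∩ P := (union_inter_distrib_right A A' P).symm
    have e2 : A ∩ P ∩ (A' ∩ P) = A ∩ A' ∩ P := by
      ext z
      simp only [mem_inter]
      tauto
    have e3 : A ∪ M ∪ (A' ∪ M) = A ∪ A' ∪ M := by
      ext z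
      simp only [mem_union]
      tauto
    have e4 : (A ∪ M) ∩ (A' ∪ M) = A ∩ A' ∪ M := by
      ext z
      simp only [mem_inter, mem_union]
      tauto
    rw [e1, e2] at h5
    rw [e3, e4] at h6
    omega

omit [Fintype E] in
/-- the value of the vector without the part between `P` and `M` -/
theorem sum_off {P M : Finset E} (hPM : P ⊆ M) {x' : E → ℚ}
    (h0 : ∀ e, e ∈ M \ P → x' e = 0) (h1 : ∀ e, e ∉ M \ P → x' e = x e) (S : Finset E) :
    ∑ e ∈ S, x' e + ∑ e ∈ M, x e = ∑ e ∈ S ∩ P, x e + ∑ e ∈ S ∪ M, x e := by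
  have h2 : ∑ e ∈ S, x' e = ∑ e ∈ S \ (M \ P), x e := by
    rw [← sum_sdiff (sdiff_subset : S \ (M \ P) ⊆ S)]
    have h3 : ∑ e ∈ S \ (S \ (M \ P)), x' e = 0 := by
      refine sum_eq_zero fun e he => h0 e ?_
      obtain ⟨h4, h5⟩ := mem_sdiff.1 he
      by_contra h6
      exact h5 (mem_sdiff.2 ⟨h4, h6⟩)
    rw [h3, zero_add]
    exact sum_congr rfl fun e he => h1 e (mem_sdiff.1 he).2
  have h3 : S \ (M \ P) = S ∩ P ∪ S \ M := by
    ext e
    simp only [mem_sdiff, mem_union, mem_inter]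
    constructor
    · rintro ⟨h4, h5⟩
      by_cases h6 : e ∈ P
      · exact Or.inl ⟨h4, h6⟩
      · exact Or.inr ⟨h4, fun h7 => h5 ⟨h7, h6⟩⟩
    · rintro (⟨h4, h5⟩ | ⟨h4, h5⟩)
      · exact ⟨h4, fun h6 => h6.2 h5⟩
      · exact ⟨h4, fun h6 => h5 h6.1⟩
  have h4 : Disjoint (S ∩ P) (S \ M) := by
    rw [disjoint_left]
    intro e h5 h6
    exact (mem_sdiff.1 h6).2 (hPM (mem_inter.1 h5).2)
  have h5 : S \ M ∪ M = S ∪ M := sdiff_union_self_eq_union
  have h6 : ∑ e ∈ S ∪ M, x e = ∑ e ∈ S \ M, x e + ∑ e ∈ M, x e := by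
    rw [← h5, sum_union sdiff_disjoint]
  rw [h2, h3, sum_union h4, h6]
  ring

theorem free_tight (h : Feas r s x) {P M : Finset E} (hPM : P ⊆ M) (hP : Tight r s x P)
    (hM : Tight r s x M) {x' : E → ℚ}
    (h0 : ∀ e, e ∈ M \ P → x' e = 0) (h1 : ∀ e, e ∉ M \ P → x' e = x e) {S : Finset E}
    (hS : Tight r s x S) : Tight (fr r P M) s x' S := by
  have h2 := sum_off hPM h0 h1 S
  have h3 := h.tight_inter hS hP
  have h4 := h.tight_union hS hM
  have h5 := fr_add h.rk P M S
  have h6 : ((fr r P M S : ℚ) + r M) = (r (S ∩ P) : ℚ) + r (S ∪ M) := by exact_mod_cast h5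
  unfold Tight at *
  have h7 : (s : ℚ) * ((fr r P M S : ℚ) + r M) = s * ((r (S ∩ P) : ℚ) + r (S ∪ M)) := by rw [h6]
  linarith

theorem free_feas (h : Feas r s x) {P M : Finset E} (hPM : P ⊆ M) (hP : Tight r s x P)
    (hM : Tight r s x M) {x' : E → ℚ}
    (h0 : ∀ e, e ∈ M \ P → x' e = 0) (h1 : ∀ e, e ∉ M \ P → x' e = x e) :
    Feas (fr r P M) s x' where
  rk := fr_rk h.rk hPM
  nn e := by
    by_cases he : e ∈ M \ P
    · rw [h0 e he]
    · rw [h1 e he]
      exact h.nn e
  le1 e := by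
    by_cases he : e ∈ M \ P
    · rw [h0 e he]
      exact zero_le_one
    · rw [h1 e he]
      exact h.le1 e
  le S := by
    have h2 := sum_off hPM h0 h1 S
    have h3 := h.le (S ∩ P)
    have h4 := h.le (S ∪ M)
    have h5 := fr_add h.rk P M S
    have h6 : ((fr r P M S : ℚ) + r M) = (r (S ∩ P) : ℚ) + r (S ∪ M) := by exact_mod_cast h5
    unfold Tight at hM
    have h7 : (s : ℚ) * ((fr r P M S : ℚ) + r M) = s * ((r (S ∩ P) : ℚ) + r (S ∪ M)) := by rw [h6]
    linarith
  top := free_tight h hPM hP hM h0 h1 h.tight_univ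

/-- marginals over a tight set do not grow -/
theorem free_marg (h : Feas r s x) (hs : 0 < s) {P M : Finset E} (hPM : P ⊆ M) (hP : Tight r s x P)
    {Z : Finset E} (hZ : Tight r s x Z) (J : Finset E) :
    fr r P M (Z ∪ J) + r Z ≤ fr r P M Z + r (Z ∪ J) := by
  have h1 := fr_add h.rk P M Z
  have h2 := fr_add h.rk P M (Z ∪ J)
  -- modular pair
  have hsq : (0 : ℚ) < s := by exact_mod_cast hs
  have hmod : r Z + r P ≤ r (Z ∪ P) + r (Z ∩ P) := by
    have h3 : ∑ e ∈ Z ∪ P, x e + ∑ e ∈ Z ∩ P, x e = ∑ e ∈ Z, x e + ∑ e ∈ P, x e :=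
      sum_union_inter
    have h4 := h.tight_union hZ hP
    have h5 := h.tight_inter hZ hP
    unfold Tight at *
    rw [h4, h5, hZ, hP, ← mul_add, ← mul_add] at h3
    have h6 := mul_left_cancel₀ (ne_of_gt hsq) h3
    have h7 : r (Z ∪ P) + r (Z ∩ P) = r Z + r P := by exact_mod_cast h6
    omega
  obtain ⟨A, hA⟩ : ∃ A, A = (Z ∪ J) ∩ P := ⟨_, rfl⟩
  have h3 := h.rk.sub (Z ∪ A) P
  have e1 : Z ∪ A ∪ P = Z ∪ P := by
    rw [hA]
    ext z
    simp only [mem_union, mem_inter]
    tauto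
  have e2 : (Z ∪ A) ∩ P = (Z ∪ J) ∩ P := by
    rw [hA]
    ext z
    simp only [mem_union, mem_inter]
    tauto
  rw [e1, e2] at h3
  have h4 := h.rk.sub (Z ∪ J) (Z ∪ M)
  have e3 : Z ∪ J ∪ (Z ∪ M) = Z ∪ J ∪ M := by
    ext z
    simp only [mem_union]
    tauto
  rw [e3] at h4
  have h5 := h.rk.mono (Z ∪ A) ((Z ∪ J) ∩ (Z ∪ M)) (by
    rw [hA]
    intro z
    simp only [mem_union, mem_inter]
    intro hz
    rcases hz with hz | ⟨hz, hzP⟩
    · exact ⟨Or.inl hz, Or.inl hz⟩
    · exact ⟨hz, Or.inr (hPM hzP)⟩)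
  omega

/-- accounting of the ranks -/
theorem fr_account (hr : Rk r) {P M : Finset E} (hPM : P ⊆ M) (A : Finset E) :
    r univ + fr r P M A + r (P ∪ A ∩ M) ≤ r A + fr r P M univ + r M := by
  have h1 := fr_add hr P M A
  have h2 := fr_add hr P M univ
  have e0 : (univ : Finset E) ∪ M = univ := by
    ext z
    simp
  rw [univ_inter, e0] at h2
  have h3 := hr.sub A M
  have h4 := hr.sub P (A ∩ M)
  have e1 : P ∩ (A ∩ M) = A ∩ P := by
    ext z
    simp only [mem_inter]
    constructor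
    · rintro ⟨h5, h6, -⟩
      exact ⟨h6, h5⟩
    · rintro ⟨h5, h6⟩
      exact ⟨h6, h5, hPM h6⟩
  rw [e1] at h4
  omega

/-- a block as the fractional part of the difference of two tight sets -/
theorem Feas.blk_pair (h : Feas r s x) {D : Finset E} (hD : D ∈ blks r s x) :
    ∃ P M : Finset E, P ⊆ M ∧ Tight r s x P ∧ Tight r s x M ∧
      ∀ f, f ∈ D ↔ f ∈ frac x ∧ f ∈ M ∧ f ∉ P := by
  classical
  unfold blks at hD
  obtain ⟨e, he, rfl⟩ := mem_image.1 hD
  obtain ⟨P, hP⟩ : ∃ P : Finset E, P = (univ.filter fun S : Finset E =>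
      Tight r s x S ∧ S ⊆ mm r s x e ∧ e ∉ S).biUnion id := ⟨_, rfl⟩
  have hPt : Tight r s x P := by
    rw [hP]
    exact h.tight_biUnion _ _ fun S hS => (mem_filter.1 hS).2.1
  have hPm : P ⊆ mm r s x e := by
    rw [hP]
    intro z hz
    obtain ⟨S, hS, hzS⟩ := mem_biUnion.1 hz
    exact (mem_filter.1 hS).2.2.1 hzS
  refine ⟨P, mm r s x e, hPm, hPt, h.mm_tight e, ?_⟩
  intro f
  constructor
  · intro h1
    have h0 := blk_sub e h1
    have h2 := (mem_blk.1 h1).2
    have h3 := h.mem_mm f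
    refine ⟨h0, by rw [← h2]; exact h3, fun h4 => ?_⟩
    rw [hP] at h4
    obtain ⟨S, hS, hfS⟩ := mem_biUnion.1 h4
    obtain ⟨-, h5, h6, h7⟩ := mem_filter.1 hS
    have h8 := mm_min h5 hfS
    rw [h2] at h8
    exact h7 (h8 (h.mem_mm e))
  · rintro ⟨hf, h1, h2⟩
    refine mem_blk.2 ⟨hf, ?_⟩
    have h3 := mm_min (h.mm_tight e) h1
    refine Subset.antisymm h3 ?_
    by_cases h4 : e ∈ mm r s x f
    · exact mm_min (h.mm_tight f) h4
    · exfalso
      apply h2
      rw [hP]
      exact mem_biUnion.2 ⟨mm r s x f, mem_filter.2 ⟨mem_univ _, h.mm_tight f, h3, h4⟩,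
        h.mem_mm f⟩

/-- **giving up a small block** -/
theorem free_step {k c : ℕ} {B : Finset E} {z : E → ℚ} (h : Feas r (k + c) (on B z))
    {D : Finset E} (hD : D ∈ blks r (k + c) (on B z)) (hc : D.card ≤ c) :
    ∃ (B' : Finset E) (r' : Finset E → ℕ), B' ⊂ B ∧ Feas r' (k + c) (on B' z) ∧
      (∀ S, Tight r (k + c) (on B z) S → Tight r' (k + c) (on B' z) S) ∧
      (∀ Z J, Tight r (k + c) (on B z) Z → r' (Z ∪ J) + r Z ≤ r' Z + r (Z ∪ J)) ∧
      ∀ z' : E → ℚ, (∀ e, 0 ≤ z' e) → (∀ e, z e = 0 ∨ z e = 1 → z' e = z e) →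
        (∀ A, (k : ℚ) * ((r' univ : ℚ) - r' A) ≤ ∑ e ∈ B' \ A, z' e) →
        ∀ A, (k : ℚ) * ((r univ : ℚ) - r A) ≤ ∑ e ∈ B \ A, z' e := by
  classical
  obtain ⟨e0, he0⟩ := blks_nonempty hD
  have hDf := blks_sub hD
  obtain ⟨P, M, hPM, hP, hM, hmem⟩ := h.blk_pair hD
  have hc0 : 0 < k + c := by
    have h1 := card_pos.2 ⟨e0, he0⟩
    omega
  have he0B : e0 ∈ B := (mem_inter.1 (frac_on (hDf he0))).1
  have h0 : ∀ e, e ∈ M \ P → on (B \ (M \ P)) z e = 0 := by
    intro e he
    exact on_not fun h1 => (mem_sdiff.1 h1).2 he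
  have h1 : ∀ e, e ∉ M \ P → on (B \ (M \ P)) z e = on B z e := by
    intro e he
    by_cases hB : e ∈ B
    · rw [on_mem hB, on_mem (mem_sdiff.2 ⟨hB, he⟩)]
    · rw [on_not hB, on_not fun h2 => hB (mem_sdiff.1 h2).1]
  refine ⟨B \ (M \ P), fr r P M, ?_, free_feas h hPM hP hM h0 h1,
    fun S hS => free_tight h hPM hP hM h0 h1 hS,
    fun Z J hZ => free_marg h hc0 hPM hP hZ J, ?_⟩
  · refine (ssubset_iff_of_subset sdiff_subset).2 ⟨e0, he0B, fun h2 => ?_⟩
    obtain ⟨-, h3, h4⟩ := (hmem e0).1 he0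
    exact (mem_sdiff.1 h2).2 (mem_sdiff.2 ⟨h3, h4⟩)
  · intro z' hz0 hz' hacc A
    have h2 := hacc A
    have h3 := fr_account h.rk hPM A
    -- the gain between `P` and `M`
    obtain ⟨Δ, hΔ⟩ : ∃ Δ : ℕ, r M = r (P ∪ A ∩ M) + Δ := by
      have h4 := h.rk.mono (P ∪ A ∩ M) M (union_subset hPM inter_subset_right)
      exact ⟨r M - r (P ∪ A ∩ M), by omega⟩
    have hsplit : ∑ e ∈ B \ A, z' e =
        ∑ e ∈ (B \ (M \ P)) \ A, z' e + ∑ e ∈ (B ∩ (M \ P)) \ A, z' e := by
      rw [← sum_union]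
      · congr 1
        ext e
        simp only [mem_sdiff, mem_union, mem_inter]
        tauto
      · rw [disjoint_left]
        intro e h4 h5
        exact (mem_sdiff.1 (mem_sdiff.1 h4).1).2 (mem_inter.1 (mem_sdiff.1 h5).1).2
    have hgain : (k : ℚ) * Δ ≤ ∑ e ∈ (B ∩ (M \ P)) \ A, z' e := by
      rcases Nat.eq_zero_or_pos Δ with h4 | h4
      · rw [h4, Nat.cast_zero, mul_zero]
        exact sum_nonneg fun e _ => hz0 e
      · -- the value of `x` there
        have h5 : ∑ e ∈ (B ∩ (M \ P)) \ A, z e = ∑ e ∈ M \ (P ∪ A ∩ M), on B z e := by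
          rw [sum_on]
          congr 1
          ext e
          simp only [mem_sdiff, mem_union, mem_inter]
          tauto
        have h6 : ∑ e ∈ M \ (P ∪ A ∩ M), on B z e + ∑ e ∈ P ∪ A ∩ M, on B z e =
            ∑ e ∈ M, on B z e := sum_sdiff (union_subset hPM inter_subset_right)
        have h7 := h.le (P ∪ A ∩ M)
        unfold Tight at hM
        rw [hM, hΔ] at h6
        push_cast at h6 h7
        have h8 : ((k : ℚ) + c) * Δ ≤ ∑ e ∈ (B ∩ (M \ P)) \ A, z e := by
          rw [h5]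
          linarith
        -- comparison of `z'` and `z`
        have h9 : ∑ e ∈ (B ∩ (M \ P)) \ A, z e ≤ ∑ e ∈ (B ∩ (M \ P)) \ A, z' e + D.card := by
          have g1 : ∀ e ∈ (B ∩ (M \ P)) \ A, z e ≤ z' e + (if e ∈ D then 1 else 0) := by
            intro e he
            obtain ⟨g2, -⟩ := mem_sdiff.1 he
            obtain ⟨g3, g4⟩ := mem_inter.1 g2
            have g5 : z e ≤ 1 := by
              have := h.le1 e
              rwa [on_mem g3] at this
            by_cases g6 : e ∈ D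
            · rw [if_pos g6]
              linarith [hz0 e]
            · rw [if_neg g6, add_zero]
              have g7 : e ∉ frac (on B z) := fun g8 =>
                g6 ((hmem e).2 ⟨g8, (mem_sdiff.1 g4).1, (mem_sdiff.1 g4).2⟩)
              have g8 : z e = 0 ∨ z e = 1 := by
                by_contra g9
                rw [not_or] at g9
                apply g7
                rw [mem_frac, on_mem g3]
                exact g9
              rw [hz' e g8]
          refine (sum_le_sum g1).trans ?_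
          rw [sum_add_distrib]
          have g2 : ∑ e ∈ (B ∩ (M \ P)) \ A, (if e ∈ D then (1 : ℚ) else 0) ≤ D.card := by
            rw [← sum_filter, sum_const, nsmul_eq_mul, mul_one]
            have g3 : ((B ∩ (M \ P)) \ A).filter (fun e => e ∈ D) ⊆ D := fun e he =>
              (mem_filter.1 he).2
            exact_mod_cast card_le_card g3
          linarith
        have h10 : (D.card : ℚ) ≤ c := by exact_mod_cast hc
        have h11 : (1 : ℚ) ≤ Δ := by exact_mod_cast h4
        have h12 : (c : ℚ) * 1 ≤ c * Δ := mul_le_mul_of_nonneg_left h11 (Nat.cast_nonneg c)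
        have h13 : ((k : ℚ) + c) * Δ = k * Δ + c * Δ := by ring
        linarith
    have h4 : (r univ : ℚ) - r A ≤ (((fr r P M univ : ℕ) : ℚ) - (fr r P M A : ℕ)) + Δ := by
      have h5 : r univ + fr r P M A ≤ r A + fr r P M univ + Δ := by omega
      have h6 : (r univ : ℚ) + (fr r P M A : ℕ) ≤ r A + (fr r P M univ : ℕ) + Δ := by
        exact_mod_cast h5
      linarith
    have h5 := mul_le_mul_of_nonneg_left h4 (Nat.cast_nonneg (α := ℚ) k)
    rw [mul_add] at h5
    rw [hsplit]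
    linarith

/-- the accounting at the end -/
theorem fin_acc {k c : ℕ} {B : Finset E} {z : E → ℚ} (h : Feas r (k + c) (on B z)) (A : Finset E) :
    (k : ℚ) * ((r univ : ℚ) - r A) ≤ ∑ e ∈ B \ A, z e := by
  have h1 := h.le A
  have h2 := h.top
  have h3 : ∑ e, on B z e = ∑ e ∈ B \ A, z e + ∑ e ∈ A, on B z e := by
    rw [← sum_sdiff (subset_univ A)]
    congr 1
    rw [sum_on]
    congr 1
    ext e
    simp only [mem_sdiff, mem_inter, mem_univ, true_and]
    tauto
  have h4 : (0 : ℚ) ≤ (r univ : ℚ) - r A := by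
    have := h.rk.mono A univ (subset_univ A)
    have h5 : (r A : ℚ) ≤ r univ := by exact_mod_cast this
    linarith
  have h5 : (0 : ℚ) ≤ c * ((r univ : ℚ) - r A) := mul_nonneg (Nat.cast_nonneg c) h4
  push_cast at h1 h2
  have h6 : (k : ℚ) * ((r univ : ℚ) - r A) + c * ((r univ : ℚ) - r A) =
      (k + c) * r univ - (k + c) * r A := by ring
  linarith

end Pool.Agent.Lib.MP_21a058_co.Duo
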