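import Pool.Agent.Lib.MP_21a058_co.P.Rado

/-!
MP_21a058_co, two-sided rounding: tight sets of a point of the polymatroid `x(S) ≤ s * r S`, the classes
of fractional elements which no tight set separates (blocks).
-/

set_option autoImplicit false

namespace Pool.Agent.Lib.MP_21a058_co.Duo

open Finset MP21a058

variable {E : Type} [Fintype E] [DecidableEq E]

/-- the point `x` lies in the polymatroid of `s * r` and in the unit cube, the whole set is tight -/
structure Feas (r : Finset E → ℕ) (s : ℕ) (x : E → ℚ) : Prop where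
  rk : Rk r
  nn : ∀ e, 0 ≤ x e
  le1 : ∀ e, x e ≤ 1
  le : ∀ S : Finset E, ∑ e ∈ S, x e ≤ (s : ℚ) * r S
  top : ∑ e, x e = (s : ℚ) * r univ

/-- tight sets -/
def Tight (r : Finset E → ℕ) (s : ℕ) (x : E → ℚ) (S : Finset E) : Prop :=
  ∑ e ∈ S, x e = (s : ℚ) * r S

/-- fractional elements -/
def frac (x : E → ℚ) : Finset E := univ.filter fun e => x e ≠ 0 ∧ x e ≠ 1

omit [DecidableEq E] in
theorem mem_frac {x : E → ℚ} {e : E} : e ∈ frac x ↔ x e ≠ 0 ∧ x e ≠ 1 := by
  simp [frac]

section
variable {r : Finset E → ℕ} {s : ℕ} {x : E → ℚ}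

theorem Feas.tight_emp (h : Feas r s x) : Tight r s x ∅ := by
  unfold Tight
  rw [sum_empty, h.rk.emp, Nat.cast_zero, mul_zero]

theorem Feas.tight_univ (h : Feas r s x) : Tight r s x univ := h.top

theorem Feas.tight_both (h : Feas r s x) {S T : Finset E} (hS : Tight r s x S)
    (hT : Tight r s x T) : Tight r s x (S ∪ T) ∧ Tight r s x (S ∩ T) := by
  have h1 : ∑ e ∈ S ∪ T, x e + ∑ e ∈ S ∩ T, x e = ∑ e ∈ S, x e + ∑ e ∈ T, x e :=
    sum_union_inter
  have h2 := h.le (S ∪ T)
  have h3 := h.le (S ∩ T)
  have h4 : ((r (S ∪ T) : ℚ) + (r (S ∩ T) : ℚ)) ≤ (r S : ℚ) + (r T : ℚ) := by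
    exact_mod_cast h.rk.sub S T
  have h5 : (0 : ℚ) ≤ (s : ℚ) := Nat.cast_nonneg s
  have h6 := mul_le_mul_of_nonneg_left h4 h5
  unfold Tight at *
  rw [mul_add, mul_add] at h6
  constructor
  · linarith
  · linarith

theorem Feas.tight_union (h : Feas r s x) {S T : Finset E} (hS : Tight r s x S)
    (hT : Tight r s x T) : Tight r s x (S ∪ T) := (h.tight_both hS hT).1

theorem Feas.tight_inter (h : Feas r s x) {S T : Finset E} (hS : Tight r s x S)
    (hT : Tight r s x T) : Tight r s x (S ∩ T) := (h.tight_both hS hT).2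

theorem Feas.tight_biUnion (h : Feas r s x) {ι : Type*} [DecidableEq ι] (I : Finset ι)
    (f : ι → Finset E) (hf : ∀ i ∈ I, Tight r s x (f i)) : Tight r s x (I.biUnion f) := by
  induction I using Finset.induction_on with
  | empty => rw [biUnion_empty]; exact h.tight_emp
  | insert i I hi ih =>
    rw [biUnion_insert]
    exact h.tight_union (hf i (mem_insert_self i I))
      (ih fun j hj => hf j (mem_insert_of_mem hj))

/-- an element outside a tight set with a positive value raises the rank -/
theorem Feas.rank_lt (h : Feas r s x) {C A : Finset E} (hC : Tight r s x C) {e : E} (he : e ∉ C)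
    (hx : 0 < x e) (hA : A ⊆ C) : r A + 1 ≤ r (insert e A) := by
  have h1 : r C < r (insert e C) := by
    have h2 := h.le (insert e C)
    rw [sum_insert he] at h2
    unfold Tight at hC
    have h3 : (s : ℚ) * r C < (s : ℚ) * r (insert e C) := by linarith
    have h4 : (r C : ℚ) < r (insert e C) := lt_of_mul_lt_mul_left h3 (Nat.cast_nonneg s)
    exact_mod_cast h4
  have h5 := h.rk.sub (insert e A) C
  have e1 : insert e A ∪ C = insert e C := by
    ext z
    simp only [mem_union, mem_insert]
    constructor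
    · rintro ((h6 | h6) | h6)
      · exact Or.inl h6
      · exact Or.inr (hA h6)
      · exact Or.inr h6
    · rintro (h6 | h6)
      · exact Or.inl (Or.inl h6)
      · exact Or.inr h6
  have e2 : insert e A ∩ C = A := by
    ext z
    simp only [mem_inter, mem_insert]
    constructor
    · rintro ⟨h6 | h6, h7⟩
      · rw [h6] at h7
        exact absurd h7 he
      · exact h6
    · intro h6
      exact ⟨Or.inr h6, hA h6⟩
  rw [e1, e2] at h5
  omega

theorem Feas.pos (h : Feas r s x) {e : E} (he : e ∈ frac x) : 0 < x e :=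
  lt_of_le_of_ne (h.nn e) (Ne.symm (mem_frac.1 he).1)

theorem Feas.lt1 (h : Feas r s x) {e : E} (he : e ∈ frac x) : x e < 1 :=
  lt_of_le_of_ne (h.le1 e) (mem_frac.1 he).2

end

section
open scoped Classical

/-- the smallest tight set with `e` -/
noncomputable def mm (r : Finset E → ℕ) (s : ℕ) (x : E → ℚ) (e : E) : Finset E :=
  (univ.filter fun S : Finset E => Tight r s x S ∧ e ∈ S).inf id

/-- the block of `e` -/
noncomputable def blk (r : Finset E → ℕ) (s : ℕ) (x : E → ℚ) (e : E) : Finset E :=
  (frac x).filter fun f => mm r s x f = mm r s x e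

/-- all blocks -/
noncomputable def blks (r : Finset E → ℕ) (s : ℕ) (x : E → ℚ) : Finset (Finset E) :=
  (frac x).image (blk r s x)

end

variable {r : Finset E → ℕ} {s : ℕ} {x : E → ℚ}

theorem Feas.mm_spec (h : Feas r s x) (e : E) : Tight r s x (mm r s x e) ∧ e ∈ mm r s x e := by
  classical
  have key : ∀ I : Finset (Finset E), (∀ S ∈ I, Tight r s x S ∧ e ∈ S) →
      Tight r s x (I.inf id) ∧ e ∈ I.inf id := by
    intro I
    induction I using Finset.induction_on with
    | empty =>
      intro _
      rw [inf_empty]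
      exact ⟨h.tight_univ, mem_univ e⟩
    | insert S I hS ih =>
      intro hI
      rw [inf_insert]
      have h1 := hI S (mem_insert_self S I)
      have h2 := ih fun T hT => hI T (mem_insert_of_mem hT)
      exact ⟨h.tight_inter h1.1 h2.1, mem_inter.2 ⟨h1.2, h2.2⟩⟩
  exact key _ fun S hS => (mem_filter.1 hS).2

theorem Feas.mm_tight (h : Feas r s x) (e : E) : Tight r s x (mm r s x e) := (h.mm_spec e).1

theorem Feas.mem_mm (h : Feas r s x) (e : E) : e ∈ mm r s x e := (h.mm_spec e).2

theorem mm_min {S : Finset E} (hS : Tight r s x S) {e : E} (he : e ∈ S) : mm r s x e ⊆ S := by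
  classical
  have h1 : S ∈ univ.filter fun S : Finset E => Tight r s x S ∧ e ∈ S :=
    mem_filter.2 ⟨mem_univ S, hS, he⟩
  have h2 := inf_le (f := (id : Finset E → Finset E)) h1
  unfold mm
  exact h2

theorem mem_blk {e f : E} : f ∈ blk r s x e ↔ f ∈ frac x ∧ mm r s x f = mm r s x e := by
  classical
  unfold blk
  rw [mem_filter]

theorem blk_sub (e : E) : blk r s x e ⊆ frac x := fun _ hf => (mem_blk.1 hf).1

theorem mem_blk_self {e : E} (he : e ∈ frac x) : e ∈ blk r s x e := mem_blk.2 ⟨he, rfl⟩

theorem blk_eq {e f : E} (hf : f ∈ blk r s x e) : blk r s x f = blk r s x e := by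
  ext g
  rw [mem_blk, mem_blk, (mem_blk.1 hf).2]

theorem blk_eq_iff {e f : E} (he : e ∈ frac x) :
    blk r s x e = blk r s x f ↔ mm r s x e = mm r s x f := by
  constructor
  · intro h1
    have h2 := mem_blk_self (r := r) (s := s) he
    rw [h1] at h2
    exact (mem_blk.1 h2).2
  · intro h1
    ext g
    rw [mem_blk, mem_blk, h1]

/-- every tight set is a union of blocks on the fractional elements -/
theorem Feas.blk_sub_tight (h : Feas r s x) {S : Finset E} (hS : Tight r s x S) {e : E}
    (he : e ∈ S) : blk r s x e ⊆ S := by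
  intro f hf
  have h1 := h.mem_mm f
  rw [(mem_blk.1 hf).2] at h1
  exact mm_min hS he h1

/-- every tight set meets a block in everything or in nothing -/
theorem Feas.blks_tight (h : Feas r s x) {S : Finset E} (hS : Tight r s x S) {D : Finset E}
    (hD : D ∈ blks r s x) : D ⊆ S ∨ Disjoint D S := by
  unfold blks at hD
  obtain ⟨e, he, rfl⟩ := mem_image.1 hD
  by_cases hd : Disjoint (blk r s x e) S
  · exact Or.inr hd
  · left
    rw [not_disjoint_iff] at hd
    obtain ⟨f, hf, hfS⟩ := hd
    rw [← blk_eq hf]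
    exact h.blk_sub_tight hS hfS

theorem blks_sub {D : Finset E} (hD : D ∈ blks r s x) : D ⊆ frac x := by
  unfold blks at hD
  obtain ⟨e, he, rfl⟩ := mem_image.1 hD
  exact blk_sub e

theorem blks_nonempty {D : Finset E} (hD : D ∈ blks r s x) : D.Nonempty := by
  unfold blks at hD
  obtain ⟨e, he, rfl⟩ := mem_image.1 hD
  exact ⟨e, mem_blk_self he⟩

theorem blks_disj {D D' : Finset E} (hD : D ∈ blks r s x) (hD' : D' ∈ blks r s x)
    (hne : D ≠ D') : Disjoint D D' := by
  unfold blks at hD hD'
  obtain ⟨e, he, rfl⟩ := mem_image.1 hD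
  obtain ⟨e', he', rfl⟩ := mem_image.1 hD'
  rw [disjoint_left]
  intro f hf hf'
  exact hne ((blk_eq hf).symm.trans (blk_eq hf'))

theorem blks_cover {e : E} (he : e ∈ frac x) : ∃ D ∈ blks r s x, e ∈ D :=
  ⟨blk r s x e, mem_image_of_mem _ he, mem_blk_self he⟩

/-- the value of a block is an integer -/
theorem Feas.blk_int (h : Feas r s x) {D : Finset E} (hD : D ∈ blks r s x) :
    ∃ n : ℤ, ∑ f ∈ D, x f = n := by
  classical
  unfold blks at hD
  obtain ⟨e, he, rfl⟩ := mem_image.1 hD
  obtain ⟨P, hP⟩ : ∃ P : Finset E, P = (univ.filter fun S : Finset E =>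
      Tight r s x S ∧ S ⊆ mm r s x e ∧ e ∉ S).biUnion id := ⟨_, rfl⟩
  have hPt : Tight r s x P := by
    rw [hP]
    exact h.tight_biUnion _ _ fun S hS => (mem_filter.1 hS).2.1
  have hPm : P ⊆ mm r s x e := by
    rw [hP]
    intro z hz
    obtain ⟨S, hS, hzS⟩ := mem_biUnion.1 hz
    exact (mem_filter.1 hS).2.2.1 hzS
  have hmem : ∀ f ∈ frac x, (f ∈ blk r s x e ↔ f ∈ mm r s x e ∧ f ∉ P) := by
    intro f hf
    constructor
    · intro h1
      have h2 := (mem_blk.1 h1).2
      have h3 := h.mem_mm f
      refine ⟨by rw [← h2]; exact h3, fun h4 => ?_⟩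
      rw [hP] at h4
      obtain ⟨S, hS, hfS⟩ := mem_biUnion.1 h4
      obtain ⟨-, h5, h6, h7⟩ := mem_filter.1 hS
      have h8 := mm_min h5 hfS
      rw [h2] at h8
      exact h7 (h8 (h.mem_mm e))
    · rintro ⟨h1, h2⟩
      refine mem_blk.2 ⟨hf, ?_⟩
      have h3 := mm_min (h.mm_tight e) h1
      refine Subset.antisymm h3 ?_
      by_cases h4 : e ∈ mm r s x f
      · exact mm_min (h.mm_tight f) h4
      · exfalso
        apply h2
        rw [hP]
        exact mem_biUnion.2 ⟨mm r s x f, mem_filter.2 ⟨mem_univ _, h.mm_tight f, h3, h4⟩,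
          h.mem_mm f⟩
  have e1 : ∑ f ∈ mm r s x e \ P, x f + ∑ f ∈ P, x f = ∑ f ∈ mm r s x e, x f :=
    sum_sdiff hPm
  have e2 : ∑ f ∈ mm r s x e \ P, x f = ∑ f ∈ blk r s x e, x f +
      ∑ f ∈ (mm r s x e \ P).filter fun f => f ∉ frac x, x f := by
    have h1 : (mm r s x e \ P).filter (fun f => f ∈ frac x) = blk r s x e := by
      ext f
      rw [mem_filter, mem_sdiff]
      constructor
      · rintro ⟨h2, h3⟩
        exact (hmem f h3).2 h2
      · intro h2
        have h3 := blk_sub e h2
        exact ⟨(hmem f h3).1 h2, h3⟩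
    rw [← h1]
    exact (sum_filter_add_sum_filter_not _ _ _).symm
  have e3 : ∑ f ∈ (mm r s x e \ P).filter fun f => f ∉ frac x, x f =
      ((((mm r s x e \ P).filter fun f => f ∉ frac x).filter fun f => x f = 1).card : ℚ) := by
    rw [card_filter, Nat.cast_sum]
    refine sum_congr rfl fun f hf => ?_
    have h1 := (mem_filter.1 hf).2
    rw [mem_frac] at h1
    by_cases h2 : x f = 1
    · rw [if_pos h2, h2, Nat.cast_one]
    · rw [if_neg h2, Nat.cast_zero]
      by_contra h3
      exact h1 ⟨h3, h2⟩
  have e4 := h.mm_tight e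
  unfold Tight at e4 hPt
  refine ⟨(s : ℤ) * r (mm r s x e) - s * r P -
    ((((mm r s x e \ P).filter fun f => f ∉ frac x).filter fun f => x f = 1).card : ℤ), ?_⟩
  push_cast
  linarith

/-- a set of fractional elements with integral value has not exactly one element -/
theorem Feas.not_single (h : Feas r s x) {e : E} (he : e ∈ frac x) {n : ℤ}
    (hn : x e = n) : False := by
  have h1 := h.pos he
  have h2 := h.lt1 he
  rw [hn] at h1 h2
  have h3 : (0 : ℤ) < n := by exact_mod_cast h1
  have h4 : n < (1 : ℤ) := by exact_mod_cast h2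
  omega

/-- every block has at least two elements -/
theorem Feas.two_le_blk (h : Feas r s x) {D : Finset E} (hD : D ∈ blks r s x) : 2 ≤ D.card := by
  have h1 : 0 < D.card := card_pos.2 (blks_nonempty hD)
  by_contra hcon
  have h2 : D.card = 1 := by omega
  obtain ⟨e, rfl⟩ := card_eq_one.1 h2
  obtain ⟨n, hn⟩ := h.blk_int hD
  rw [sum_singleton] at hn
  exact h.not_single (blks_sub hD (mem_singleton_self e)) hn

/-- **representatives of different blocks outside a tight set are independent over it** -/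
theorem Feas.reps (h : Feas r s x) {Z : Finset E} (hZ : Tight r s x Z) :
    ∀ (n : ℕ) (J : Finset E), J.card = n → J ⊆ frac x → (∀ e ∈ J, e ∉ Z) →
      (∀ e ∈ J, ∀ f ∈ J, mm r s x e = mm r s x f → e = f) →
      J.card + r Z ≤ r (Z ∪ J) := by
  classical
  intro n
  induction n with
  | zero =>
    intro J hJ _ _ _
    rw [card_eq_zero.1 hJ, card_empty, union_empty, zero_add]
  | succ n ih =>
    intro J hJ hJX hJZ hinj
    have hne : J.Nonempty := by
      rw [← card_pos]
      omega
    obtain ⟨e, heJ, hmax⟩ := exists_max_image J (fun e => (mm r s x e).card) hne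
    have hcard : (J.erase e).card = n := by
      rw [card_erase_of_mem heJ]
      omega
    have h1 := ih (J.erase e) hcard ((erase_subset e J).trans hJX)
      (fun f hf => hJZ f (mem_of_mem_erase hf))
      (fun f hf g hg => hinj f (mem_of_mem_erase hf) g (mem_of_mem_erase hg))
    have hC : Tight r s x (Z ∪ (J.erase e).biUnion (mm r s x)) :=
      h.tight_union hZ (h.tight_biUnion _ _ fun f _ => h.mm_tight f)
    have heC : e ∉ Z ∪ (J.erase e).biUnion (mm r s x) := by
      intro hcon
      rcases mem_union.1 hcon with h2 | h2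
      · exact hJZ e heJ h2
      · obtain ⟨f, hf, hef⟩ := mem_biUnion.1 h2
        have h3 := mm_min (h.mm_tight f) hef
        have h4 := hmax f (mem_of_mem_erase hf)
        have h5 := eq_of_subset_of_card_le h3 h4
        exact (mem_erase.1 hf).1 (hinj f (mem_of_mem_erase hf) e heJ h5.symm)
    have hsub : Z ∪ J.erase e ⊆ Z ∪ (J.erase e).biUnion (mm r s x) := by
      refine union_subset_union (Subset.refl Z) fun f hf => ?_
      exact mem_biUnion.2 ⟨f, hf, h.mem_mm f⟩
    have h2 := h.rank_lt hC heC (h.pos (hJX heJ)) hsub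
    have e1 : insert e (Z ∪ J.erase e) = Z ∪ J := by
      ext z
      simp only [mem_insert, mem_union, mem_erase]
      constructor
      · rintro (rfl | h3 | h3)
        · exact Or.inr heJ
        · exact Or.inl h3
        · exact Or.inr h3.2
      · rintro (h3 | h3)
        · exact Or.inr (Or.inl h3)
        · by_cases h4 : z = e
          · exact Or.inl h4
          · exact Or.inr (Or.inr ⟨h4, h3⟩)
    rw [e1] at h2
    omega

/-- a vector which vanishes on the integral elements and sums to `0` on every block sums to `0` on every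
set which is a union of blocks on the fractional elements -/
theorem sum_zero {y : E → ℚ} (hy : ∀ e, e ∉ frac x → y e = 0)
    (hb : ∀ D ∈ blks r s x, ∑ e ∈ D, y e = 0) {S : Finset E}
    (hS : ∀ D ∈ blks r s x, D ⊆ S ∨ Disjoint D S) : ∑ e ∈ S, y e = 0 := by
  classical
  have h1 : ∑ e ∈ S, y e = ∑ e ∈ S.filter (fun e => e ∈ frac x), y e := by
    rw [sum_filter]
    refine sum_congr rfl fun e _ => ?_
    by_cases he : e ∈ frac x
    · rw [if_pos he]
    · rw [if_neg he, hy e he]
  have h2 : S.filter (fun e => e ∈ frac x) =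
      ((blks r s x).filter fun D => D ⊆ S).biUnion id := by
    ext e
    rw [mem_filter, mem_biUnion]
    constructor
    · rintro ⟨h3, h4⟩
      obtain ⟨D, hD, heD⟩ := blks_cover (r := r) (s := s) h4
      refine ⟨D, mem_filter.2 ⟨hD, ?_⟩, heD⟩
      rcases hS D hD with h5 | h5
      · exact h5
      · exact absurd h3 (disjoint_left.1 h5 heD)
    · rintro ⟨D, hD, heD⟩
      obtain ⟨h3, h4⟩ := mem_filter.1 hD
      exact ⟨h4 heD, blks_sub h3 heD⟩
  rw [h1, h2, sum_biUnion]
  · exact sum_eq_zero fun D hD => hb D (mem_filter.1 hD).1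
  · intro D hD D' hD' hne
    exact blks_disj (mem_filter.1 (mem_coe.1 hD)).1 (mem_filter.1 (mem_coe.1 hD')).1 hne

end Pool.Agent.Lib.MP_21a058_co.Duo
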