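import Pool.Agent.Lib.MP_21a058_co.Duo.Count4

/-!
MP_21a058_co: the counting theorem with extra rows, in the form used by the rounding loop.
-/

set_option autoImplicit false
set_option linter.unusedSectionVars false

namespace Pool.Agent.Lib.MP_21a058_co.Duo

open Finset MP21a058
open Pool.Agent.Lib.MP_21a058_co.P

/-- the counting theorem, interface of the loop -/
theorem cnt4_raw {mo N C9 c H : ℕ} (hH : 1 ≤ H) (h1 : 48 * mo ≤ H) (h2 : 2 * mo * N ≤ C9 * H)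
    (h3 : 16 + 4 * C9 ≤ c + 1) :
    ∀ (V E : Type) [Fintype V] [DecidableEq V] [Fintype E] [DecidableEq E] (a b : E → V)
      (x : E → ℚ) (K : Finset (Finset V)) (D1 D2 R : Finset (Finset E)),
      (∀ X ∈ K, ∀ Y ∈ K, X ⊆ Y ∨ Y ⊆ X ∨ Disjoint X Y) → (∀ W ∈ K, W.Nonempty) →
      (∀ W ∈ K, W ≠ univ) → Side a b (frac x) K D1 → Side a b (frac x) K D2 →
      (∀ e, 0 ≤ x e ∧ x e ≤ 1) → (∀ W ∈ K, ∃ n : ℤ, ∑ e ∈ cut a b W, x e = n) →
      (∀ W ∈ K, ∀ B ∈ R, B ∩ frac x ⊆ ins a b W ∨ Disjoint (B ∩ frac x) (ins a b W)) →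
      (∀ e, (R.filter fun B => e ∈ B).card ≤ mo) →
      (∀ C ⊆ K, C.Nonempty → (∀ W ∈ C, ∀ W' ∈ C, W ≠ W' → Disjoint W W') →
        ((frac x).filter fun e => (∃ W ∈ C, a e ∈ W) ∧ (∃ W ∈ C, b e ∈ W) ∧
          ∀ W ∈ C, e ∉ ins a b W).card ≤ N * (C.card - 1)) →
      (∀ y : E → ℚ, (∀ e, e ∉ frac x → y e = 0) →
        (∀ B ∈ D1, ∑ e ∈ B, y e = 0) → (∀ B ∈ D2, ∑ e ∈ B, y e = 0) →
        (∀ W ∈ K, ∑ e ∈ cut a b W, y e = 0) → (∀ B ∈ R, ∑ e ∈ B, y e = 0) → y = 0) →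
      (frac x).Nonempty →
      (∃ B ∈ D1, B.card ≤ c) ∨ (∃ B ∈ D2, B.card ≤ c) ∨
        (∃ W ∈ K, (cut a b W ∩ frac x).card ≤ c) ∨ ∃ B ∈ R, (B ∩ frac x).card < H := by
  intro V E _ _ _ _ a b x K D1 D2 R hlam hne hup hD1 hD2 h01 hint hcon hmo hfew hker hfr
  have hR : RowSet a b (frac x) K R mo N := by
    refine ⟨hcon, fun e _ => hmo e, ?_⟩
    intro C hC hCne hCd
    have h4 : (btw a b (frac x) C).card ≤ N * (C.card - 1) := hfew C hC hCne hCd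
    have h5 : 0 < C.card := card_pos.2 hCne
    obtain ⟨k, hk⟩ : ∃ k, C.card = k + 1 := ⟨C.card - 1, by omega⟩
    rw [hk] at h4 ⊢
    rw [Nat.add_sub_cancel] at h4
    have h6 : N * (k + 1) = N * k + N := by ring
    omega
  have hm : mo * N ≤ C9 * H := by
    have h7 : 2 * mo * N = 2 * (mo * N) := by ring
    omega
  have hc7 : 7 ≤ c := by omega
  rcases count4 a b x K hlam hne hup D1 D2 hD1 hD2 R mo N hR H C9 c (by omega) (by omega) hm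
    (by omega) h01 hint (fun y y1 y2 y3 y4 y5 => hker y y1 y2 y3 y5 y4) hfr with h | h | h | h
  · obtain ⟨B, hB, hB7⟩ := h
    exact Or.inl ⟨B, hB, hB7.trans hc7⟩
  · obtain ⟨B, hB, hB7⟩ := h
    exact Or.inr (Or.inl ⟨B, hB, hB7.trans hc7⟩)
  · exact Or.inr (Or.inr (Or.inr h))
  · exact Or.inr (Or.inr (Or.inl h))

end Pool.Agent.Lib.MP_21a058_co.Duo
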