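import Pool.Agent.Lib.MP_21a058_co.Duo.Loop3

/-!
MP_21a058_co, two-sided rounding with trees on both sides and block rows: the loop (letter S2).
-/

set_option autoImplicit false

namespace Pool.Agent.Lib.MP_21a058_co.Duo

open Finset MP21a058
open Pool.Agent.Lib.MP_21a058_co.P

variable {V E : Type} [Fintype V] [DecidableEq V] [Fintype E] [DecidableEq E] (a b : E → V)

/-- the statement of the count with block rows -/
def Cnt4 (mo N c H : ℕ) : Prop :=
  ∀ (V E : Type) [Fintype V] [DecidableEq V] [Fintype E] [DecidableEq E] (a b : E → V)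
    (x : E → ℚ) (K : Finset (Finset V)) (D1 D2 R : Finset (Finset E)),
    (∀ X ∈ K, ∀ Y ∈ K, X ⊆ Y ∨ Y ⊆ X ∨ Disjoint X Y) → (∀ W ∈ K, W.Nonempty) →
    (∀ W ∈ K, W ≠ univ) → Side a b (frac x) K D1 → Side a b (frac x) K D2 →
    (∀ e, 0 ≤ x e ∧ x e ≤ 1) → (∀ W ∈ K, ∃ n : ℤ, ∑ e ∈ cut a b W, x e = n) →
    (∀ W ∈ K, ∀ B ∈ R, B ∩ frac x ⊆ ins a b W ∨ Disjoint (B ∩ frac x) (ins a b W)) →
    (∀ e, (R.filter fun B => e ∈ B).card ≤ mo) →
    (∀ C ⊆ K, C.Nonempty → (∀ W ∈ C, ∀ W' ∈ C, W ≠ W' → Disjoint W W') →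
      ((frac x).filter fun e => (∃ W ∈ C, a e ∈ W) ∧ (∃ W ∈ C, b e ∈ W) ∧
        ∀ W ∈ C, e ∉ ins a b W).card ≤ N * (C.card - 1)) →
    (∀ y : E → ℚ, (∀ e, e ∉ frac x → y e = 0) → (∀ B ∈ D1, ∑ e ∈ B, y e = 0) →
      (∀ B ∈ D2, ∑ e ∈ B, y e = 0) → (∀ W ∈ K, ∑ e ∈ cut a b W, y e = 0) →
      (∀ B ∈ R, ∑ e ∈ B, y e = 0) → y = 0) →
    (frac x).Nonempty →
    (∃ B ∈ D1, B.card ≤ c) ∨ (∃ B ∈ D2, B.card ≤ c) ∨
      (∃ W ∈ K, (cut a b W ∩ frac x).card ≤ c) ∨ ∃ B ∈ R, (B ∩ frac x).card < H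

variable {a b}
variable {L K : Finset (Finset V)} {s : ℕ} {B : Finset E} {r : Finset E → ℕ} {z : E → ℚ}

/-- the way to a vertex, with block rows -/
theorem vert_step4 {s1 s2 : ℕ} {B1 B2 : Finset E} {r1 r2 : Finset E → ℕ} {x : E → ℚ}
    {up : Finset V → ℤ} {lo : Finset E → ℤ} {R : Finset (Finset E)}
    (h01 : ∀ e, 0 ≤ x e ∧ x e ≤ 1) (h1 : SD a b L s1 B1 r1 x)
    (h2 : SD a b L s2 B2 r2 fun e => 1 - x e)
    (hK : ∀ W ∈ K, ∑ e ∈ cut a b W, x e ≤ (up W : ℚ))
    (hR : ∀ β ∈ R, (lo β : ℚ) ≤ ∑ e ∈ β, x e) :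
    ∃ x1 : E → ℚ, (∀ e, 0 ≤ x1 e ∧ x1 e ≤ 1) ∧ SD a b L s1 B1 r1 x1 ∧
      (SD a b L s2 B2 r2 fun e => 1 - x1 e) ∧
      (∀ W ∈ K, ∑ e ∈ cut a b W, x1 e ≤ (up W : ℚ)) ∧
      (∀ β ∈ R, (lo β : ℚ) ≤ ∑ e ∈ β, x1 e) ∧
      (∀ e, x e = 0 ∨ x e = 1 → x1 e = x e) ∧
      ∀ y : E → ℚ, (∀ e, e ∉ frac x1 → y e = 0) →
        (∀ D ∈ blks r1 s1 (on B1 x1), ∑ e ∈ D, y e = 0) →
        (∀ D ∈ blks r2 s2 (on B2 fun e => 1 - x1 e), ∑ e ∈ D, y e = 0) →
        (∀ W ∈ K, ∑ e ∈ cut a b W, x1 e = (up W : ℚ) → ∑ e ∈ cut a b W, y e = 0) →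
        (∀ β ∈ R, ∑ e ∈ β, x1 e = (lo β : ℚ) → ∑ e ∈ β, y e = 0) → y = 0 := by
  classical
  let A : Finset E ⊕ (Finset E ⊕ ({W // W ∈ K} ⊕ {β // β ∈ R})) → E → ℚ := fun i e => match i with
    | .inl S => if e ∈ S ∩ B1 then 1 else 0
    | .inr (.inl S) => -(if e ∈ S ∩ B2 then 1 else 0)
    | .inr (.inr (.inl W)) => if e ∈ cut a b W.1 then 1 else 0
    | .inr (.inr (.inr β)) => -(if e ∈ β.1 then 1 else 0)
  let c : Finset E ⊕ (Finset E ⊕ ({W // W ∈ K} ⊕ {β // β ∈ R})) → ℚ := fun i => match i with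
    | .inl S => (s1 : ℚ) * r1 S
    | .inr (.inl S) => (s2 : ℚ) * r2 S - ((S ∩ B2).card : ℚ)
    | .inr (.inr (.inl W)) => (up W.1 : ℚ)
    | .inr (.inr (.inr β)) => -(lo β.1 : ℚ)
  have hind : ∀ (S : Finset E) (x : E → ℚ),
      ∑ e, (if e ∈ S then (1 : ℚ) else 0) * x e = ∑ e ∈ S, x e := by
    intro S x
    simp [ite_mul, sum_ite_mem]
  have hA1 : ∀ (S : Finset E) (x : E → ℚ), ∑ e, A (.inl S) e * x e = ∑ e ∈ S, on B1 x e := by
    intro S x
    rw [sum_on]
    exact hind _ x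
  have hA2 : ∀ (S : Finset E) (x : E → ℚ),
      ∑ e, A (.inr (.inl S)) e * x e = -∑ e ∈ S ∩ B2, x e := by
    intro S x
    rw [← hind (S ∩ B2) x, ← sum_neg_distrib]
    exact sum_congr rfl fun e _ => neg_mul _ _
  have hA3 : ∀ (W : {W // W ∈ K}) (x : E → ℚ),
      ∑ e, A (.inr (.inr (.inl W))) e * x e = ∑ e ∈ cut a b W.1, x e := by
    intro W x
    exact hind _ x
  have hA4 : ∀ (β : {β // β ∈ R}) (x : E → ℚ),
      ∑ e, A (.inr (.inr (.inr β))) e * x e = -∑ e ∈ β.1, x e := by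
    intro β x
    rw [← hind β.1 x, ← sum_neg_distrib]
    exact sum_congr rfl fun e _ => neg_mul _ _
  have hon2 : ∀ (S : Finset E) (x : E → ℚ), ∑ e ∈ S, on B2 (fun e => 1 - x e) e =
      ((S ∩ B2).card : ℚ) - ∑ e ∈ S ∩ B2, x e := by
    intro S x
    rw [sum_on, sum_sub_distrib, sum_const, nsmul_eq_mul, mul_one]
  obtain ⟨x1, g1, g2, g3, g4, g5⟩ := Two.exists_vertex A c x h01 (by
    rintro (S | S | W | β)
    · rw [hA1]
      exact h1.feas.le S
    · rw [hA2]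
      have := h2.feas.le S
      rw [hon2] at this
      change -∑ e ∈ S ∩ B2, x e ≤ (s2 : ℚ) * r2 S - ((S ∩ B2).card : ℚ)
      linarith
    · rw [hA3]
      exact hK W.1 W.2
    · rw [hA4]
      change -∑ e ∈ β.1, x e ≤ -(lo β.1 : ℚ)
      have := hR β.1 β.2
      linarith)
  have k1 : ∀ S : Finset E, ∑ e ∈ S, on B1 x1 e ≤ (s1 : ℚ) * r1 S := by
    intro S
    have := g2 (.inl S)
    rw [hA1] at this
    exact this
  have k2 : ∀ S : Finset E, ∑ e ∈ S, on B2 (fun e => 1 - x1 e) e ≤ (s2 : ℚ) * r2 S := by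
    intro S
    have h3 := g2 (.inr (.inl S))
    rw [hA2] at h3
    have h4 : -∑ e ∈ S ∩ B2, x1 e ≤ (s2 : ℚ) * r2 S - ((S ∩ B2).card : ℚ) := h3
    rw [hon2]
    linarith
  have t1 : ∀ S, Tight r1 s1 (on B1 x) S → Tight r1 s1 (on B1 x1) S := by
    intro S hS
    have h3 := g3 (.inl S)
    rw [hA1, hA1] at h3
    exact h3 hS
  have t2 : ∀ S, Tight r2 s2 (on B2 fun e => 1 - x e) S →
      Tight r2 s2 (on B2 fun e => 1 - x1 e) S := by
    intro S hS
    have h3 := g3 (.inr (.inl S))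
    rw [hA2, hA2] at h3
    unfold Tight at hS ⊢
    rw [hon2] at hS ⊢
    have h4 : -∑ e ∈ S ∩ B2, x1 e = (s2 : ℚ) * r2 S - ((S ∩ B2).card : ℚ) := by
      apply h3
      change -∑ e ∈ S ∩ B2, x e = (s2 : ℚ) * r2 S - ((S ∩ B2).card : ℚ)
      linarith
    linarith
  refine ⟨x1, g1, h1.move (fun e _ => g1 e) k1 t1, h2.move (fun e _ => ?_) k2 t2, ?_, ?_, g4, ?_⟩
  · have := g1 e
    constructor
    · linarith [this.2]
    · linarith [this.1]
  · intro W hW
    have h3 := g2 (.inr (.inr (.inl ⟨W, hW⟩)))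
    rw [hA3] at h3
    exact h3
  · intro β hβ
    have h3 := g2 (.inr (.inr (.inr ⟨β, hβ⟩)))
    rw [hA4] at h3
    have h4 : -∑ e ∈ β, x1 e ≤ -(lo β : ℚ) := h3
    linarith
  · intro y y1 y2 y3 y4 y5
    refine g5 y (fun e he => y1 e fun h3 => ?_) ?_
    · rw [mem_frac] at h3
      exact he.elim h3.1 h3.2
    · have hz : ∀ (B : Finset E) (z1 : E → ℚ) (r : Finset E → ℕ) (s : ℕ), Feas r s (on B z1) →
          (∀ e, e ∈ frac x1 ↔ e ∈ frac z1) → (∀ D ∈ blks r s (on B z1), ∑ e ∈ D, y e = 0) →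
          ∀ S, Tight r s (on B z1) S → ∑ e ∈ S ∩ B, y e = 0 := by
        intro B z1 r s hf hfz hb S hS
        rw [← sum_on]
        refine sum_zero (r := r) (s := s) (x := on B z1) ?_ ?_ fun D hD => hf.blks_tight hS hD
        · intro e he
          by_cases hB : e ∈ B
          · rw [on_mem hB]
            apply y1 e
            intro h3
            apply he
            have h4 := mem_frac.1 ((hfz e).1 h3)
            rw [mem_frac, on_mem hB]
            exact h4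
          · rw [on_not hB]
        · intro D hD
          rw [← hb D hD]
          refine sum_congr rfl fun e he => on_mem ?_
          exact (mem_inter.1 (frac_on (blks_sub hD he))).1
      rintro (S | S | W | β) hi
      · rw [hA1] at hi ⊢
        rw [sum_on]
        exact hz B1 x1 r1 s1 (h1.move (fun e _ => g1 e) k1 t1).feas (fun e => Iff.rfl) y2 S hi
      · rw [hA2] at hi ⊢
        rw [neg_eq_zero]
        refine hz B2 (fun e => 1 - x1 e) r2 s2 (h2.move (fun e _ => ?_) k2 t2).feas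
          (fun e => ?_) y3 S ?_
        · have := g1 e
          constructor
          · linarith [this.2]
          · linarith [this.1]
        · rw [mem_frac, mem_frac]
          constructor
          · rintro ⟨h3, h4⟩
            exact ⟨fun h5 => h4 (by linarith), fun h5 => h3 (by linarith)⟩
          · rintro ⟨h3, h4⟩
            exact ⟨fun h5 => h4 (by linarith), fun h5 => h3 (by linarith)⟩
        · unfold Tight
          rw [hon2]
          have h4 : -∑ e ∈ S ∩ B2, x1 e = (s2 : ℚ) * r2 S - ((S ∩ B2).card : ℚ) := hi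
          linarith
      · rw [hA3] at hi ⊢
        exact y4 W.1 W.2 hi
      · rw [hA4] at hi ⊢
        rw [neg_eq_zero]
        refine y5 β.1 β.2 ?_
        have h4 : -∑ e ∈ β.1, x1 e = -(lo β.1 : ℚ) := hi
        linarith

/-- **the loop with block rows** -/
theorem back_loop4 {mo N c H : ℕ} (hcnt : Cnt4 mo N c H) (hH : 1 ≤ H)
    (hlam : ∀ X ∈ L, ∀ Y ∈ L, X ⊆ Y ∨ Y ⊆ X ∨ Disjoint X Y) (hne : ∀ W ∈ L, W.Nonempty)
    (hup : ∀ W ∈ L, W ≠ univ)
    (hZ : ∀ C ⊆ L, (∀ W ∈ C, ∀ W' ∈ C, W ≠ W' → Disjoint W W') →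
      ∑ W ∈ C, W.card ≤ rk a b (C.biUnion (ins a b)) + C.card)
    (RL : Finset (Finset E)) (B0 : Finset E)
    (hcon : ∀ W ∈ L, ∀ β ∈ RL, β ⊆ ins a b W ∨ Disjoint β (ins a b W))
    (hmo : ∀ e, (RL.filter fun β => e ∈ β).card ≤ mo)
    (hB : ∀ C ⊆ L, C.Nonempty → (∀ W ∈ C, ∀ W' ∈ C, W ≠ W' → Disjoint W W') →
      (B0.filter fun e => (∃ W ∈ C, a e ∈ W) ∧ (∃ W ∈ C, b e ∈ W) ∧
        ∀ W ∈ C, e ∉ ins a b W).card ≤ N * (C.card - 1))
    {k q : ℕ} (up : Finset V → ℤ) (lo : Finset E → ℤ) :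
    ∀ (n : ℕ) (B1 B2 : Finset E) (r1 r2 : Finset E → ℕ) (x : E → ℚ) (K : Finset (Finset V))
      (R : Finset (Finset E)),
      K.card + R.card + B1.card + B2.card < n → K ⊆ L → R ⊆ RL → frac x ⊆ B0 →
      (∀ e, 0 ≤ x e ∧ x e ≤ 1) →
      SD a b L (k + c) B1 r1 x → (SD a b L (q + c) B2 r2 fun e => 1 - x e) →
      (∀ W ∈ K, ∑ e ∈ cut a b W, x e ≤ (up W : ℚ)) →
      (∀ β ∈ R, (lo β : ℚ) ≤ ∑ e ∈ β, x e) →
      ∃ x' : E → ℚ, (∀ e, x' e = 0 ∨ x' e = 1) ∧ (∀ e, x e = 0 ∨ x e = 1 → x' e = x e) ∧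
        (∀ A, (k : ℚ) * ((r1 univ : ℚ) - r1 A) ≤ ∑ e ∈ B1 \ A, x' e) ∧
        (∀ A, (q : ℚ) * ((r2 univ : ℚ) - r2 A) ≤ ∑ e ∈ B2 \ A, (1 - x' e)) ∧
        (∀ W ∈ K, ∑ e ∈ cut a b W, x' e ≤ (up W : ℚ) + c) ∧
        ∀ β ∈ R, (lo β : ℚ) + 1 ≤ ∑ e ∈ β, x' e + H := by
  classical
  intro n
  induction n with
  | zero =>
    intro B1 B2 r1 r2 x K R hn
    omega
  | succ n ih =>
    intro B1 B2 r1 r2 x K R hn hKL hRL hfB h01 h1 h2 hK hR
    obtain ⟨x1, g01, g1, g2, gK, gR, gx, gy⟩ := vert_step4 h01 h1 h2 hK hR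
    have hfx : frac x1 ⊆ frac x := by
      intro e he
      obtain ⟨h3, h4⟩ := mem_frac.1 he
      rw [mem_frac]
      constructor
      · intro h5
        have h6 := gx e (Or.inl h5)
        exact h3 (h6.trans h5)
      · intro h5
        have h6 := gx e (Or.inr h5)
        exact h4 (h6.trans h5)
    have hf1 : frac (on B1 x1) ⊆ frac x1 := frac_on.trans inter_subset_right
    have hf2 : frac (on B2 fun e => 1 - x1 e) ⊆ frac x1 := by
      refine (frac_on.trans inter_subset_right).trans fun e he => ?_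
      obtain ⟨h3, h4⟩ := mem_frac.1 he
      exact mem_frac.2 ⟨fun h5 => h4 (by linarith), fun h5 => h3 (by linarith)⟩
    have trans : ∀ x' : E → ℚ, (∀ e, x1 e = 0 ∨ x1 e = 1 → x' e = x1 e) →
        ∀ e, x e = 0 ∨ x e = 1 → x' e = x e := by
      intro x' hx' e he
      have h3 := gx e he
      rw [← h3]
      exact hx' e (by rw [h3]; exact he)
    have h0' : ∀ x' : E → ℚ, (∀ e, x' e = 0 ∨ x' e = 1) → ∀ e, 0 ≤ x' e := by
      intro x' hx' e
      rcases hx' e with h3 | h3 <;> rw [h3]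
      exact zero_le_one
    have h0'' : ∀ x' : E → ℚ, (∀ e, x' e = 0 ∨ x' e = 1) → ∀ e, 0 ≤ 1 - x' e := by
      intro x' hx' e
      rcases hx' e with h3 | h3 <;> rw [h3] <;> norm_num
    by_cases hfr : (frac x1).Nonempty
    · have hcnt' := hcnt V E a b x1 (K.filter fun W => ∑ e ∈ cut a b W, x1 e = (up W : ℚ))
        (blks r1 (k + c) (on B1 x1)) (blks r2 (q + c) (on B2 fun e => 1 - x1 e))
        (R.filter fun β => ∑ e ∈ β, x1 e = (lo β : ℚ))
        (fun X hX Y hY => hlam X (hKL (mem_filter.1 hX).1) Y (hKL (mem_filter.1 hY).1))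
        (fun W hW => hne W (hKL (mem_filter.1 hW).1))
        (fun W hW => hup W (hKL (mem_filter.1 hW).1))
        (g1.side hf1 ((filter_subset _ _).trans hKL) hne hZ)
        (g2.side hf2 ((filter_subset _ _).trans hKL) hne hZ) g01
        (fun W hW => ⟨up W, (mem_filter.1 hW).2⟩)
        (fun W hW β hβ => by
          rcases hcon W (hKL (mem_filter.1 hW).1) β (hRL (mem_filter.1 hβ).1) with h3 | h3
          · exact Or.inl (inter_subset_left.trans h3)
          · exact Or.inr (h3.mono_left inter_subset_left))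
        (fun e => (card_le_card (filter_subset_filter _ ((filter_subset _ _).trans hRL))).trans
          (hmo e))
        (fun C hC hCne hdis => (card_le_card (filter_subset_filter _ (hfx.trans hfB))).trans
          (hB C (hC.trans ((filter_subset _ _).trans hKL)) hCne hdis))
        (fun y y1 y2 y3 y4 y5 => gy y y1 y2 y3 (fun W hW hW' =>
          y4 W (mem_filter.2 ⟨hW, hW'⟩)) (fun β hβ hβ' => y5 β (mem_filter.2 ⟨hβ, hβ'⟩))) hfr
      have q1 : ∀ x' : E → ℚ, (∀ e, x' e = 0 ∨ x' e = 1) →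
          (∀ e, x1 e = 0 ∨ x1 e = 1 → x' e = x1 e) → ∀ e, x' e ≤ x1 e +
            (if e ∈ frac x1 then 1 else 0) ∧ x1 e ≤ x' e + (if e ∈ frac x1 then 1 else 0) := by
        intro x' p1 p2 e
        by_cases he : e ∈ frac x1
        · rw [if_pos he]
          have := g01 e
          rcases p1 e with h7 | h7 <;> rw [h7] <;> constructor <;> linarith [this.1, this.2]
        · rw [if_neg he, add_zero, add_zero]
          have : x' e = x1 e := by
            refine p2 e ?_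
            by_contra h7
            rw [not_or] at h7
            exact he (mem_frac.2 h7)
          exact ⟨this.le, this.ge⟩
      rcases hcnt' with ⟨D, hD, hc⟩ | ⟨D, hD, hc⟩ | ⟨W, hW, hc⟩ | ⟨β, hβ, hc⟩
      · obtain ⟨B', r', h3, h4, h5⟩ := g1.free hD hc
        have h6 := card_lt_card h3
        obtain ⟨x', p1, p2, p3, p4, p5, p6⟩ := ih B' B2 r' r2 x1 K R (by omega) hKL hRL
          (hfx.trans hfB) g01 h4 g2 gK gR
        exact ⟨x', p1, trans x' p2, h5 x' (h0' x' p1) p2 p3, p4, p5, p6⟩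
      · obtain ⟨B', r', h3, h4, h5⟩ := g2.free hD hc
        have h6 := card_lt_card h3
        obtain ⟨x', p1, p2, p3, p4, p5, p6⟩ := ih B1 B' r1 r' x1 K R (by omega) hKL hRL
          (hfx.trans hfB) g01 g1 h4 gK gR
        refine ⟨x', p1, trans x' p2, p3, h5 (fun e => 1 - x' e) (h0'' x' p1) ?_ p4, p5, p6⟩
        intro e he
        change 1 - x' e = 1 - x1 e
        rw [p2 e]
        rcases he with he | he
        · exact Or.inr (by linarith)
        · exact Or.inl (by linarith)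
      · have hWK := (mem_filter.1 hW).1
        have h6 : (K.erase W).card < K.card := card_erase_lt_of_mem hWK
        obtain ⟨x', p1, p2, p3, p4, p5, p6⟩ := ih B1 B2 r1 r2 x1 (K.erase W) R (by omega)
          ((erase_subset _ _).trans hKL) hRL (hfx.trans hfB) g01 g1 g2
          (fun W' hW' => gK W' (mem_of_mem_erase hW')) gR
        refine ⟨x', p1, trans x' p2, p3, p4, fun W' hW' => ?_, p6⟩
        by_cases hWW : W' = W
        · subst hWW
          refine (sum_le_sum fun e _ => (q1 x' p1 p2 e).1).trans ?_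
          rw [sum_add_distrib]
          have q2 : ∑ e ∈ cut a b W', (if e ∈ frac x1 then (1 : ℚ) else 0) ≤ c := by
            rw [← sum_filter, sum_const, nsmul_eq_mul, mul_one, filter_mem_eq_inter]
            exact_mod_cast hc
          have q3 := gK W' hWK
          linarith
        · exact p5 W' (mem_erase.2 ⟨hWW, hW'⟩)
      · have hβR := (mem_filter.1 hβ).1
        have h6 : (R.erase β).card < R.card := card_erase_lt_of_mem hβR
        obtain ⟨x', p1, p2, p3, p4, p5, p6⟩ := ih B1 B2 r1 r2 x1 K (R.erase β) (by omega)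
          hKL ((erase_subset _ _).trans hRL) (hfx.trans hfB) g01 g1 g2 gK
          (fun β' hβ' => gR β' (mem_of_mem_erase hβ'))
        refine ⟨x', p1, trans x' p2, p3, p4, p5, fun β' hβ' => ?_⟩
        by_cases hββ : β' = β
        · subst hββ
          have q2 : ∑ e ∈ β', (if e ∈ frac x1 then (1 : ℚ) else 0) + 1 ≤ H := by
            rw [← sum_filter, sum_const, nsmul_eq_mul, mul_one, filter_mem_eq_inter]
            exact_mod_cast hc
          have q3 := gR β' hβR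
          have q4 : ∑ e ∈ β', x1 e ≤ ∑ e ∈ β', (x' e + (if e ∈ frac x1 then (1 : ℚ) else 0)) :=
            sum_le_sum fun e _ => (q1 x' p1 p2 e).2
          rw [sum_add_distrib] at q4
          linarith
        · exact p6 β' (mem_erase.2 ⟨hββ, hβ'⟩)
    · have hint : ∀ e, x1 e = 0 ∨ x1 e = 1 := by
        intro e
        by_contra h3
        rw [not_or] at h3
        exact hfr ⟨e, mem_frac.2 h3⟩
      refine ⟨x1, hint, gx, fun A => fin_acc g1.feas A, fun A => fin_acc g2.feas A,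
        fun W hW => ?_, fun β hβ => ?_⟩
      · have := gK W hW
        have h3 : (0 : ℚ) ≤ c := Nat.cast_nonneg c
        linarith
      · have := gR β hβ
        have h3 : (1 : ℚ) ≤ H := by exact_mod_cast hH
        linarith

end Pool.Agent.Lib.MP_21a058_co.Duo
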