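import Pool.Agent.Lib.MP_21a058_co.Duo.Cnt4
import Pool.Agent.Lib.MP_21a058_co.Duo.Loop4

/-!
MP_21a058_co: the counting theorem as the hypothesis `Cnt4` of the rounding loop.
-/

set_option autoImplicit false

namespace Pool.Agent.Lib.MP_21a058_co.Duo

/-- the counting theorem is the hypothesis of the loop -/
theorem cnt4_of {mo N C9 c H : ℕ} (hH : 1 ≤ H) (h1 : 48 * mo ≤ H) (h2 : 2 * mo * N ≤ C9 * H)
    (h3 : 16 + 4 * C9 ≤ c + 1) : Cnt4 mo N c H :=
  cnt4_raw hH h1 h2 h3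

end Pool.Agent.Lib.MP_21a058_co.Duo
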