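import Pool.Agent.Lib.MP_21a058_co.Duo.Blk

/-! MP_21a058_co, two-sided rounding, letter (2): a minimal family of cut rows. -/

set_option linter.unusedSectionVars false
set_option linter.unusedVariables false

namespace Pool.Agent.Lib.MP_21a058_co.Duo

open Finset MP21a058
open scoped Classical

variable {E : Type} [Fintype E] [DecidableEq E] {r : Finset E → ℕ} {s : ℕ} {x : E → ℚ}

/-- extension by zero -/
noncomputable def ext0 (F : Finset E) : ({e // e ∈ F} → ℚ) →ₗ[ℚ] (E → ℚ) where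
  toFun y e := if h : e ∈ F then y ⟨e, h⟩ else 0
  map_add' y z := by
    funext e
    by_cases h : e ∈ F
    · simp [h]
    · simp [h]
  map_smul' c y := by
    funext e
    by_cases h : e ∈ F
    · simp [h]
    · simp [h]

theorem ext0_mem (F : Finset E) (y : {e // e ∈ F} → ℚ) {e : E} (h : e ∈ F) :
    ext0 F y e = y ⟨e, h⟩ := by
  simp [ext0, h]

theorem ext0_not (F : Finset E) (y : {e // e ∈ F} → ℚ) {e : E} (h : e ∉ F) :
    ext0 F y e = 0 := by
  simp [ext0, h]

/-- rows which determine `y` are at least as many as the coordinates -/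
theorem card_le_rows {ι : Type} (F : Finset E) (R : Finset ι) (A : ι → Finset E)
    (h : ∀ y : E → ℚ, (∀ e, e ∉ F → y e = 0) → (∀ i ∈ R, ∑ e ∈ A i, y e = 0) → y = 0) :
    F.card ≤ R.card := by
  let Φ : ({e // e ∈ F} → ℚ) →ₗ[ℚ] ({i // i ∈ R} → ℚ) :=
    { toFun := fun y i => ∑ e ∈ A i.1, ext0 F y e
      map_add' := fun y z => by
        funext i
        simp only [map_add, Pi.add_apply, sum_add_distrib]
      map_smul' := fun c y => by
        funext i
        simp only [map_smul, Pi.smul_apply, smul_eq_mul, RingHom.id_apply, mul_sum] }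
  have hinj : Function.Injective Φ := by
    rw [← LinearMap.ker_eq_bot, LinearMap.ker_eq_bot']
    intro y hy
    have h1 := h (ext0 F y) (fun e he => ext0_not F y he) (fun i hi => by
      have h2 := congrFun hy ⟨i, hi⟩
      exact h2)
    funext e
    have h2 := congrFun h1 e.1
    rw [ext0_mem F y e.2] at h2
    exact h2
  have h3 := LinearMap.finrank_le_finrank_of_injective hinj
  rw [Module.finrank_fintype_fun_eq_card, Module.finrank_fintype_fun_eq_card,
    Fintype.card_coe, Fintype.card_coe] at h3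
  exact h3

/-- letter (2): a minimal family of cut rows -/
theorem exists_Q {V : Type} (h : Feas r s x) (D : Finset V → Finset E)
    (K : Finset (Finset V))
    (hker : ∀ y : E → ℚ, (∀ e, e ∉ frac x → y e = 0) →
      (∀ S, Tight r s x S → ∑ e ∈ S, y e = 0) → (∀ W ∈ K, ∑ e ∈ D W, y e = 0) → y = 0) :
    ∃ Q ⊆ K, (frac x).card ≤ (blks r s x).card + Q.card ∧
      ∀ W ∈ Q, ∃ y : E → ℚ, (∀ e, e ∉ frac x → y e = 0) ∧
        (∀ B ∈ blks r s x, ∑ e ∈ B, y e = 0) ∧
        (∀ W' ∈ Q, W' ≠ W → ∑ e ∈ D W', y e = 0) ∧ ∑ e ∈ D W, y e ≠ 0 := by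
  obtain ⟨Q, hQ, hmin⟩ := exists_min_image (K.powerset.filter fun Q =>
    ∀ y : E → ℚ, (∀ e, e ∉ frac x → y e = 0) → (∀ B ∈ blks r s x, ∑ e ∈ B, y e = 0) →
      (∀ W ∈ Q, ∑ e ∈ D W, y e = 0) → y = 0) card
    ⟨K, mem_filter.2 ⟨mem_powerset_self K, fun y h1 h2 h3 =>
      hker y h1 (fun S hS => sum_zero h1 h2 (fun D hD => h.blks_tight hS hD)) h3⟩⟩
  rw [mem_filter, mem_powerset] at hQ
  refine ⟨Q, hQ.1, ?_, ?_⟩
  · have h1 := card_le_rows (frac x)
      ((blks r s x).disjSum Q) (fun i : Finset E ⊕ Finset V => Sum.elim (fun B => B) D i)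
      (fun y hy hrow => hQ.2 y hy
        (fun B hB => hrow (Sum.inl B) (inl_mem_disjSum.2 hB))
        (fun W hW => hrow (Sum.inr W) (inr_mem_disjSum.2 hW)))
    rw [card_disjSum] at h1
    exact h1
  · intro W hW
    have h1 : ¬ ∀ y : E → ℚ, (∀ e, e ∉ frac x → y e = 0) →
        (∀ B ∈ blks r s x, ∑ e ∈ B, y e = 0) →
        (∀ W' ∈ Q.erase W, ∑ e ∈ D W', y e = 0) → y = 0 := by
      intro hcon
      have h2 := hmin (Q.erase W) (mem_filter.2
        ⟨mem_powerset.2 ((erase_subset W Q).trans hQ.1), hcon⟩)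
      have h3 := card_erase_lt_of_mem hW
      omega
    push Not at h1
    obtain ⟨y, h2, h3, h4, h5⟩ := h1
    refine ⟨y, h2, h3, fun W' hW' hne => h4 W' (mem_erase.2 ⟨hne, hW'⟩), fun h6 => h5 ?_⟩
    apply hQ.2 y h2 h3
    intro W' hW'
    by_cases hne : W' = W
    · rw [hne]
      exact h6
    · exact h4 W' (mem_erase.2 ⟨hne, hW'⟩)

end Pool.Agent.Lib.MP_21a058_co.Duo
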