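import Pool.Agent.Lib.MP_21a058_co.Duo.Node
import Pool.Agent.Lib.MP_21a058_co.Duo.Span

/-!
MP_21a058_co, two-sided rounding with two matroids: if all blocks of both sides have at least eight
fractional edges, some kept integral cut has at most seven.
-/

set_option autoImplicit false

namespace Pool.Agent.Lib.MP_21a058_co.Duo

open Finset MP21a058
open Pool.Agent.Lib.MP_21a058_co.P

variable {V E : Type} [Fintype V] [DecidableEq V] [Fintype E] [DecidableEq E] (a b : E → V)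

/-- the blocks of one matroid -/
structure Side (F : Finset E) (K : Finset (Finset V)) (D : Finset (Finset E)) : Prop where
  sub : ∀ B ∈ D, B ⊆ F
  disj : ∀ B ∈ D, ∀ B' ∈ D, B ≠ B' → Disjoint B B'
  con : ∀ W ∈ K, ∀ B ∈ D, B ⊆ ins a b W ∨ Disjoint B (ins a b W)
  rep : ∀ C ⊆ K, C.Nonempty → (∀ W ∈ C, ∀ W' ∈ C, W ≠ W' → Disjoint W W') →
    ∀ J : Finset E, (∀ e ∈ J, ∃ B ∈ D, e ∈ B) →
      (∀ B ∈ D, ∀ e ∈ J, ∀ f ∈ J, e ∈ B → f ∈ B → e = f) →
      (∀ e ∈ J, (∃ W ∈ C, a e ∈ W) ∧ (∃ W ∈ C, b e ∈ W) ∧ ∀ W ∈ C, e ∉ ins a b W) →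
      J.card + 1 ≤ C.card

variable {F : Finset E} {K Q : Finset (Finset V)} {D : Finset (Finset E)}

theorem Side.anti (h : Side a b F K D) (hQ : Q ⊆ K) : Side a b F Q D :=
  ⟨h.sub, h.disj, fun W hW => h.con W (hQ hW), fun C hC => h.rep C (hC.trans hQ)⟩

/-- ends at `W` outside the children -/
def tE (Q : Finset (Finset V)) (F : Finset E) (W : Finset V) : Finset E :=
  F.filter fun e => a e ∈ W ∧ ∀ K ∈ kids Q W, a e ∉ K

/-- blocks located at `W` -/
def bL (D : Finset (Finset E)) (Q : Finset (Finset V)) (W : Finset V) : Finset (Finset E) :=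
  D.filter fun B => B ⊆ ins a b W ∧ ∀ K ∈ kids Q W, ¬ B ⊆ ins a b K

theorem TT_split2 (hlam : ∀ X ∈ Q, ∀ Y ∈ Q, X ⊆ Y ∨ Y ⊆ X ∨ Disjoint X Y) (F : Finset E)
    (W : Finset V) : TT a b F W = ∑ K ∈ kids Q W, TT a b F K +
      ((tE a Q F W).card + (tE b Q F W).card) := by
  have key : ∀ c : E → V, (F.filter fun e => c e ∈ W).card =
      ∑ K ∈ kids Q W, (F.filter fun e => c e ∈ K).card + (tE c Q F W).card := by
    intro c
    refine split_card F (kids Q W) (fun e => c e ∈ W) (fun K e => c e ∈ K) (tE c Q F W)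
      (fun e => by rw [tE, mem_filter]) ?_ ?_
    · intro K hK e _ he
      exact (mem_kids.1 hK).2.1.1 he
    · intro e _ K hK K' hK' h1 h2
      by_contra hne
      exact disjoint_left.1 (kids_disj hlam K hK K' hK' hne) h1 h2
  unfold TT
  rw [key a, key b, sum_add_distrib]
  omega

theorem rho_split2 (hlam : ∀ X ∈ Q, ∀ Y ∈ Q, X ⊆ Y ∨ Y ⊆ X ∨ Disjoint X Y)
    (hDne : ∀ B ∈ D, B.Nonempty) (W : Finset V) :
    rho a b D W = ∑ K ∈ kids Q W, rho a b D K + (bL a b D Q W).card := by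
  unfold rho
  refine split_card D (kids Q W) (fun B => B ⊆ ins a b W)
    (fun K B => B ⊆ ins a b K) (bL a b D Q W) (fun B => by rw [bL, mem_filter]) ?_ ?_
  · intro K hK B _ hB e he
    obtain ⟨h1, h2⟩ := (mem_ins a b).1 (hB he)
    exact (mem_ins a b).2 ⟨(mem_kids.1 hK).2.1.1 h1, (mem_kids.1 hK).2.1.1 h2⟩
  · intro B hB K hK K' hK' h1 h2
    by_contra hne
    obtain ⟨e, he⟩ := hDne B hB
    exact disjoint_left.1 (kids_disj hlam K hK K' hK' hne) ((mem_ins a b).1 (h1 he)).1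
      ((mem_ins a b).1 (h2 he)).1

/-- **a node with children**, one side -/
theorem side_kids (h : Side a b F Q D) (h8 : ∀ B ∈ D, 8 ≤ B.card)
    (hlam : ∀ X ∈ Q, ∀ Y ∈ Q, X ⊆ Y ∨ Y ⊆ X ∨ Disjoint X Y) {W : Finset V}
    (hC : (kids Q W).Nonempty) :
    ∃ g : ℕ, (bL a b D Q W).card + 1 ≤ g + (kids Q W).card ∧
      8 * g ≤ (tE a Q F W).card + (tE b Q F W).card := by
  classical
  obtain ⟨G, hG⟩ : ∃ G : Finset (Finset E), G = (bL a b D Q W).filter fun B =>
      8 ≤ (B ∩ tE a Q F W).card + (B ∩ tE b Q F W).card := ⟨_, rfl⟩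
  obtain ⟨N, hN⟩ : ∃ N : Finset (Finset E), N = (bL a b D Q W).filter fun B =>
      ¬ 8 ≤ (B ∩ tE a Q F W).card + (B ∩ tE b Q F W).card := ⟨_, rfl⟩
  have hGN : G.card + N.card = (bL a b D Q W).card := by
    rw [hG, hN]
    exact card_filter_add_card_filter_not _
  have hblk : ∀ B ∈ bL a b D Q W, B ∈ D := fun B hB => (mem_filter.1 hB).1
  -- good blocks
  have hsum : ∀ c : E → V, ∑ B ∈ G, (B ∩ tE c Q F W).card ≤ (tE c Q F W).card := by
    intro c
    rw [← card_biUnion]
    · refine card_le_card fun e he => ?_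
      obtain ⟨B, -, h1⟩ := mem_biUnion.1 he
      exact (mem_inter.1 h1).2
    · intro B hB B' hB' hne
      change Disjoint _ _
      rw [hG] at hB hB'
      have h1 := h.disj B (hblk B (mem_filter.1 hB).1) B' (hblk B' (mem_filter.1 hB').1) hne
      exact h1.mono inter_subset_left inter_subset_left
  have hgood : 8 * G.card ≤ (tE a Q F W).card + (tE b Q F W).card := by
    have h1 : ∑ _B ∈ G, 8 ≤ ∑ B ∈ G, ((B ∩ tE a Q F W).card + (B ∩ tE b Q F W).card) :=
      sum_le_sum fun B hB => by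
        rw [hG] at hB
        exact (mem_filter.1 hB).2
    rw [sum_const, smul_eq_mul, sum_add_distrib] at h1
    have h2 := hsum a
    have h3 := hsum b
    omega
  -- bad blocks
  have hbig : ∀ B ∈ N, ∃ e ∈ B, e ∉ tE a Q F W ∧ e ∉ tE b Q F W := by
    intro B hB
    have hD2 := hB
    rw [hN] at hD2
    obtain ⟨h1, h2⟩ := mem_filter.1 hD2
    have h3 := h8 B (hblk B h1)
    have h4 : ∃ e ∈ B, e ∉ B ∩ (tE a Q F W ∪ tE b Q F W) := by
      by_contra hcon
      push Not at hcon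
      have h5 : B.card ≤ (B ∩ (tE a Q F W ∪ tE b Q F W)).card := card_le_card hcon
      rw [inter_union_distrib_left] at h5
      have h6 := card_union_le (B ∩ tE a Q F W) (B ∩ tE b Q F W)
      omega
    obtain ⟨e, he, h5⟩ := h4
    refine ⟨e, he, fun h6 => h5 ?_, fun h6 => h5 ?_⟩
    · exact mem_inter.2 ⟨he, mem_union_left _ h6⟩
    · exact mem_inter.2 ⟨he, mem_union_right _ h6⟩
  rcases N.eq_empty_or_nonempty with hN0 | hN0
  · rw [hN0, card_empty] at hGN
    have := card_pos.2 hC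
    exact ⟨G.card, by omega, hgood⟩
  obtain ⟨e00, -⟩ : ∃ e : E, True := by
    obtain ⟨B, hB⟩ := hN0
    obtain ⟨e, -, -⟩ := hbig B hB
    exact ⟨e, trivial⟩
  have hrep : ∀ B : Finset E, ∃ e : E, B ∈ N → e ∈ B ∧ e ∉ tE a Q F W ∧ e ∉ tE b Q F W := by
    intro B
    by_cases hB : B ∈ N
    · obtain ⟨e, h1, h2⟩ := hbig B hB
      exact ⟨e, fun _ => ⟨h1, h2⟩⟩
    · exact ⟨e00, fun h1 => absurd h1 hB⟩
  choose f hf using hrep
  have hinjD : ∀ B ∈ N, ∀ B' ∈ N, ∀ e : E, e ∈ B → e ∈ B' → B = B' := by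
    intro B hB B' hB' e h1 h2
    by_contra hne
    rw [hN] at hB hB'
    exact disjoint_left.1 (h.disj B (hblk B (mem_filter.1 hB).1) B' (hblk B' (mem_filter.1 hB').1)
      hne) h1 h2
  have hJcard : (N.image f).card = N.card := by
    refine card_image_of_injOn fun B hB B' hB' hff => ?_
    have h1 := (hf B (mem_coe.1 hB)).1
    have h2 := (hf B' (mem_coe.1 hB')).1
    exact hinjD B (mem_coe.1 hB) B' (mem_coe.1 hB') (f B) h1 (by rw [hff]; exact h2)
  have hbad := h.rep (kids Q W) (fun K hK => (mem_kids.1 hK).1) hC (kids_disj hlam)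
    (N.image f) (by
      intro e he
      obtain ⟨B, hB, rfl⟩ := mem_image.1 he
      have h1 := (hf B hB).1
      rw [hN] at hB
      exact ⟨B, hblk B (mem_filter.1 hB).1, h1⟩) (by
      intro B0 hB0 e he e' he' h1 h2
      obtain ⟨B, hB, rfl⟩ := mem_image.1 he
      obtain ⟨B', hB', rfl⟩ := mem_image.1 he'
      have h3 := (hf B hB).1
      have h4 := (hf B' hB').1
      have h5 : B = B0 := by
        by_contra hne
        have h7 := hB
        rw [hN] at h7
        exact disjoint_left.1 (h.disj B (hblk B (mem_filter.1 h7).1) B0 hB0 hne) h3 h1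
      have h6 : B' = B0 := by
        by_contra hne
        have h7 := hB'
        rw [hN] at h7
        exact disjoint_left.1 (h.disj B' (hblk B' (mem_filter.1 h7).1) B0 hB0 hne) h4 h2
      rw [h5, h6]) (by
      intro e he
      obtain ⟨B, hB, rfl⟩ := mem_image.1 he
      obtain ⟨h1, h2, h3⟩ := hf B hB
      have hD2 := hB
      rw [hN] at hD2
      obtain ⟨h4, -⟩ := mem_filter.1 hD2
      obtain ⟨h5, h6, h7⟩ := mem_filter.1 h4
      have h8' := h.sub B h5 h1
      obtain ⟨h9, h10⟩ := (mem_ins a b).1 (h6 h1)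
      have h11 : ∃ K ∈ kids Q W, a (f B) ∈ K := by
        by_contra hcon
        push Not at hcon
        exact h2 (mem_filter.2 ⟨h8', h9, hcon⟩)
      have h12 : ∃ K ∈ kids Q W, b (f B) ∈ K := by
        by_contra hcon
        push Not at hcon
        exact h3 (mem_filter.2 ⟨h8', h10, hcon⟩)
      refine ⟨h11, h12, fun K hK h13 => ?_⟩
      rcases h.con K (mem_kids.1 hK).1 B h5 with h14 | h14
      · exact h7 K hK h14
      · exact disjoint_left.1 h14 h1 h13)
  rw [hJcard] at hbad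
  exact ⟨G.card, by omega, hgood⟩

/-- blocks located at `W` have eight edges each inside `W` -/
theorem side_in (h : Side a b F Q D) (h8 : ∀ B ∈ D, 8 ≤ B.card) (W : Finset V) :
    8 * (bL a b D Q W).card ≤ (F.filter fun e => e ∈ ins a b W).card := by
  classical
  have h1 : ∑ _B ∈ bL a b D Q W, 8 ≤ ∑ B ∈ bL a b D Q W, B.card :=
    sum_le_sum fun B hB => h8 B (mem_filter.1 hB).1
  rw [sum_const, smul_eq_mul] at h1
  have h2 : ∑ B ∈ bL a b D Q W, B.card = ((bL a b D Q W).biUnion id).card := by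
    rw [card_biUnion]
    · rfl
    · intro B hB B' hB' hne
      exact h.disj B (mem_filter.1 hB).1 B' (mem_filter.1 hB').1 hne
  have h3 : (bL a b D Q W).biUnion id ⊆ F.filter fun e => e ∈ ins a b W := by
    intro e he
    obtain ⟨B, hB, h4⟩ := mem_biUnion.1 he
    obtain ⟨h5, h6, h7⟩ := mem_filter.1 hB
    exact mem_filter.2 ⟨h.sub B h5 h4, h6 h4⟩
  have h4 := card_le_card h3
  omega

/-- the ends inside `W` -/
theorem TT_leaf (F : Finset E) (W : Finset V) :
    TT a b F W = 2 * (F.filter fun e => e ∈ ins a b W).card + (cut a b W ∩ F).card := by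
  classical
  have e1 : (F.filter fun e => e ∈ ins a b W) =
      (F.filter fun e => a e ∈ W) ∩ (F.filter fun e => b e ∈ W) := by
    ext e
    rw [mem_inter, mem_filter, mem_filter, mem_filter, mem_ins]
    tauto
  have e2 : (cut a b W ∩ F) = ((F.filter fun e => a e ∈ W) ∪
      (F.filter fun e => b e ∈ W)) \ ((F.filter fun e => a e ∈ W) ∩
      (F.filter fun e => b e ∈ W)) := by
    ext e
    rw [mem_inter, mem_sdiff, mem_union, mem_inter, mem_filter, mem_filter, mem_cut]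
    tauto
  have e3 := card_union_add_card_inter (F.filter fun e => a e ∈ W) (F.filter fun e => b e ∈ W)
  have e4 : ((F.filter fun e => a e ∈ W) ∩ (F.filter fun e => b e ∈ W)).card ≤
      ((F.filter fun e => a e ∈ W) ∪ (F.filter fun e => b e ∈ W)).card :=
    card_le_card (inter_subset_left.trans subset_union_left)
  unfold TT
  rw [e1, e2, card_sdiff_of_subset (inter_subset_left.trans subset_union_left)]
  omega

/-- the setting of the count -/
structure Set3 (x : E → ℚ) (Q : Finset (Finset V)) (D1 D2 : Finset (Finset E)) : Prop where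
  h01 : ∀ e, 0 ≤ x e ∧ x e ≤ 1
  lam : ∀ X ∈ Q, ∀ Y ∈ Q, X ⊆ Y ∨ Y ⊆ X ∨ Disjoint X Y
  ne : ∀ W ∈ Q, W.Nonempty
  s1 : Side a b (frac x) Q D1
  s2 : Side a b (frac x) Q D2
  b1 : ∀ B ∈ D1, 8 ≤ B.card
  b2 : ∀ B ∈ D2, 8 ≤ B.card
  int : ∀ W ∈ Q, ∃ n : ℤ, ∑ e ∈ cut a b W, x e = n
  wit : ∀ W ∈ Q, ∃ y : E → ℚ, (∀ e, e ∉ frac x → y e = 0) ∧
    (∀ W' ∈ Q, W' ≠ W → ∑ e ∈ cut a b W', y e = 0) ∧ ∑ e ∈ cut a b W, y e ≠ 0

variable {x : E → ℚ} {D1 D2 : Finset (Finset E)}

/-- tokens of a node with one child: at least two -/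
theorem node_one2 (H : Set3 a b x Q D1 D2) {W K : Finset V} (hW : W ∈ Q)
    (hC : kids Q W = {K}) : 2 ≤ (tE a Q (frac x) W).card + (tE b Q (frac x) W).card := by
  classical
  have hK : K ∈ kids Q W := by
    rw [hC]
    exact mem_singleton_self K
  obtain ⟨hKQ, hKW, -⟩ := mem_kids.1 hK
  have hKne : K ≠ W := fun h => hKW.2 (by rw [h])
  have hcl : ∀ v, (∀ K' ∈ kids Q W, v ∉ K') ↔ v ∉ K := by
    intro v
    rw [hC]
    constructor
    · intro h3
      exact h3 K (mem_singleton_self K)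
    · intro h3 K' hK'
      rw [mem_singleton.1 hK']
      exact h3
  have hm : ∀ c : E → V, ∀ e, e ∈ tE c Q (frac x) W ↔ e ∈ frac x ∧ c e ∈ W ∧ c e ∉ K := by
    intro c e
    unfold tE
    rw [mem_filter, hcl]
  -- fractional edges in exactly one of the two cuts have an end in `W \ K`
  have hdiff : ∀ e ∈ frac x, e ∉ tE a Q (frac x) W → e ∉ tE b Q (frac x) W →
      (e ∈ cut a b W ↔ e ∈ cut a b K) := by
    intro e he h1 h2
    rw [hm] at h1 h2
    rw [mem_cut, mem_cut]
    have h3 : a e ∈ K → a e ∈ W := fun h => hKW.1 h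
    have h4 : b e ∈ K → b e ∈ W := fun h => hKW.1 h
    have h5 : a e ∈ W ↔ a e ∈ K := ⟨fun h => by by_contra hc; exact h1 ⟨he, h, hc⟩, h3⟩
    have h6 : b e ∈ W ↔ b e ∈ K := ⟨fun h => by by_contra hc; exact h2 ⟨he, h, hc⟩, h4⟩
    rw [h5, h6]
  have hsum : ∀ (y : E → ℚ) (Z : Finset V), ∑ e ∈ cut a b Z, y e =
      ∑ e, if e ∈ cut a b Z then y e else 0 := by
    intro y Z
    rw [← sum_filter, filter_mem_eq_inter, univ_inter]
  by_contra hcon
  obtain ⟨y, hy1, hy3, hy4⟩ := H.wit W hW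
  rcases Nat.lt_or_ge ((tE a Q (frac x) W).card + (tE b Q (frac x) W).card) 1 with h4 | h4
  · have h5 : tE a Q (frac x) W = ∅ := card_eq_zero.1 (by omega)
    have h6 : tE b Q (frac x) W = ∅ := card_eq_zero.1 (by omega)
    apply hy4
    rw [← hy3 K hKQ hKne, hsum, hsum]
    refine sum_congr rfl fun e _ => ?_
    by_cases he : e ∈ frac x
    · have h7 := hdiff e he (by rw [h5]; exact notMem_empty e) (by rw [h6]; exact notMem_empty e)
      by_cases h8 : e ∈ cut a b K
      · rw [if_pos h8, if_pos (h7.2 h8)]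
      · rw [if_neg h8, if_neg (fun h9 => h8 (h7.1 h9))]
    · rw [hy1 e he, ite_self, ite_self]
  · -- exactly one token, at the edge `e0`
    obtain ⟨e0, he0, huq⟩ : ∃ e0 ∈ frac x, (∀ e ∈ frac x, e ≠ e0 →
        e ∉ tE a Q (frac x) W ∧ e ∉ tE b Q (frac x) W) ∧
        ¬ (e0 ∈ tE a Q (frac x) W ∧ e0 ∈ tE b Q (frac x) W) ∧
        (e0 ∈ tE a Q (frac x) W ∨ e0 ∈ tE b Q (frac x) W) := by
      rcases Nat.lt_or_ge (tE a Q (frac x) W).card 1 with h5 | h5
      · have h6 : tE a Q (frac x) W = ∅ := card_eq_zero.1 (by omega)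
        have h7 : (tE b Q (frac x) W).card = 1 := by omega
        obtain ⟨e0, h8⟩ := card_eq_one.1 h7
        have h9 : e0 ∈ tE b Q (frac x) W := by rw [h8]; exact mem_singleton_self e0
        refine ⟨e0, (mem_filter.1 h9).1, ?_, ?_, Or.inr h9⟩
        · intro e _ hne
          rw [h6, h8]
          exact ⟨notMem_empty e, fun h => hne (mem_singleton.1 h)⟩
        · rw [h6]
          exact fun h => notMem_empty e0 h.1
      · have h7 : (tE a Q (frac x) W).card = 1 := by omega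
        have h6 : tE b Q (frac x) W = ∅ := card_eq_zero.1 (by omega)
        obtain ⟨e0, h8⟩ := card_eq_one.1 h7
        have h9 : e0 ∈ tE a Q (frac x) W := by rw [h8]; exact mem_singleton_self e0
        refine ⟨e0, (mem_filter.1 h9).1, ?_, ?_, Or.inl h9⟩
        · intro e _ hne
          rw [h6, h8]
          exact ⟨fun h => hne (mem_singleton.1 h), notMem_empty e⟩
        · rw [h6]
          exact fun h => notMem_empty e0 h.2
    obtain ⟨hoth, hnot, hor⟩ := huq
    -- the edge `e0` lies in exactly one of the two cuts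
    have hone : (e0 ∈ cut a b W ∧ e0 ∉ cut a b K) ∨ (e0 ∉ cut a b W ∧ e0 ∈ cut a b K) := by
      have h3 : a e0 ∈ K → a e0 ∈ W := fun h => hKW.1 h
      have h4 : b e0 ∈ K → b e0 ∈ W := fun h => hKW.1 h
      rw [hm, hm] at hnot hor
      rw [mem_cut, mem_cut]
      by_cases c1 : a e0 ∈ W <;> by_cases c2 : b e0 ∈ W <;> by_cases c3 : a e0 ∈ K <;>
        by_cases c4 : b e0 ∈ K <;> simp_all
    obtain ⟨n1, hn1⟩ := H.int W hW
    obtain ⟨n2, hn2⟩ := H.int K hKQ
    -- the difference of the two values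
    have hd : ∃ n : ℤ, x e0 = n := by
      have h5 : ∀ e, ∃ m : ℤ, e ≠ e0 → (if e ∈ cut a b W then x e else 0) -
          (if e ∈ cut a b K then x e else 0) = (m : ℚ) := by
        intro e
        by_cases hne : e = e0
        · exact ⟨0, fun h => absurd hne h⟩
        by_cases he : e ∈ frac x
        · refine ⟨0, fun _ => ?_⟩
          have h6 := hdiff e he (hoth e he hne).1 (hoth e he hne).2
          by_cases h7 : e ∈ cut a b K
          · rw [if_pos h7, if_pos (h6.2 h7), sub_self, Int.cast_zero]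
          · rw [if_neg h7, if_neg (fun h8 => h7 (h6.1 h8)), sub_self, Int.cast_zero]
        · have h6 : x e = 0 ∨ x e = 1 := by
            by_contra h7
            push Not at h7
            exact he (mem_frac.2 h7)
          have h7 : ∃ k : ℤ, x e = k := by
            rcases h6 with h6 | h6
            · exact ⟨0, by rw [h6, Int.cast_zero]⟩
            · exact ⟨1, by rw [h6, Int.cast_one]⟩
          obtain ⟨k, hk⟩ := h7
          refine ⟨(if e ∈ cut a b W then k else 0) - (if e ∈ cut a b K then k else 0),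
            fun _ => ?_⟩
          rw [hk]
          push_cast
          rfl
      choose m hm' using h5
      have h6 : ∑ e, ((if e ∈ cut a b W then x e else 0) -
          (if e ∈ cut a b K then x e else 0)) = (n1 : ℚ) - n2 := by
        rw [sum_sub_distrib, ← hsum, ← hsum, hn1, hn2]
      rw [← add_sum_erase univ _ (mem_univ e0)] at h6
      have h7 : ∑ e ∈ univ.erase e0, ((if e ∈ cut a b W then x e else 0) -
          (if e ∈ cut a b K then x e else 0)) = ((∑ e ∈ univ.erase e0, m e : ℤ) : ℚ) := by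
        rw [Int.cast_sum]
        exact sum_congr rfl fun e he => hm' e (ne_of_mem_erase he)
      rw [h7] at h6
      rcases hone with ⟨h8, h9⟩ | ⟨h8, h9⟩
      · rw [if_pos h8, if_neg h9] at h6
        refine ⟨n1 - n2 - ∑ e ∈ univ.erase e0, m e, ?_⟩
        rw [Int.cast_sub, Int.cast_sub]
        linarith
      · rw [if_neg h8, if_pos h9] at h6
        refine ⟨∑ e ∈ univ.erase e0, m e - (n1 - n2), ?_⟩
        rw [Int.cast_sub, Int.cast_sub]
        linarith
    obtain ⟨n, hn⟩ := hd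
    have h5 := mem_frac.1 he0
    have h6 := H.h01 e0
    rw [hn] at h5 h6
    have h7 : (0 : ℤ) ≤ n := by exact_mod_cast h6.1
    have h8 : n ≤ (1 : ℤ) := by exact_mod_cast h6.2
    have h9 : n ≠ 0 := fun h => h5.1 (by rw [h, Int.cast_zero])
    have h10 : n ≠ 1 := fun h => h5.2 (by rw [h, Int.cast_one])
    omega

theorem inv2 (H : Set3 a b x Q D1 D2) (h8 : ∀ W ∈ Q, 8 ≤ (cut a b W ∩ frac x).card) :
    ∀ (n : ℕ) (W : Finset V), W.card ≤ n → W ∈ Q →
      2 * rho a b D1 W + 2 * rho a b D2 W + 2 * kap Q W + 6 ≤ TT a b (frac x) W := by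
  have hn1 : ∀ B ∈ D1, B.Nonempty := fun B hB => card_pos.1 (by have := H.b1 B hB; omega)
  have hn2 : ∀ B ∈ D2, B.Nonempty := fun B hB => card_pos.1 (by have := H.b2 B hB; omega)
  intro n
  induction n with
  | zero =>
    intro W hn hW
    have := card_pos.2 (H.ne W hW)
    omega
  | succ n ih =>
    intro W hn hW
    have e1 := TT_split2 a b H.lam (frac x) W
    have e2 := rho_split2 a b H.lam hn1 W
    have e2' := rho_split2 a b H.lam hn2 W
    have e3 := kap_split H.lam H.ne W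
    rw [if_pos hW] at e3
    have hk : ∀ K ∈ kids Q W,
        2 * rho a b D1 K + 2 * rho a b D2 K + 2 * kap Q K + 6 ≤ TT a b (frac x) K := by
      intro K hK
      obtain ⟨h1, h2, -⟩ := mem_kids.1 hK
      have h3 := card_lt_card h2
      exact ih K (by omega) h1
    have h1 := sum_le_sum hk
    rw [sum_add_distrib, sum_add_distrib, sum_add_distrib, ← mul_sum, ← mul_sum, ← mul_sum,
      sum_const, smul_eq_mul] at h1
    rcases Nat.lt_or_ge (kids Q W).card 1 with h2 | h2
    · have h3 : kids Q W = ∅ := card_eq_zero.1 (by omega)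
      have h4 := side_in a b H.s1 H.b1 W
      have h4' := side_in a b H.s2 H.b2 W
      have h6 := TT_leaf a b (frac x) W
      have h5 := h8 W hW
      rw [h3, sum_empty] at e1 e2 e2' e3
      omega
    · obtain ⟨g, h3, h3b⟩ := side_kids a b H.s1 H.b1 H.lam (W := W) (card_pos.1 (by omega))
      obtain ⟨g', h3', h3b'⟩ := side_kids a b H.s2 H.b2 H.lam (W := W)
        (card_pos.1 (by omega))
      rcases Nat.lt_or_ge (kids Q W).card 2 with h4 | h4
      · have h5 : (kids Q W).card = 1 := by omega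
        obtain ⟨K, hK⟩ := card_eq_one.1 h5
        have h6 := node_one2 a b H hW hK
        omega
      · omega

theorem count_Q2 (H : Set3 a b x Q D1 D2) (hup : ∀ W ∈ Q, W ≠ univ)
    (hdim : (frac x).card ≤ D1.card + D2.card + Q.card)
    (hfr : (frac x).Nonempty) : ∃ W ∈ Q, (cut a b W ∩ frac x).card ≤ 7 := by
  by_contra hcon
  push Not at hcon
  have h8 : ∀ W ∈ Q, 8 ≤ (cut a b W ∩ frac x).card := fun W hW => hcon W hW
  have hn1 : ∀ B ∈ D1, B.Nonempty := fun B hB => card_pos.1 (by have := H.b1 B hB; omega)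
  have hn2 : ∀ B ∈ D2, B.Nonempty := fun B hB => card_pos.1 (by have := H.b2 B hB; omega)
  have hpos := card_pos.2 hfr
  have e0 : TT a b (frac x) univ = 2 * (frac x).card := by
    unfold TT
    rw [filter_true_of_mem fun e _ => mem_univ _, filter_true_of_mem fun e _ => mem_univ _]
    omega
  have e00 : ∀ D : Finset (Finset E), rho a b D univ = D.card := by
    intro D
    unfold rho
    rw [filter_true_of_mem]
    intro B _ e _
    exact (mem_ins a b).2 ⟨mem_univ _, mem_univ _⟩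
  have e01 := e00 D1
  have e02 := e00 D2
  have e000 : kap Q (univ : Finset V) = Q.card := by
    unfold kap
    rw [filter_true_of_mem fun K _ => subset_univ K]
  have hu : (univ : Finset V) ∉ Q := fun h => hup univ h rfl
  have e1 := TT_split2 a b H.lam (frac x) univ
  have e2 := rho_split2 a b H.lam hn1 univ
  have e2' := rho_split2 a b H.lam hn2 univ
  have e3 := kap_split H.lam H.ne univ
  rw [if_neg hu] at e3
  have hk : ∀ K ∈ kids Q univ,
      2 * rho a b D1 K + 2 * rho a b D2 K + 2 * kap Q K + 6 ≤ TT a b (frac x) K :=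
    fun K hK => inv2 a b H h8 K.card K le_rfl (mem_kids.1 hK).1
  have h1 := sum_le_sum hk
  rw [sum_add_distrib, sum_add_distrib, sum_add_distrib, ← mul_sum, ← mul_sum, ← mul_sum,
    sum_const, smul_eq_mul] at h1
  rcases Nat.lt_or_ge (kids Q univ).card 1 with h2 | h2
  · have h3 : kids Q univ = ∅ := card_eq_zero.1 (by omega)
    have h4 := side_in a b H.s1 H.b1 univ
    have h4' := side_in a b H.s2 H.b2 univ
    have h6 := TT_leaf a b (frac x) univ
    rw [h3, sum_empty] at e1 e2 e2' e3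
    omega
  · obtain ⟨g, h3, h3b⟩ := side_kids a b H.s1 H.b1 H.lam (W := univ) (card_pos.1 (by omega))
    obtain ⟨g', h3', h3b'⟩ := side_kids a b H.s2 H.b2 H.lam (W := univ)
      (card_pos.1 (by omega))
    omega

/-- **the counting theorem with two matroids** -/
theorem count2 (x : E → ℚ) (K : Finset (Finset V))
    (hlam : ∀ X ∈ K, ∀ Y ∈ K, X ⊆ Y ∨ Y ⊆ X ∨ Disjoint X Y) (hne : ∀ W ∈ K, W.Nonempty)
    (hup : ∀ W ∈ K, W ≠ univ) (D1 D2 : Finset (Finset E))
    (h1 : Side a b (frac x) K D1) (h2 : Side a b (frac x) K D2)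
    (h01 : ∀ e, 0 ≤ x e ∧ x e ≤ 1)
    (hint : ∀ W ∈ K, ∃ n : ℤ, ∑ e ∈ cut a b W, x e = n)
    (hker : ∀ y : E → ℚ, (∀ e, e ∉ frac x → y e = 0) →
      (∀ B ∈ D1, ∑ e ∈ B, y e = 0) → (∀ B ∈ D2, ∑ e ∈ B, y e = 0) →
      (∀ W ∈ K, ∑ e ∈ cut a b W, y e = 0) → y = 0)
    (hfr : (frac x).Nonempty) :
    (∃ B ∈ D1, B.card ≤ 7) ∨ (∃ B ∈ D2, B.card ≤ 7) ∨
      ∃ W ∈ K, (cut a b W ∩ frac x).card ≤ 7 := by
  classical
  by_cases hb1 : ∃ B ∈ D1, B.card ≤ 7
  · exact Or.inl hb1
  by_cases hb2 : ∃ B ∈ D2, B.card ≤ 7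
  · exact Or.inr (Or.inl hb2)
  push Not at hb1 hb2
  refine Or.inr (Or.inr ?_)
  obtain ⟨Q, hQ, hmin⟩ := exists_min_image (K.powerset.filter fun Q =>
    ∀ y : E → ℚ, (∀ e, e ∉ frac x → y e = 0) → (∀ B ∈ D1, ∑ e ∈ B, y e = 0) →
      (∀ B ∈ D2, ∑ e ∈ B, y e = 0) →
      (∀ W ∈ Q, ∑ e ∈ cut a b W, y e = 0) → y = 0) card
    ⟨K, mem_filter.2 ⟨mem_powerset_self K, hker⟩⟩
  rw [mem_filter, mem_powerset] at hQ
  have hdim : (frac x).card ≤ D1.card + D2.card + Q.card := by
    have h3 := card_le_rows (frac x)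
      ((D1.disjSum D2).disjSum Q)
      (fun i : (Finset E ⊕ Finset E) ⊕ Finset V =>
        Sum.elim (Sum.elim (fun B => B) (fun B => B)) (cut a b) i)
      (fun y hy hrow => hQ.2 y hy
        (fun B hB => hrow (Sum.inl (Sum.inl B)) (inl_mem_disjSum.2 (inl_mem_disjSum.2 hB)))
        (fun B hB => hrow (Sum.inl (Sum.inr B)) (inl_mem_disjSum.2 (inr_mem_disjSum.2 hB)))
        (fun W hW => hrow (Sum.inr W) (inr_mem_disjSum.2 hW)))
    rw [card_disjSum, card_disjSum] at h3
    exact h3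
  have hwit : ∀ W ∈ Q, ∃ y : E → ℚ, (∀ e, e ∉ frac x → y e = 0) ∧
      (∀ W' ∈ Q, W' ≠ W → ∑ e ∈ cut a b W', y e = 0) ∧ ∑ e ∈ cut a b W, y e ≠ 0 := by
    intro W hW
    have h3 : ¬ ∀ y : E → ℚ, (∀ e, e ∉ frac x → y e = 0) →
        (∀ B ∈ D1, ∑ e ∈ B, y e = 0) → (∀ B ∈ D2, ∑ e ∈ B, y e = 0) →
        (∀ W' ∈ Q.erase W, ∑ e ∈ cut a b W', y e = 0) → y = 0 := by
      intro hcon
      have h4 := hmin (Q.erase W) (mem_filter.2
        ⟨mem_powerset.2 ((erase_subset W Q).trans hQ.1), hcon⟩)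
      have h5 := card_erase_lt_of_mem hW
      omega
    push Not at h3
    obtain ⟨y, h4, h5, h5', h6, h7⟩ := h3
    refine ⟨y, h4, fun W' hW' hne' => h6 W' (mem_erase.2 ⟨hne', hW'⟩), fun h8 => h7 ?_⟩
    apply hQ.2 y h4 h5 h5'
    intro W' hW'
    by_cases hne' : W' = W
    · rw [hne']
      exact h8
    · exact h6 W' (mem_erase.2 ⟨hne', hW'⟩)
  have H : Set3 a b x Q D1 D2 := ⟨h01, fun X hX Y hY => hlam X (hQ.1 hX) Y (hQ.1 hY),
    fun W hW => hne W (hQ.1 hW), h1.anti a b hQ.1, h2.anti a b hQ.1,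
    fun B hB => by have := hb1 B hB; omega, fun B hB => by have := hb2 B hB; omega,
    fun W hW => hint W (hQ.1 hW), hwit⟩
  obtain ⟨W, hW, h7⟩ := count_Q2 a b H (fun W hW => hup W (hQ.1 hW)) hdim hfr
  exact ⟨W, hQ.1 hW, h7⟩

end Pool.Agent.Lib.MP_21a058_co.Duo
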