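import Pool.Agent.Lib.MP_21a058_co.Duo.Count2

/-!
MP_21a058_co, two-sided rounding with two matroids and extra rows: edge sets which are located (inside or
outside every kept set), every edge in at most `mo` of them. If all blocks of both sides have at least
eight fractional edges and all extra rows at least `h` of them, some kept cut has at most `c`.
-/

set_option autoImplicit false
set_option linter.unusedSectionVars false

namespace Pool.Agent.Lib.MP_21a058_co.Duo

open Finset MP21a058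
open Pool.Agent.Lib.MP_21a058_co.P

variable {V E : Type} [Fintype V] [DecidableEq V] [Fintype E] [DecidableEq E] (a b : E → V)

/-- the edges of `F` between two different members of `C` -/
def btw (F : Finset E) (C : Finset (Finset V)) : Finset E :=
  F.filter fun e => (∃ W ∈ C, a e ∈ W) ∧ (∃ W ∈ C, b e ∈ W) ∧ ∀ W ∈ C, e ∉ ins a b W

/-- extra rows: located, every edge in at most `mo` of them, few edges between disjoint members -/
structure RowSet (F : Finset E) (K : Finset (Finset V)) (R : Finset (Finset E)) (mo N : ℕ) :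
    Prop where
  con : ∀ W ∈ K, ∀ B ∈ R, B ∩ F ⊆ ins a b W ∨ Disjoint (B ∩ F) (ins a b W)
  mult : ∀ e ∈ F, (R.filter fun B => e ∈ B).card ≤ mo
  few : ∀ C ⊆ K, C.Nonempty → (∀ W ∈ C, ∀ W' ∈ C, W ≠ W' → Disjoint W W') →
    (btw a b F C).card + N ≤ N * C.card

variable {F : Finset E} {K Q : Finset (Finset V)} {R D : Finset (Finset E)} {mo N : ℕ}

theorem RowSet.anti (h : RowSet a b F K R mo N) (hQ : Q ⊆ K) : RowSet a b F Q R mo N :=
  ⟨fun W hW => h.con W (hQ hW), h.mult, fun C hC => h.few C (hC.trans hQ)⟩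

/-- the rows cut down to `F` -/
theorem RowSet.img (h : RowSet a b F K R mo N) :
    RowSet a b F K (R.image fun B => B ∩ F) mo N := by
  refine ⟨?_, ?_, h.few⟩
  · intro W hW B hB
    obtain ⟨B', hB', rfl⟩ := mem_image.1 hB
    have h1 : B' ∩ F ∩ F = B' ∩ F := by rw [inter_assoc, inter_self]
    rw [h1]
    exact h.con W hW B' hB'
  · intro e he
    have h1 : ((R.image fun B => B ∩ F).filter fun B => e ∈ B) ⊆
        (R.filter fun B => e ∈ B).image fun B => B ∩ F := by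
      intro B hB
      obtain ⟨h2, h3⟩ := mem_filter.1 hB
      obtain ⟨B', hB', rfl⟩ := mem_image.1 h2
      exact mem_image.2 ⟨B', mem_filter.2 ⟨hB', (mem_inter.1 h3).1⟩, rfl⟩
    exact (card_le_card h1).trans (card_image_le.trans (h.mult e he))

/-- the rows located at a node -/
theorem row_node (h : RowSet a b F Q R mo N) (hsub : ∀ B ∈ R, B ⊆ F) {hh C9 : ℕ} (hpos : 0 < hh)
    (hbig : ∀ B ∈ R, hh ≤ B.card) (hmo : 24 * mo ≤ hh) (hN : mo * N ≤ C9 * hh)
    (hlam : ∀ X ∈ Q, ∀ Y ∈ Q, X ⊆ Y ∨ Y ⊆ X ∨ Disjoint X Y) (W : Finset V) :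
    24 * (bL a b R Q W).card ≤
      ((tE a Q F W).card + (tE b Q F W).card) + 24 * (C9 * ((kids Q W).card - 1)) := by
  classical
  obtain ⟨L, hL⟩ : ∃ L, L = bL a b R Q W := ⟨_, rfl⟩
  obtain ⟨S, hS⟩ : ∃ S, S = (tE a Q F W ∪ tE b Q F W) ∪ btw a b F (kids Q W) := ⟨_, rfl⟩
  -- every edge of a located row lies in `S`
  have hin : ∀ B ∈ L, B ⊆ S := by
    intro B hB e he
    rw [hL] at hB
    obtain ⟨h1, h2, h3⟩ := mem_filter.1 hB
    have heF := hsub B h1 he
    obtain ⟨h4, h5⟩ := (mem_ins a b).1 (h2 he)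
    have hBF : B ∩ F = B := inter_eq_left.2 (hsub B h1)
    have h6 : ∀ K ∈ kids Q W, e ∉ ins a b K := by
      intro K hK h7
      have h8 := h.con K (mem_kids.1 hK).1 B h1
      rw [hBF] at h8
      rcases h8 with h8 | h8
      · exact h3 K hK h8
      · exact disjoint_left.1 h8 he h7
    rw [hS]
    by_cases ha : ∃ K ∈ kids Q W, a e ∈ K
    · by_cases hb : ∃ K ∈ kids Q W, b e ∈ K
      · exact mem_union_right _ (mem_filter.2 ⟨heF, ha, hb, h6⟩)
      · push Not at hb
        exact mem_union_left _ (mem_union_right _ (mem_filter.2 ⟨heF, h5, hb⟩))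
    · push Not at ha
      exact mem_union_left _ (mem_union_left _ (mem_filter.2 ⟨heF, h4, ha⟩))
  have hSF : S ⊆ F := by
    rw [hS]
    refine union_subset (union_subset ?_ ?_) ?_
    · exact filter_subset _ _
    · exact filter_subset _ _
    · exact filter_subset _ _
  -- double counting
  have h1 : ∑ B ∈ L, B.card ≤ mo * S.card := by
    have h2 : ∑ B ∈ L, B.card = ∑ e ∈ S, (L.filter fun B => e ∈ B).card := by
      have h3 : ∀ B ∈ L, B.card = ∑ e ∈ S, if e ∈ B then 1 else 0 := by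
        intro B hB
        rw [← card_filter]
        congr 1
        ext e
        rw [mem_filter]
        exact ⟨fun h4 => ⟨hin B hB h4, h4⟩, fun h4 => h4.2⟩
      rw [sum_congr rfl h3, sum_comm]
      refine sum_congr rfl fun e _ => ?_
      rw [card_filter]
    rw [h2, mul_comm]
    refine sum_le_card_nsmul _ _ _ (fun e he => ?_) |>.trans (le_of_eq (by rw [smul_eq_mul]))
    refine (card_le_card ?_).trans (h.mult e (hSF he))
    intro B hB
    obtain ⟨h3, h4⟩ := mem_filter.1 hB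
    rw [hL] at h3
    exact mem_filter.2 ⟨(mem_filter.1 h3).1, h4⟩
  have h2 : hh * L.card ≤ ∑ B ∈ L, B.card := by
    have h3 : ∑ _B ∈ L, hh ≤ ∑ B ∈ L, B.card := sum_le_sum fun B hB => by
      rw [hL] at hB
      exact hbig B (mem_filter.1 hB).1
    rw [sum_const, smul_eq_mul, mul_comm] at h3
    exact h3
  have h3 : (btw a b F (kids Q W)).card ≤ N * ((kids Q W).card - 1) := by
    rcases (kids Q W).eq_empty_or_nonempty with h4 | h4
    · have h5 : btw a b F (kids Q W) = ∅ := by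
        rw [h4]
        refine filter_eq_empty_iff.2 fun e _ h6 => ?_
        obtain ⟨⟨W', h7, -⟩, -⟩ := h6
        exact notMem_empty _ h7
      rw [h5, card_empty]
      exact Nat.zero_le _
    · have h5 := h.few (kids Q W) (fun K hK => (mem_kids.1 hK).1) h4 (kids_disj hlam)
      obtain ⟨k, hk⟩ : ∃ k, (kids Q W).card = k + 1 := ⟨(kids Q W).card - 1, by
        have := card_pos.2 h4
        omega⟩
      rw [hk] at h5 ⊢
      rw [Nat.add_sub_cancel]
      rw [mul_add, mul_one] at h5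
      omega
  have h4 : S.card ≤ ((tE a Q F W).card + (tE b Q F W).card) +
      N * ((kids Q W).card - 1) := by
    rw [hS]
    have h5 := card_union_le (tE a Q F W ∪ tE b Q F W) (btw a b F (kids Q W))
    have h6 := card_union_le (tE a Q F W) (tE b Q F W)
    omega
  rw [← hL]
  obtain ⟨T, hT⟩ : ∃ T, T = (tE a Q F W).card + (tE b Q F W).card := ⟨_, rfl⟩
  obtain ⟨k, hk⟩ : ∃ k, k = (kids Q W).card - 1 := ⟨_, rfl⟩
  rw [← hT, ← hk] at h4 ⊢
  have h5 : hh * L.card ≤ mo * T + mo * N * k := by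
    calc hh * L.card ≤ mo * S.card := h2.trans h1
      _ ≤ mo * (T + N * k) := Nat.mul_le_mul_left _ h4
      _ = mo * T + mo * N * k := by ring
  have h6 : hh * (24 * L.card) ≤ hh * (T + 24 * (C9 * k)) := by
    have h7 : 24 * (mo * T) ≤ hh * T := by
      calc 24 * (mo * T) = 24 * mo * T := by ring
        _ ≤ hh * T := Nat.mul_le_mul_right _ hmo
    have h8 : mo * N * k ≤ C9 * hh * k := Nat.mul_le_mul_right _ hN
    calc hh * (24 * L.card) = 24 * (hh * L.card) := by ring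
      _ ≤ 24 * (mo * T + mo * N * k) := Nat.mul_le_mul_left _ h5
      _ = 24 * (mo * T) + 24 * (mo * N * k) := by ring
      _ ≤ hh * T + 24 * (C9 * hh * k) := Nat.add_le_add h7 (Nat.mul_le_mul_left _ h8)
      _ = hh * (T + 24 * (C9 * k)) := by ring
  exact Nat.le_of_mul_le_mul_left h6 hpos

variable {x : E → ℚ} {D1 D2 : Finset (Finset E)}

/-- the invariant of a node -/
theorem inv4 (H : Set3 a b x Q D1 D2) (hR : RowSet a b (frac x) Q R mo N)
    (hsub : ∀ B ∈ R, B ⊆ frac x) {hh C9 c : ℕ} (hpos : 0 < hh)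
    (hbig : ∀ B ∈ R, hh ≤ B.card) (hmo : 24 * mo ≤ hh) (hN : mo * N ≤ C9 * hh)
    (hc : 9 + 3 * C9 ≤ c + 1) (h8 : ∀ W ∈ Q, c + 1 ≤ (cut a b W ∩ frac x).card) :
    ∀ (n : ℕ) (W : Finset V), W.card ≤ n → W ∈ Q →
      2 * rho a b D1 W + 2 * rho a b D2 W + 2 * rho a b R W + 2 * kap Q W + (6 + 2 * C9) ≤
        TT a b (frac x) W := by
  have hn1 : ∀ B ∈ D1, B.Nonempty := fun B hB => card_pos.1 (by have := H.b1 B hB; omega)
  have hn2 : ∀ B ∈ D2, B.Nonempty := fun B hB => card_pos.1 (by have := H.b2 B hB; omega)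
  have hn3 : ∀ B ∈ R, B.Nonempty := fun B hB => card_pos.1 (by have := hbig B hB; omega)
  intro n
  induction n with
  | zero =>
    intro W hn hW
    have := card_pos.2 (H.ne W hW)
    omega
  | succ n ih =>
    intro W hn hW
    have e1 := TT_split2 a b H.lam (frac x) W
    have e2 := rho_split2 a b H.lam hn1 W
    have e2' := rho_split2 a b H.lam hn2 W
    have e2'' := rho_split2 a b H.lam hn3 W
    have e3 := kap_split H.lam H.ne W
    rw [if_pos hW] at e3
    have hrow := row_node a b hR hsub hpos hbig hmo hN H.lam W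
    have hk : ∀ K ∈ kids Q W, 2 * rho a b D1 K + 2 * rho a b D2 K + 2 * rho a b R K +
        2 * kap Q K + (6 + 2 * C9) ≤ TT a b (frac x) K := by
      intro K hK
      obtain ⟨h1, h2, -⟩ := mem_kids.1 hK
      have h3 := card_lt_card h2
      exact ih K (by omega) h1
    have h1 := sum_le_sum hk
    rw [sum_add_distrib, sum_add_distrib, sum_add_distrib, sum_add_distrib, ← mul_sum, ← mul_sum,
      ← mul_sum, ← mul_sum, sum_const, smul_eq_mul] at h1
    rcases Nat.lt_or_ge (kids Q W).card 1 with h2 | h2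
    · have h3 : kids Q W = ∅ := card_eq_zero.1 (by omega)
      have h4 := side_in a b H.s1 H.b1 W
      have h4' := side_in a b H.s2 H.b2 W
      have h6 := TT_leaf a b (frac x) W
      have h5 := h8 W hW
      rw [h3, sum_empty] at e1 e2 e2' e2'' e3
      rw [h3, card_empty, Nat.zero_sub, mul_zero, mul_zero] at hrow
      omega
    · obtain ⟨g, h3, h3b⟩ := side_kids a b H.s1 H.b1 H.lam (W := W) (card_pos.1 (by omega))
      obtain ⟨g', h3', h3b'⟩ := side_kids a b H.s2 H.b2 H.lam (W := W)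
        (card_pos.1 (by omega))
      rcases Nat.lt_or_ge (kids Q W).card 2 with h4 | h4
      · have h5 : (kids Q W).card = 1 := by omega
        obtain ⟨K, hK⟩ := card_eq_one.1 h5
        have h6 := node_one2 a b H hW hK
        rw [h5, Nat.sub_self, mul_zero, mul_zero] at hrow
        rw [h5, one_mul] at h1
        omega
      · obtain ⟨k, hk'⟩ : ∃ k, (kids Q W).card = k + 1 := ⟨(kids Q W).card - 1, by omega⟩
        rw [hk'] at h1 hrow h3 h3' h4
        rw [Nat.add_sub_cancel] at hrow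
        have h5 : (k + 1) * (6 + 2 * C9) = 6 * k + 6 + 2 * (C9 * k) + 2 * C9 := by ring
        rw [h5] at h1
        omega

theorem count_Q4 (H : Set3 a b x Q D1 D2) (hR : RowSet a b (frac x) Q R mo N)
    (hsub : ∀ B ∈ R, B ⊆ frac x) {hh C9 c : ℕ} (hpos : 0 < hh)
    (hbig : ∀ B ∈ R, hh ≤ B.card) (hmo : 24 * mo ≤ hh) (hN : mo * N ≤ C9 * hh)
    (hc : 9 + 3 * C9 ≤ c + 1) (hup : ∀ W ∈ Q, W ≠ univ)
    (hdim : (frac x).card ≤ D1.card + D2.card + R.card + Q.card)
    (hfr : (frac x).Nonempty) : ∃ W ∈ Q, (cut a b W ∩ frac x).card ≤ c := by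
  by_contra hcon
  push Not at hcon
  have h8 : ∀ W ∈ Q, c + 1 ≤ (cut a b W ∩ frac x).card := fun W hW => hcon W hW
  have hn1 : ∀ B ∈ D1, B.Nonempty := fun B hB => card_pos.1 (by have := H.b1 B hB; omega)
  have hn2 : ∀ B ∈ D2, B.Nonempty := fun B hB => card_pos.1 (by have := H.b2 B hB; omega)
  have hn3 : ∀ B ∈ R, B.Nonempty := fun B hB => card_pos.1 (by have := hbig B hB; omega)
  have hps := card_pos.2 hfr
  have e0 : TT a b (frac x) univ = 2 * (frac x).card := by
    unfold TT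
    rw [filter_true_of_mem fun e _ => mem_univ _, filter_true_of_mem fun e _ => mem_univ _]
    omega
  have e00 : ∀ D : Finset (Finset E), rho a b D univ = D.card := by
    intro D
    unfold rho
    rw [filter_true_of_mem]
    intro B _ e _
    exact (mem_ins a b).2 ⟨mem_univ _, mem_univ _⟩
  have e01 := e00 D1
  have e02 := e00 D2
  have e03 := e00 R
  have e000 : kap Q (univ : Finset V) = Q.card := by
    unfold kap
    rw [filter_true_of_mem fun K _ => subset_univ K]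
  have hu : (univ : Finset V) ∉ Q := fun h => hup univ h rfl
  have e1 := TT_split2 a b H.lam (frac x) univ
  have e2 := rho_split2 a b H.lam hn1 univ
  have e2' := rho_split2 a b H.lam hn2 univ
  have e2'' := rho_split2 a b H.lam hn3 univ
  have e3 := kap_split H.lam H.ne univ
  rw [if_neg hu] at e3
  have hrow := row_node a b hR hsub hpos hbig hmo hN H.lam univ
  have hk : ∀ K ∈ kids Q univ, 2 * rho a b D1 K + 2 * rho a b D2 K + 2 * rho a b R K +
      2 * kap Q K + (6 + 2 * C9) ≤ TT a b (frac x) K :=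
    fun K hK => inv4 a b H hR hsub hpos hbig hmo hN hc h8 K.card K le_rfl (mem_kids.1 hK).1
  have h1 := sum_le_sum hk
  rw [sum_add_distrib, sum_add_distrib, sum_add_distrib, sum_add_distrib, ← mul_sum, ← mul_sum,
    ← mul_sum, ← mul_sum, sum_const, smul_eq_mul] at h1
  rcases Nat.lt_or_ge (kids Q univ).card 1 with h2 | h2
  · have h3 : kids Q univ = ∅ := card_eq_zero.1 (by omega)
    have h4 := side_in a b H.s1 H.b1 univ
    have h4' := side_in a b H.s2 H.b2 univ
    have h6 := TT_leaf a b (frac x) univ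
    rw [h3, sum_empty] at e1 e2 e2' e2'' e3
    rw [h3, card_empty, Nat.zero_sub, mul_zero, mul_zero] at hrow
    omega
  · obtain ⟨g, h3, h3b⟩ := side_kids a b H.s1 H.b1 H.lam (W := univ) (card_pos.1 (by omega))
    obtain ⟨g', h3', h3b'⟩ := side_kids a b H.s2 H.b2 H.lam (W := univ)
      (card_pos.1 (by omega))
    obtain ⟨k, hk'⟩ : ∃ k, (kids Q univ).card = k + 1 := ⟨(kids Q univ).card - 1, by omega⟩
    rw [hk'] at h1 hrow h3 h3'
    rw [Nat.add_sub_cancel] at hrow
    have h5 : (k + 1) * (6 + 2 * C9) = 6 * k + 6 + 2 * (C9 * k) + 2 * C9 := by ring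
    rw [h5] at h1
    omega

/-- **the counting theorem with two matroids and extra rows** -/
theorem count4 (x : E → ℚ) (K : Finset (Finset V))
    (hlam : ∀ X ∈ K, ∀ Y ∈ K, X ⊆ Y ∨ Y ⊆ X ∨ Disjoint X Y) (hne : ∀ W ∈ K, W.Nonempty)
    (hup : ∀ W ∈ K, W ≠ univ) (D1 D2 : Finset (Finset E))
    (h1 : Side a b (frac x) K D1) (h2 : Side a b (frac x) K D2)
    (R : Finset (Finset E)) (mo N : ℕ) (hR : RowSet a b (frac x) K R mo N)
    (hh C9 c : ℕ) (hpos : 0 < hh) (hmo : 24 * mo ≤ hh) (hN : mo * N ≤ C9 * hh)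
    (hc : 9 + 3 * C9 ≤ c + 1)
    (h01 : ∀ e, 0 ≤ x e ∧ x e ≤ 1)
    (hint : ∀ W ∈ K, ∃ n : ℤ, ∑ e ∈ cut a b W, x e = n)
    (hker : ∀ y : E → ℚ, (∀ e, e ∉ frac x → y e = 0) →
      (∀ B ∈ D1, ∑ e ∈ B, y e = 0) → (∀ B ∈ D2, ∑ e ∈ B, y e = 0) →
      (∀ B ∈ R, ∑ e ∈ B, y e = 0) →
      (∀ W ∈ K, ∑ e ∈ cut a b W, y e = 0) → y = 0)
    (hfr : (frac x).Nonempty) :
    (∃ B ∈ D1, B.card ≤ 7) ∨ (∃ B ∈ D2, B.card ≤ 7) ∨
      (∃ B ∈ R, (B ∩ frac x).card < hh) ∨
      ∃ W ∈ K, (cut a b W ∩ frac x).card ≤ c := by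
  classical
  by_cases hb1 : ∃ B ∈ D1, B.card ≤ 7
  · exact Or.inl hb1
  by_cases hb2 : ∃ B ∈ D2, B.card ≤ 7
  · exact Or.inr (Or.inl hb2)
  by_cases hb3 : ∃ B ∈ R, (B ∩ frac x).card < hh
  · exact Or.inr (Or.inr (Or.inl hb3))
  push Not at hb1 hb2 hb3
  refine Or.inr (Or.inr (Or.inr ?_))
  obtain ⟨R', hR'⟩ : ∃ R', R' = R.image fun B => B ∩ frac x := ⟨_, rfl⟩
  have hRs : RowSet a b (frac x) K R' mo N := by
    rw [hR']
    exact hR.img a b
  have hsub : ∀ B ∈ R', B ⊆ frac x := by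
    intro B hB
    rw [hR'] at hB
    obtain ⟨B', -, rfl⟩ := mem_image.1 hB
    exact inter_subset_right
  have hbig : ∀ B ∈ R', hh ≤ B.card := by
    intro B hB
    rw [hR'] at hB
    obtain ⟨B', hB', rfl⟩ := mem_image.1 hB
    exact hb3 B' hB'
  have hrowy : ∀ y : E → ℚ, (∀ e, e ∉ frac x → y e = 0) →
      (∀ B ∈ R', ∑ e ∈ B, y e = 0) → ∀ B ∈ R, ∑ e ∈ B, y e = 0 := by
    intro y hy1 hy2 B hB
    have h3 := hy2 (B ∩ frac x) (by rw [hR']; exact mem_image_of_mem _ hB)
    rw [← h3]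
    refine (sum_subset inter_subset_left fun e he hne => ?_).symm
    refine hy1 e fun h4 => hne (mem_inter.2 ⟨he, h4⟩)
  obtain ⟨Q, hQ, hmin⟩ := exists_min_image (K.powerset.filter fun Q =>
    ∀ y : E → ℚ, (∀ e, e ∉ frac x → y e = 0) → (∀ B ∈ D1, ∑ e ∈ B, y e = 0) →
      (∀ B ∈ D2, ∑ e ∈ B, y e = 0) → (∀ B ∈ R', ∑ e ∈ B, y e = 0) →
      (∀ W ∈ Q, ∑ e ∈ cut a b W, y e = 0) → y = 0) card
    ⟨K, mem_filter.2 ⟨mem_powerset_self K,
      fun y hy hy1 hy2 hy3 hy4 => hker y hy hy1 hy2 (hrowy y hy hy3) hy4⟩⟩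
  rw [mem_filter, mem_powerset] at hQ
  have hdim : (frac x).card ≤ D1.card + D2.card + R'.card + Q.card := by
    have h3 := card_le_rows (frac x)
      (((D1.disjSum D2).disjSum R').disjSum Q)
      (fun i : ((Finset E ⊕ Finset E) ⊕ Finset E) ⊕ Finset V =>
        Sum.elim (Sum.elim (Sum.elim (fun B => B) (fun B => B)) (fun B => B)) (cut a b) i)
      (fun y hy hrow => hQ.2 y hy
        (fun B hB => hrow (Sum.inl (Sum.inl (Sum.inl B)))
          (inl_mem_disjSum.2 (inl_mem_disjSum.2 (inl_mem_disjSum.2 hB))))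
        (fun B hB => hrow (Sum.inl (Sum.inl (Sum.inr B)))
          (inl_mem_disjSum.2 (inl_mem_disjSum.2 (inr_mem_disjSum.2 hB))))
        (fun B hB => hrow (Sum.inl (Sum.inr B)) (inl_mem_disjSum.2 (inr_mem_disjSum.2 hB)))
        (fun W hW => hrow (Sum.inr W) (inr_mem_disjSum.2 hW)))
    rw [card_disjSum, card_disjSum, card_disjSum] at h3
    exact h3
  have hwit : ∀ W ∈ Q, ∃ y : E → ℚ, (∀ e, e ∉ frac x → y e = 0) ∧
      (∀ W' ∈ Q, W' ≠ W → ∑ e ∈ cut a b W', y e = 0) ∧ ∑ e ∈ cut a b W, y e ≠ 0 := by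
    intro W hW
    have h3 : ¬ ∀ y : E → ℚ, (∀ e, e ∉ frac x → y e = 0) →
        (∀ B ∈ D1, ∑ e ∈ B, y e = 0) → (∀ B ∈ D2, ∑ e ∈ B, y e = 0) →
        (∀ B ∈ R', ∑ e ∈ B, y e = 0) →
        (∀ W' ∈ Q.erase W, ∑ e ∈ cut a b W', y e = 0) → y = 0 := by
      intro hcon
      have h4 := hmin (Q.erase W) (mem_filter.2
        ⟨mem_powerset.2 ((erase_subset W Q).trans hQ.1), hcon⟩)
      have h5 := card_erase_lt_of_mem hW
      omega
    push Not at h3
    obtain ⟨y, h4, h5, h5', h5'', h6, h7⟩ := h3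
    refine ⟨y, h4, fun W' hW' hne' => h6 W' (mem_erase.2 ⟨hne', hW'⟩), fun h8 => h7 ?_⟩
    apply hQ.2 y h4 h5 h5' h5''
    intro W' hW'
    by_cases hne' : W' = W
    · rw [hne']
      exact h8
    · exact h6 W' (mem_erase.2 ⟨hne', hW'⟩)
  have H : Set3 a b x Q D1 D2 := ⟨h01, fun X hX Y hY => hlam X (hQ.1 hX) Y (hQ.1 hY),
    fun W hW => hne W (hQ.1 hW), h1.anti a b hQ.1, h2.anti a b hQ.1,
    fun B hB => by have := hb1 B hB; omega, fun B hB => by have := hb2 B hB; omega,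
    fun W hW => hint W (hQ.1 hW), hwit⟩
  obtain ⟨W, hW, h7⟩ := count_Q4 a b H (hRs.anti a b hQ.1) hsub hpos hbig hmo hN hc
    (fun W hW => hup W (hQ.1 hW)) hdim hfr
  exact ⟨W, hQ.1 hW, h7⟩

end Pool.Agent.Lib.MP_21a058_co.Duo
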