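import Pool.Agent.Lib.MP_21a058_co.Duo.Blk
import Pool.Agent.Lib.MP_21a058_co.P.Rank

/-!
MP_21a058_co, two-sided rounding: edges of different blocks which join disjoint tight vertex sets form a forest on these
sets.
-/

set_option autoImplicit false

namespace Pool.Agent.Lib.MP_21a058_co.Duo

open Finset MP21a058
open Pool.Agent.Lib.MP_21a058_co.P

variable {V E : Type} [Fintype V] [DecidableEq V] [Fintype E] [DecidableEq E] (a b : E → V)

theorem rk_ends_le {S : Finset E} {U : Finset V} (hU : U.Nonempty)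
    (hS : ∀ e ∈ S, a e ∈ U ∧ b e ∈ U) : rk a b S + 1 ≤ U.card := by
  obtain ⟨x0, hx0⟩ := hU
  have h1 := rk_add_image_le a b (F := S) (fun x => if x ∈ U then x0 else x) fun e he => by
    rw [if_pos (hS e he).1, if_pos (hS e he).2]
  have h2 : insert x0 (univ \ U) ⊆ univ.image fun x => if x ∈ U then x0 else x := by
    intro x hx
    rw [mem_image]
    rcases mem_insert.1 hx with rfl | hx
    · exact ⟨x, mem_univ _, if_pos hx0⟩
    · exact ⟨x, mem_univ _, if_neg (mem_sdiff.1 hx).2⟩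
  have h3 := card_le_card h2
  rw [card_insert_of_notMem, card_sdiff_of_subset (subset_univ _), card_univ] at h3
  · have h4 := card_le_univ U
    omega
  · rw [mem_sdiff]
    exact fun h4 => h4.2 hx0

variable {s : ℕ} {x : E → ℚ}

theorem Feas.s_pos {r : Finset E → ℕ} (h : Feas r s x) {e : E} (he : e ∈ frac x) : 0 < s := by
  by_contra hcon
  have h0 : s = 0 := by omega
  have h1 := h.pos he
  have h2 := h.le {e}
  rw [sum_singleton, h0, Nat.cast_zero, zero_mul] at h2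
  linarith

/-- **few bad blocks** -/
theorem bad_le (h : Feas (rk a b) s x) {C : Finset (Finset V)} (hC : C.Nonempty)
    (hdis : ∀ K ∈ C, ∀ K' ∈ C, K ≠ K' → Disjoint K K') (hne : ∀ K ∈ C, K.Nonempty)
    (hins : ∀ K ∈ C, Tight (rk a b) s x (ins a b K) ∧ rk a b (ins a b K) + 1 = K.card)
    {J : Finset E} (hJX : J ⊆ frac x)
    (hJ : ∀ e ∈ J, (∃ K ∈ C, a e ∈ K) ∧ (∃ K ∈ C, b e ∈ K) ∧ ∀ K ∈ C, e ∉ ins a b K)
    (hinj : ∀ e ∈ J, ∀ f ∈ J, mm (rk a b) s x e = mm (rk a b) s x f → e = f) :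
    J.card + 1 ≤ C.card := by
  classical
  rcases J.eq_empty_or_nonempty with rfl | ⟨e0, he0⟩
  · have := card_pos.2 hC
    rw [card_empty]
    omega
  have hs := h.s_pos (hJX he0)
  have hZ : Tight (rk a b) s x (C.biUnion (ins a b)) :=
    h.tight_biUnion _ _ fun K hK => (hins K hK).1
  have h1 := h.reps hZ J.card J rfl hJX (fun e he hcon => by
    obtain ⟨K, hK, h2⟩ := mem_biUnion.1 hcon
    exact (hJ e he).2.2 K hK h2) hinj
  have hUne : (C.biUnion id).Nonempty := by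
    obtain ⟨K, hK⟩ := hC
    obtain ⟨v, hv⟩ := hne K hK
    exact ⟨v, mem_biUnion.2 ⟨K, hK, hv⟩⟩
  have h2 : rk a b (C.biUnion (ins a b) ∪ J) + 1 ≤ (C.biUnion id).card := by
    refine rk_ends_le a b hUne fun e he => ?_
    rcases mem_union.1 he with he | he
    · obtain ⟨K, hK, h3⟩ := mem_biUnion.1 he
      obtain ⟨h4, h5⟩ := (mem_ins a b).1 h3
      exact ⟨mem_biUnion.2 ⟨K, hK, h4⟩, mem_biUnion.2 ⟨K, hK, h5⟩⟩
    · obtain ⟨⟨K, hK, h4⟩, ⟨K', hK', h5⟩, -⟩ := hJ e he
      exact ⟨mem_biUnion.2 ⟨K, hK, h4⟩, mem_biUnion.2 ⟨K', hK', h5⟩⟩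
  have h3 : (C.biUnion id).card = ∑ K ∈ C, K.card := by
    rw [card_biUnion]
    · rfl
    · intro K hK K' hK' hne'
      exact hdis K hK K' hK' hne'
  have h4 : rk a b (C.biUnion (ins a b)) = ∑ K ∈ C, rk a b (ins a b K) := by
    have h5 : ∑ e ∈ C.biUnion (ins a b), x e = ∑ K ∈ C, ∑ e ∈ ins a b K, x e := by
      rw [sum_biUnion]
      intro K hK K' hK' hne'
      change Disjoint (ins a b K) (ins a b K')
      rw [disjoint_left]
      intro e he he'
      exact disjoint_left.1 (hdis K hK K' hK' hne') ((mem_ins a b).1 he).1 ((mem_ins a b).1 he').1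
    have h6 : ∑ K ∈ C, ∑ e ∈ ins a b K, x e = ∑ K ∈ C, (s : ℚ) * rk a b (ins a b K) :=
      sum_congr rfl fun K hK => (hins K hK).1
    rw [← mul_sum] at h6
    unfold Tight at hZ
    rw [h5, h6] at hZ
    have h7 : (s : ℚ) ≠ 0 := by
      exact_mod_cast (by omega : s ≠ 0)
    have h8 := mul_left_cancel₀ h7 hZ
    exact_mod_cast h8.symm
  have h5 : ∑ K ∈ C, rk a b (ins a b K) + C.card = ∑ K ∈ C, K.card := by
    rw [card_eq_sum_ones, ← sum_add_distrib]
    exact sum_congr rfl fun K hK => (hins K hK).2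
  omega

end Pool.Agent.Lib.MP_21a058_co.Duo
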