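import Pool.Agent.Lib.MP_21a058_co.Duo.Sum
import Pool.Agent.Lib.MP_21a058_co.Two.Fin

/-! MP_21a058_co, two-sided rounding, (G): the counting theorem in the form of the loop. -/

set_option linter.unusedSectionVars false
set_option linter.unusedVariables false

namespace Pool.Agent.Lib.MP_21a058_co.Duo

open Finset MP21a058
open Pool.Agent.Lib.MP_21a058_co.P

variable {V E : Type} [Fintype V] [DecidableEq V] [Fintype E] [DecidableEq E]

/-- the rank of the edges inside a nonempty set -/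
theorem rk_ins_le (a b : E → V) {X : Finset V} (hX : X.Nonempty) :
    rk a b (ins a b X) + 1 ≤ X.card := by
  obtain ⟨x0, hx0⟩ := hX
  have h5 : rk a b (ins a b X) +
      (univ.image (fun v => if v ∈ X then x0 else v)).card ≤ Fintype.card V := by
    apply rk_add_image_le
    intro e he
    obtain ⟨h6, h7⟩ := (mem_ins a b).1 he
    simp only [h6, h7, if_true]
  have h6 : (insert x0 Xᶜ).card ≤ (univ.image (fun v => if v ∈ X then x0 else v)).card := by
    apply card_le_card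
    intro v hv
    rw [mem_image]
    rcases mem_insert.1 hv with rfl | hv
    · exact ⟨v, mem_univ _, by simp [hx0]⟩
    · exact ⟨v, mem_univ _, by simp [mem_compl.1 hv]⟩
  rw [card_insert_of_notMem (fun h => (mem_compl.1 h) hx0), card_compl] at h6
  have h7 : X.card ≤ Fintype.card V := card_le_univ X
  omega

theorem count_up (a b : E → V) {s : ℕ} (hV : Nonempty V) (L : Finset (Finset V))
    (hne : ∀ Y ∈ L, Y.Nonempty) (hlam : ∀ X ∈ L, ∀ Y ∈ L, X ⊆ Y ∨ Y ⊆ X ∨ Disjoint X Y)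
    (x : E → ℚ) (h01 : ∀ e, 0 ≤ x e ∧ x e ≤ 1)
    (hrk : ∀ S : Finset E, ∑ e ∈ S, x e ≤ (s : ℚ) * rk a b S)
    (htot : (s : ℚ) * ((Fintype.card V : ℚ) - 1) ≤ ∑ e, x e)
    (hins : ∀ Y ∈ L, (s : ℚ) * ((Y.card : ℚ) - 1) ≤ ∑ e ∈ ins a b Y, x e)
    (K : Finset (Finset V)) (hKL : K ⊆ L) (up : Finset V → ℤ)
    (hup : ∀ Y ∈ K, ∑ e ∈ cut a b Y, x e ≤ (up Y : ℚ))
    (hvert : ∀ y : E → ℚ, (∀ e, x e = 0 ∨ x e = 1 → y e = 0) →
      (∀ S : Finset E, ∑ e ∈ S, x e = (s : ℚ) * rk a b S → ∑ e ∈ S, y e = 0) →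
      (∀ Y ∈ K, ∑ e ∈ cut a b Y, x e = (up Y : ℚ) → ∑ e ∈ cut a b Y, y e = 0) → y = 0)
    (hfrac : ∃ e, x e ≠ 0 ∧ x e ≠ 1) :
    ∃ Y ∈ K, ((cut a b Y).filter fun e => x e ≠ 0 ∧ x e ≠ 1).card ≤ 5 := by
  classical
  obtain ⟨e0, he0⟩ := hfrac
  have hs0 : (0 : ℚ) ≤ (s : ℚ) := Nat.cast_nonneg s
  -- `s` is positive
  have hs : 0 < s := by
    rcases Nat.eq_zero_or_pos s with h0 | h0
    · exfalso
      have h1 := hrk {e0}
      rw [sum_singleton, h0, Nat.cast_zero, zero_mul] at h1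
      exact he0.1 (le_antisymm h1 (h01 e0).1)
    · exact h0
  have hsq : (0 : ℚ) < (s : ℚ) := by exact_mod_cast hs
  have hrq : ∀ {X : Finset V}, X.Nonempty → (rk a b (ins a b X) : ℚ) ≤ (X.card : ℚ) - 1 := by
    intro X hX
    have h1 := rk_ins_le a b hX
    have h2 : ((rk a b (ins a b X) : ℚ)) + 1 ≤ (X.card : ℚ) := by exact_mod_cast h1
    linarith
  have huniv : ins a b (univ : Finset V) = univ := by
    ext e
    simp [mem_ins]
  have htop : ∑ e, x e = (s : ℚ) * rk a b univ := by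
    refine le_antisymm (hrk univ) ?_
    have h1 := hrq (univ_nonempty (α := V))
    rw [huniv, card_univ] at h1
    exact (mul_le_mul_of_nonneg_left h1 hs0).trans htot
  have hF : Feas (rk a b) s x :=
    ⟨rk_rk a b, fun e => (h01 e).1, fun e => (h01 e).2, hrk, htop⟩
  have hmemf : ∀ e, e ∉ frac x ↔ x e = 0 ∨ x e = 1 := by
    intro e
    rw [mem_frac]
    tauto
  obtain ⟨W, hW, hc⟩ := count a b hF
    (K.filter fun Y => Y ≠ univ ∧ ∑ e ∈ cut a b Y, x e = (up Y : ℚ))
    (fun X hX Y hY => hlam X (hKL (mem_filter.1 hX).1) Y (hKL (mem_filter.1 hY).1))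
    (fun Y hY => hne Y (hKL (mem_filter.1 hY).1))
    (fun Y hY => (mem_filter.1 hY).2.1)
    (fun Y hY => by
      have hYL := hKL (mem_filter.1 hY).1
      have h1 := hrq (hne Y hYL)
      have h2 := hins Y hYL
      have h3 := hrk (ins a b Y)
      have h4 := mul_le_mul_of_nonneg_left h1 hs0
      refine ⟨le_antisymm h3 (h4.trans h2), ?_⟩
      have h5 : (s : ℚ) * ((Y.card : ℚ) - 1) ≤ (s : ℚ) * rk a b (ins a b Y) := h2.trans h3
      have h6 : ((Y.card : ℚ) - 1) ≤ rk a b (ins a b Y) := le_of_mul_le_mul_left h5 hsq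
      have h7 : (Y.card : ℚ) ≤ ((rk a b (ins a b Y) + 1 : ℕ) : ℚ) := by
        push_cast
        linarith
      have h8 : Y.card ≤ rk a b (ins a b Y) + 1 := by exact_mod_cast h7
      exact le_antisymm (rk_ins_le a b (hne Y hYL)) h8)
    (fun Y hY => ⟨up Y, (mem_filter.1 hY).2.2⟩)
    (fun y hy1 hy2 hy3 => hvert y (fun e he => hy1 e ((hmemf e).2 he)) hy2 (fun Y hY hYt => by
      by_cases hYu : Y = univ
      · subst hYu
        have h1 : cut a b (univ : Finset V) = ∅ := by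
          ext e
          simp [mem_cut]
        rw [h1, sum_empty]
      · exact hy3 Y (mem_filter.2 ⟨hY, hYu, hYt⟩)))
    ⟨e0, mem_frac.2 he0⟩
  refine ⟨W, (mem_filter.1 hW).1, ?_⟩
  have h1 : (cut a b W).filter (fun e => x e ≠ 0 ∧ x e ≠ 1) = cut a b W ∩ frac x := by
    ext e
    rw [mem_filter, mem_inter, mem_frac]
  rw [h1]
  exact hc

/-- the counting theorem in the form of `Two/Fin.lean` -/
theorem count_all (a b : E → V) (s : ℕ) : Two.Count a b s := by
  intro L hne hlam x h01 hrk htot hins K hKL up hup hvert hfrac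
  have hV : Nonempty V := by
    obtain ⟨e, -⟩ := hfrac
    exact ⟨a e⟩
  exact count_up a b hV L hne hlam x h01 hrk htot hins K hKL up hup hvert hfrac

end Pool.Agent.Lib.MP_21a058_co.Duo
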