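import Pool.Agent.Lib.MP_21a058_co.Duo.Loop3
import Pool.Agent.Lib.MP_21a058_co.Duo.Glue
import Pool.Agent.Lib.MP_21a058_co.Swap.Cnt3

/-!
MP_21a058_co: the rounding theorem with trees on both sides.
-/

set_option autoImplicit false

namespace Pool.Agent.Lib.MP_21a058_co.Duo

open Finset MP21a058
open Pool.Agent.Lib.MP_21a058_co.P Pool.Agent.Lib.MP_21a058_co.Every
open Pool.Agent.Lib.MP_21a058_co.Two

variable {V E : Type} [Fintype V] [DecidableEq V] [Fintype E] [DecidableEq E] (a b : E → V)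

/-- the start of one side -/
theorem SD.start {t c : ℕ} (ht : 0 < t) (hct : c ≤ t) (T : Fin t → Finset E) (hT : Trees a b T)
    (L : Finset (Finset V)) (hne : ∀ Y ∈ L, Y.Nonempty)
    (hL : ∀ Y ∈ L, ∀ i, (T i ∩ ins a b Y).card + 1 = Y.card) {z : E → ℚ}
    (hz : ∀ e ∈ un T, z e = (c : ℚ) / t) : SD a b L c (un T) (rk a b) z := by
  classical
  have i0 : Fin t := ⟨0, ht⟩
  have htq : (0 : ℚ) < t := by exact_mod_cast ht
  have hcard : 0 < Fintype.card V := by
    have := (hT.1 i0).2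
    omega
  have hV : Nonempty V := Fintype.card_pos_iff.1 hcard
  have hsum : ∀ S : Finset E, ∑ e ∈ S, on (un T) z e = ((un T ∩ S).card : ℚ) * ((c : ℚ) / t) := by
    intro S
    rw [sum_on, inter_comm S (un T), sum_congr rfl fun e he => hz e (mem_inter.1 he).1,
      sum_const, nsmul_eq_mul]
  -- a set whose part of every tree is `ρ`
  have htight : ∀ (S : Finset E) (ρ : ℕ), (∀ i, (T i ∩ S).card = ρ) →
      ∑ e ∈ S, on (un T) z e = (c : ℚ) * ρ := by
    intro S ρ h1
    rw [hsum, card_un_inter hT.2, sum_congr rfl fun i _ => h1 i, sum_const, card_univ,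
      Fintype.card_fin, smul_eq_mul]
    push_cast
    field_simp
  have hle : ∀ S : Finset E, ∑ e ∈ S, on (un T) z e ≤ (c : ℚ) * rk a b S := by
    intro S
    rw [hsum, card_un_inter hT.2]
    have h1 : ∑ i, (T i ∩ S).card ≤ t * rk a b S := by
      have h2 : ∑ i, (T i ∩ S).card ≤ ∑ _i : Fin t, rk a b S :=
        sum_le_sum fun i _ => (tree_indep a b (hT.1 i) inter_subset_left).trans
          (rk_mono a b inter_subset_right)
      rwa [sum_const, card_univ, Fintype.card_fin, smul_eq_mul] at h2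
    have h2 : ((∑ i, (T i ∩ S).card : ℕ) : ℚ) ≤ (t : ℚ) * rk a b S := by exact_mod_cast h1
    have h3 := mul_le_mul_of_nonneg_right h2 (div_nonneg (Nat.cast_nonneg c) htq.le)
    refine h3.trans (le_of_eq ?_)
    field_simp
  have hrk_tree : rk a b univ + 1 = Fintype.card V := by
    have h1 := rk_le_pred a b hV univ
    have h2 := tree_indep a b (hT.1 i0) (Subset.refl _)
    have h3 := rk_mono a b (subset_univ (T i0))
    have h4 := (hT.1 i0).2
    omega
  refine ⟨⟨rk_rk a b, fun e => ?_, fun e => ?_, hle, ?_⟩, fun W hW => ?_, fun C hC J => ?_⟩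
  · by_cases he : e ∈ un T
    · rw [on_mem he, hz e he]
      exact div_nonneg (Nat.cast_nonneg c) htq.le
    · rw [on_not he]
  · by_cases he : e ∈ un T
    · rw [on_mem he, hz e he, div_le_one htq]
      exact_mod_cast hct
    · rw [on_not he]
      exact zero_le_one
  · refine htight univ (rk a b univ) fun i => ?_
    rw [inter_univ]
    have := (hT.1 i).2
    omega
  · refine htight (ins a b W) (rk a b (ins a b W)) fun i => ?_
    have h1 := rk_ins_le a b (hne W hW)
    have h2 := tree_indep a b (hT.1 i) (F := T i ∩ ins a b W) inter_subset_left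
    have h3 := rk_mono a b (inter_subset_right : T i ∩ ins a b W ⊆ ins a b W)
    have h4 := hL W hW i
    omega
  · exact le_of_eq (add_comm _ _)

/-- the ranks of disjoint members -/
theorem rk_disj {T0 : Finset E} (hT : Tree a b T0) (L : Finset (Finset V))
    (hL : ∀ Y ∈ L, (T0 ∩ ins a b Y).card + 1 = Y.card) :
    ∀ C ⊆ L, (∀ W ∈ C, ∀ W' ∈ C, W ≠ W' → Disjoint W W') →
      ∑ W ∈ C, W.card ≤ rk a b (C.biUnion (ins a b)) + C.card := by
  classical
  intro C hC hdis
  have h1 : (T0 ∩ C.biUnion (ins a b)).card = ∑ W ∈ C, (T0 ∩ ins a b W).card := by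
    rw [inter_biUnion, card_biUnion]
    intro W hW W' hW' hne
    change Disjoint (T0 ∩ ins a b W) (T0 ∩ ins a b W')
    rw [disjoint_left]
    intro e he he'
    exact disjoint_left.1 (hdis W hW W' hW' hne) ((mem_ins a b).1 (mem_inter.1 he).2).1
      ((mem_ins a b).1 (mem_inter.1 he').2).1
  have h2 := tree_indep a b hT (F := T0 ∩ C.biUnion (ins a b)) inter_subset_left
  have h3 := rk_mono a b (inter_subset_right : T0 ∩ C.biUnion (ins a b) ⊆ C.biUnion (ins a b))
  have h4 : ∑ W ∈ C, W.card = ∑ W ∈ C, (T0 ∩ ins a b W).card + C.card := by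
    rw [card_eq_sum_ones, ← sum_add_distrib]
    exact sum_congr rfl fun W hW => (hL W (hC hW)).symm
  omega

/-- trees from the condition of Edmonds -/
theorem trees_of {k : ℕ} (X : Finset E)
    (h : ∀ A : Finset E, (k : ℚ) * ((rk a b univ : ℚ) - rk a b A) ≤ ((X \ A).card : ℚ))
    (hr : rk a b univ + 1 = Fintype.card V) :
    ∃ C : Fin k → Finset E, Trees a b C ∧ un C ⊆ X := by
  classical
  obtain ⟨C, hC1, hC2, hC3⟩ := MP21a058.pack_rk (t := k) (rk_rk a b) X (rk a b univ)
    (fun J' _ => rk_mono a b (subset_univ J')) (fun J' _ => by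
      have h1 := h J'
      have h2 : (k : ℚ) * rk a b univ ≤ (k : ℚ) * rk a b J' + ((X \ J').card : ℚ) := by linarith
      exact_mod_cast h2)
  refine ⟨C, ⟨fun i => ⟨?_, ?_⟩, hC2⟩, fun e he => ?_⟩
  · apply conn_of_card_le a b
    · intro e _
      rw [mem_ins]
      exact ⟨mem_univ _, mem_univ _⟩
    · rw [card_univ, (hC3 i).2]
      omega
  · rw [(hC3 i).1]
    omega
  · obtain ⟨i, hi⟩ := mem_un.1 he
    exact hC1 i hi

/-- **the rounding theorem with trees on both sides** -/
theorem sel3All : Swap.Sel3All 7 8 := by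
  intro V E _ _ _ _ a b s q t hst T hT L hne hlam hL
  classical
  have ht : 0 < t := by omega
  have i0 : Fin t := ⟨0, ht⟩
  have htq : (0 : ℚ) < t := by exact_mod_cast ht
  have htq0 : (t : ℚ) ≠ 0 := ne_of_gt htq
  have hcard : 0 < Fintype.card V := by
    have := (hT.1 i0).2
    omega
  have hV : Nonempty V := Fintype.card_pos_iff.1 hcard
  have hr : rk a b univ + 1 = Fintype.card V := by
    have h1 := rk_le_pred a b hV univ
    have h2 := tree_indep a b (hT.1 i0) (Subset.refl _)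
    have h3 := rk_mono a b (subset_univ (T i0))
    have h4 := (hT.1 i0).2
    omega
  obtain ⟨x0, hx0⟩ : ∃ x0 : E → ℚ, x0 = fun e => if e ∈ un T then ((s + 7 : ℕ) : ℚ) / t else 0 :=
    ⟨_, rfl⟩
  have hx1 : ∀ e ∈ un T, x0 e = ((s + 7 : ℕ) : ℚ) / t := by
    intro e he
    rw [hx0]
    exact if_pos he
  have hx2 : ∀ e ∉ un T, x0 e = 0 := by
    intro e he
    rw [hx0]
    exact if_neg he
  have hx3 : ∀ e ∈ un T, 1 - x0 e = ((q + 7 : ℕ) : ℚ) / t := by
    intro e he
    have h1 : ((s + 7 : ℕ) : ℚ) + ((q + 7 : ℕ) : ℚ) = t := by exact_mod_cast hst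
    rw [hx1 e he, eq_div_iff htq0, sub_mul, div_mul_cancel₀ _ htq0]
    linarith
  have hsub : L.erase univ ⊆ L := erase_subset _ _
  have hup : ∀ W ∈ L.erase univ, W ≠ univ := fun W hW => (mem_erase.1 hW).1
  have hL' : ∀ Y ∈ L.erase univ, ∀ i, (T i ∩ ins a b Y).card + 1 = Y.card :=
    fun Y hY => hL Y (hsub hY)
  have h1 : SD a b (L.erase univ) (s + 7) (un T) (rk a b) x0 :=
    SD.start a b ht (by omega) T hT _ (fun Y hY => hne Y (hsub hY)) hL' hx1
  have h2 : SD a b (L.erase univ) (q + 7) (un T) (rk a b) fun e => 1 - x0 e :=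
    SD.start a b ht (by omega) T hT _ (fun Y hY => hne Y (hsub hY)) hL' hx3
  have h01 : ∀ e, 0 ≤ x0 e ∧ x0 e ≤ 1 := by
    intro e
    by_cases he : e ∈ un T
    · rw [hx1 e he]
      refine ⟨div_nonneg (Nat.cast_nonneg _) htq.le, ?_⟩
      rw [div_le_one htq]
      exact_mod_cast (by omega : s + 7 ≤ t)
    · rw [hx2 e he]
      exact ⟨le_refl 0, zero_le_one⟩
  have hcut : ∀ S : Finset E, ∑ e ∈ S, x0 e = ((un T ∩ S).card : ℚ) * (((s + 7 : ℕ) : ℚ) / t) := by
    intro S
    rw [hx0]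
    exact sum_start (un T) S _
  obtain ⟨x, p1, p2, p3, p4, p5⟩ := back_loop (a := a) (b := b) (L := L.erase univ)
    (fun X hX Y hY => hlam X (hsub hX) Y (hsub hY)) (fun Y hY => hne Y (hsub hY)) hup
    (rk_disj a b (hT.1 i0) _ fun Y hY => hL' Y hY i0)
    (fun Y => ⌈((un T ∩ cut a b Y).card : ℚ) * (((s + 7 : ℕ) : ℚ) / t)⌉)
    ((L.erase univ).card + (un T).card + (un T).card + 1) (un T) (un T) (rk a b) (rk a b) x0
    (L.erase univ) (Nat.lt_succ_self _) (Subset.refl _) h01 h1 h2 (fun W _ => by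
      rw [hcut]
      exact Int.le_ceil _)
  obtain ⟨X, hX⟩ : ∃ X : Finset E, X = univ.filter fun e => x e = 1 := ⟨_, rfl⟩
  have hmX : ∀ e, e ∈ X ↔ x e = 1 := fun e => by rw [hX]; simp
  have hsX : ∀ S : Finset E, ∑ e ∈ S, x e = ((S ∩ X).card : ℚ) := by
    intro S
    have e1 : ∑ e ∈ S, x e = ∑ e ∈ S, (if e ∈ X then (1 : ℚ) else 0) := by
      refine sum_congr rfl fun e _ => ?_
      by_cases he : e ∈ X
      · rw [if_pos he]
        exact (hmX e).1 he
      · rw [if_neg he]
        exact (p1 e).resolve_right fun h => he ((hmX e).2 h)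
    rw [e1, ← sum_filter, sum_const, nsmul_eq_mul, mul_one, filter_mem_eq_inter]
  have hXT : X ⊆ un T := by
    intro e he
    by_contra hcon
    have e1 := p2 e (Or.inl (hx2 e hcon))
    rw [hx2 e hcon, (hmX e).1 he] at e1
    exact one_ne_zero e1
  obtain ⟨C, hC, hCX⟩ := trees_of a b (k := s) X (fun A => by
    have e1 := p3 A
    rw [hsX] at e1
    have e2 : (un T \ A) ∩ X = X \ A := by
      ext e
      simp only [mem_inter, mem_sdiff]
      constructor
      · rintro ⟨⟨-, e3⟩, e4⟩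
        exact ⟨e4, e3⟩
      · rintro ⟨e3, e4⟩
        exact ⟨⟨hXT e3, e4⟩, e3⟩
    rwa [e2] at e1) hr
  obtain ⟨D, hD, hDX⟩ := trees_of a b (k := q) (un T \ X) (fun A => by
    have e1 := p4 A
    rw [sum_sub_distrib, hsX, sum_const, nsmul_eq_mul, mul_one] at e1
    have e2 : ((un T \ X) \ A).card + ((un T \ A) ∩ X).card = (un T \ A).card := by
      have e3 : (un T \ X) \ A = (un T \ A) \ X := by
        ext e
        simp only [mem_sdiff]
        tauto
      rw [e3]
      exact card_sdiff_add_card_inter _ _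
    have e3 : (((un T \ X) \ A).card : ℚ) + (((un T \ A) ∩ X).card : ℚ) = ((un T \ A).card : ℚ) := by
      exact_mod_cast e2
    linarith) hr
  refine ⟨C, D, hC, hD, hCX.trans hXT, hDX.trans sdiff_subset, ?_, fun Y hY => ?_⟩
  · exact (disjoint_sdiff.mono hCX hDX)
  · by_cases hYu : Y = univ
    · have e1 : cut a b Y = ∅ := by
        rw [hYu]
        ext e
        simp [mem_cut]
      rw [e1, inter_empty, inter_empty, card_empty]
      omega
    · have e1 := p5 Y (mem_erase.2 ⟨hYu, hY⟩)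
      rw [hsX] at e1
      have e2 : (⌈((un T ∩ cut a b Y).card : ℚ) * (((s + 7 : ℕ) : ℚ) / t)⌉ : ℚ) <
          ((un T ∩ cut a b Y).card : ℚ) * (((s + 7 : ℕ) : ℚ) / t) + 1 := Int.ceil_lt_add_one _
      have e3 : (un C ∩ cut a b Y).card ≤ (cut a b Y ∩ X).card := by
        rw [inter_comm (un C)]
        exact card_le_card (inter_subset_inter_left hCX)
      have e4 : ((un C ∩ cut a b Y).card : ℚ) ≤ ((cut a b Y ∩ X).card : ℚ) := by exact_mod_cast e3
      have e6 : ((un C ∩ cut a b Y).card : ℚ) ≤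
          ((un T ∩ cut a b Y).card : ℚ) * (((s + 7 : ℕ) : ℚ) / t) + 8 := by
        linarith
      have e7 := mul_le_mul_of_nonneg_left e6 htq.le
      have e8 : (t : ℚ) * (((un T ∩ cut a b Y).card : ℚ) * (((s + 7 : ℕ) : ℚ) / t) + 8) =
          ((s + 7 : ℕ) : ℚ) * ((un T ∩ cut a b Y).card : ℚ) + 8 * t := by
        field_simp
      rw [e8] at e7
      exact_mod_cast e7

end Pool.Agent.Lib.MP_21a058_co.Duo
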