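import Pool.Agent.Lib.MP_21a058_co.Duo.Loop4
import Pool.Agent.Lib.MP_21a058_co.Duo.Cnt4
import Pool.Agent.Lib.MP_21a058_co.Duo.Fin3

/-!
MP_21a058_co: the rounding theorem with trees on both sides and with block rows.
-/

set_option autoImplicit false

namespace Pool.Agent.Lib.MP_21a058_co.Duo

open Finset MP21a058
open Pool.Agent.Lib.MP_21a058_co.P Pool.Agent.Lib.MP_21a058_co.Every
open Pool.Agent.Lib.MP_21a058_co.Two

variable {V E : Type} [Fintype V] [DecidableEq V] [Fintype E] [DecidableEq E] (a b : E → V)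

/-- a tree which is connected on `k` disjoint sets has at most `k - 1` edges between them -/
theorem tree_btw {T0 : Finset E} (hT : Tree a b T0) (C : Finset (Finset V)) (hCne : C.Nonempty)
    (hne : ∀ Y ∈ C, Y.Nonempty) (hL : ∀ Y ∈ C, (T0 ∩ ins a b Y).card + 1 = Y.card)
    (hdis : ∀ W ∈ C, ∀ W' ∈ C, W ≠ W' → Disjoint W W') (S : Finset E)
    (hS : ∀ e ∈ S, ∃ W ∈ C, ∃ W' ∈ C, W ≠ W' ∧ a e ∈ W ∧ b e ∈ W') :
    (T0 ∩ S).card + 1 ≤ C.card := by
  classical
  have hcard : ∀ F : Finset E, (F ∩ C.biUnion (ins a b)).card = ∑ W ∈ C, (F ∩ ins a b W).card := by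
    intro F
    rw [inter_biUnion, card_biUnion]
    intro W hW W' hW' hne
    change Disjoint (F ∩ ins a b W) (F ∩ ins a b W')
    rw [disjoint_left]
    intro e he he'
    exact disjoint_left.1 (hdis W hW W' hW' hne) ((mem_ins a b).1 (mem_inter.1 he).2).1
      ((mem_ins a b).1 (mem_inter.1 he').2).1
  have h0 : Disjoint (T0 ∩ S) (T0 ∩ C.biUnion (ins a b)) := by
    rw [disjoint_left]
    intro e he he'
    obtain ⟨W, hW, W', hW', h1, h2, h3⟩ := hS e (mem_inter.1 he).2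
    obtain ⟨W0, hW0, h4⟩ := mem_biUnion.1 (mem_inter.1 he').2
    obtain ⟨h5, h6⟩ := (mem_ins a b).1 h4
    have h7 : W = W0 := by
      by_contra h
      exact disjoint_left.1 (hdis W hW W0 hW0 h) h2 h5
    have h8 : W' = W0 := by
      by_contra h
      exact disjoint_left.1 (hdis W' hW' W0 hW0 h) h3 h6
    exact h1 (h7.trans h8.symm)
  have h1 : (T0 ∩ S ∪ T0 ∩ C.biUnion (ins a b)).card =
      (T0 ∩ S).card + (T0 ∩ C.biUnion (ins a b)).card := card_union_of_disjoint h0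
  have h2 := tree_indep a b hT (F := T0 ∩ S ∪ T0 ∩ C.biUnion (ins a b))
    (union_subset inter_subset_left inter_subset_left)
  have hUne : (C.biUnion id).Nonempty := by
    obtain ⟨W, hW⟩ := hCne
    obtain ⟨v, hv⟩ := hne W hW
    exact ⟨v, mem_biUnion.2 ⟨W, hW, hv⟩⟩
  have h3 : rk a b (T0 ∩ S ∪ T0 ∩ C.biUnion (ins a b)) + 1 ≤ (C.biUnion id).card := by
    refine rk_ends_le a b hUne fun e he => ?_
    rcases mem_union.1 he with he | he
    · obtain ⟨W, hW, W', hW', -, h4, h5⟩ := hS e (mem_inter.1 he).2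
      exact ⟨mem_biUnion.2 ⟨W, hW, h4⟩, mem_biUnion.2 ⟨W', hW', h5⟩⟩
    · obtain ⟨W, hW, h3⟩ := mem_biUnion.1 (mem_inter.1 he).2
      obtain ⟨h4, h5⟩ := (mem_ins a b).1 h3
      exact ⟨mem_biUnion.2 ⟨W, hW, h4⟩, mem_biUnion.2 ⟨W, hW, h5⟩⟩
  have h4 : (C.biUnion id).card = ∑ W ∈ C, W.card := by
    rw [card_biUnion]
    · rfl
    · intro W hW W' hW' hne'
      exact hdis W hW W' hW' hne'
  have h5 : ∑ W ∈ C, W.card = ∑ W ∈ C, (T0 ∩ ins a b W).card + C.card := by
    rw [card_eq_sum_ones, ← sum_add_distrib]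
    exact sum_congr rfl fun W hW => (hL W hW).symm
  have h6 := hcard T0
  omega

/-- `t` trees which are connected on `k` disjoint sets have at most `t (k - 1)` edges between
them -/
theorem trees_btw {t : ℕ} (T : Fin t → Finset E) (hT : Trees a b T) (C : Finset (Finset V))
    (hCne : C.Nonempty) (hne : ∀ Y ∈ C, Y.Nonempty)
    (hL : ∀ Y ∈ C, ∀ i, (T i ∩ ins a b Y).card + 1 = Y.card)
    (hdis : ∀ W ∈ C, ∀ W' ∈ C, W ≠ W' → Disjoint W W') (S : Finset E)
    (hS : ∀ e ∈ S, ∃ W ∈ C, ∃ W' ∈ C, W ≠ W' ∧ a e ∈ W ∧ b e ∈ W') :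
    (un T ∩ S).card ≤ t * (C.card - 1) := by
  rw [card_un_inter hT.2]
  have h1 : ∑ i, (T i ∩ S).card ≤ ∑ _i : Fin t, (C.card - 1) := by
    refine sum_le_sum fun i _ => ?_
    have := tree_btw a b (hT.1 i) C hCne hne (fun Y hY => hL Y hY i) hdis S hS
    omega
  rwa [sum_const, card_univ, Fintype.card_fin, smul_eq_mul] at h1

/-- **the rounding theorem with trees on both sides and block rows** -/
theorem sel4 {s q t c h mo C9 : ℕ} (hst : s + c + (q + c) = t) (hh : 48 * mo ≤ h)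
    (h9 : 2 * mo * t ≤ C9 * h) (hc : 16 + 4 * C9 ≤ c + 1)
    (T : Fin t → Finset E) (hT : Trees a b T)
    (L : Finset (Finset V)) (hne : ∀ Y ∈ L, Y.Nonempty)
    (hlam : ∀ X ∈ L, ∀ Y ∈ L, X ⊆ Y ∨ Y ⊆ X ∨ Disjoint X Y)
    (hL : ∀ Y ∈ L, ∀ i, (T i ∩ ins a b Y).card + 1 = Y.card)
    (R : Finset (Finset E)) (hR : ∀ β ∈ R, β ⊆ un T)
    (hcon : ∀ W ∈ L, ∀ β ∈ R, β ⊆ ins a b W ∨ Disjoint β (ins a b W))
    (hmo : ∀ e, (R.filter fun β => e ∈ β).card ≤ mo) :
    ∃ (X : Finset E) (C : Fin s → Finset E) (D : Fin q → Finset E),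
      X ⊆ un T ∧ Trees a b C ∧ Trees a b D ∧ un C ⊆ X ∧ un D ⊆ un T \ X ∧
      (∀ Y ∈ L, t * (X ∩ cut a b Y).card ≤ (s + c) * (un T ∩ cut a b Y).card + (c + 1) * t) ∧
      ∀ β ∈ R, (s + c) * β.card ≤ t * (X ∩ β).card + h * t := by
  classical
  have ht : 0 < t := by omega
  have i0 : Fin t := ⟨0, ht⟩
  have htq : (0 : ℚ) < t := by exact_mod_cast ht
  have htq0 : (t : ℚ) ≠ 0 := ne_of_gt htq
  have hcard : 0 < Fintype.card V := by
    have := (hT.1 i0).2
    omega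
  have hV : Nonempty V := Fintype.card_pos_iff.1 hcard
  have hr : rk a b univ + 1 = Fintype.card V := by
    have h1 := rk_le_pred a b hV univ
    have h2 := tree_indep a b (hT.1 i0) (Subset.refl _)
    have h3 := rk_mono a b (subset_univ (T i0))
    have h4 := (hT.1 i0).2
    omega
  obtain ⟨x0, hx0⟩ : ∃ x0 : E → ℚ, x0 = fun e => if e ∈ un T then ((s + c : ℕ) : ℚ) / t else 0 :=
    ⟨_, rfl⟩
  have hx1 : ∀ e ∈ un T, x0 e = ((s + c : ℕ) : ℚ) / t := by
    intro e he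
    rw [hx0]
    exact if_pos he
  have hx2 : ∀ e ∉ un T, x0 e = 0 := by
    intro e he
    rw [hx0]
    exact if_neg he
  have hx3 : ∀ e ∈ un T, 1 - x0 e = ((q + c : ℕ) : ℚ) / t := by
    intro e he
    have h1 : ((s + c : ℕ) : ℚ) + ((q + c : ℕ) : ℚ) = t := by exact_mod_cast hst
    rw [hx1 e he, eq_div_iff htq0, sub_mul, div_mul_cancel₀ _ htq0]
    linarith
  have hsub : L.erase univ ⊆ L := erase_subset _ _
  have hup : ∀ W ∈ L.erase univ, W ≠ univ := fun W hW => (mem_erase.1 hW).1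
  have hL' : ∀ Y ∈ L.erase univ, ∀ i, (T i ∩ ins a b Y).card + 1 = Y.card :=
    fun Y hY => hL Y (hsub hY)
  have h1 : SD a b (L.erase univ) (s + c) (un T) (rk a b) x0 :=
    SD.start a b ht (by omega) T hT _ (fun Y hY => hne Y (hsub hY)) hL' hx1
  have h2 : SD a b (L.erase univ) (q + c) (un T) (rk a b) fun e => 1 - x0 e :=
    SD.start a b ht (by omega) T hT _ (fun Y hY => hne Y (hsub hY)) hL' hx3
  have h01 : ∀ e, 0 ≤ x0 e ∧ x0 e ≤ 1 := by
    intro e
    by_cases he : e ∈ un T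
    · rw [hx1 e he]
      refine ⟨div_nonneg (Nat.cast_nonneg _) htq.le, ?_⟩
      rw [div_le_one htq]
      exact_mod_cast (by omega : s + c ≤ t)
    · rw [hx2 e he]
      exact ⟨le_refl 0, zero_le_one⟩
  have hcut : ∀ S : Finset E, ∑ e ∈ S, x0 e = ((un T ∩ S).card : ℚ) * (((s + c : ℕ) : ℚ) / t) := by
    intro S
    rw [hx0]
    exact sum_start (un T) S _
  have hfr : frac x0 ⊆ un T := by
    intro e he
    by_contra h3
    exact (mem_frac.1 he).1 (hx2 e h3)
  obtain ⟨h', hp', hh', h9', hor⟩ : ∃ h' : ℕ, 1 ≤ h' ∧ 48 * mo ≤ h' ∧ 2 * mo * t ≤ C9 * h' ∧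
      (h' = h ∨ mo = 0) := by
    rcases Nat.eq_zero_or_pos h with h3 | h3
    · have h4 : mo = 0 := by omega
      refine ⟨1, le_refl 1, by omega, ?_, Or.inr h4⟩
      rw [h4, mul_zero, zero_mul]
      exact Nat.zero_le _
    · exact ⟨h, h3, hh, h9, Or.inl rfl⟩
  obtain ⟨x, p1, p2, p3, p4, p5, p6⟩ := back_loop4 (a := a) (b := b) (L := L.erase univ)
    (cnt4_raw (mo := mo) (N := t) (C9 := C9) (c := c) (H := h') hp' hh' h9' hc) hp'
    (fun X hX Y hY => hlam X (hsub hX) Y (hsub hY)) (fun Y hY => hne Y (hsub hY)) hup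
    (rk_disj a b (hT.1 i0) _ fun Y hY => hL' Y hY i0) R (un T)
    (fun W hW β hβ => hcon W (hsub hW) β hβ) hmo
    (fun C hC hCne hdis => by
      have h3 := trees_btw a b T hT C hCne (fun Y hY => hne Y (hsub (hC hY)))
        (fun Y hY => hL' Y (hC hY)) hdis ((un T).filter fun e => (∃ W ∈ C, a e ∈ W) ∧
          (∃ W ∈ C, b e ∈ W) ∧ ∀ W ∈ C, e ∉ ins a b W) (fun e he => by
        obtain ⟨-, ⟨W, hW, h4⟩, ⟨W', hW', h5⟩, h6⟩ := mem_filter.1 he
        refine ⟨W, hW, W', hW', fun h7 => ?_, h4, h5⟩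
        exact h6 W hW ((mem_ins a b).2 ⟨h4, by rw [h7]; exact h5⟩))
      rwa [inter_eq_right.2 (filter_subset _ _)] at h3) (k := s) (q := q)
    (fun Y => ⌈((un T ∩ cut a b Y).card : ℚ) * (((s + c : ℕ) : ℚ) / t)⌉)
    (fun β => ⌊((un T ∩ β).card : ℚ) * (((s + c : ℕ) : ℚ) / t)⌋)
    ((L.erase univ).card + R.card + (un T).card + (un T).card + 1) (un T) (un T) (rk a b)
    (rk a b) x0 (L.erase univ) R (Nat.lt_succ_self _) (Subset.refl _) (Subset.refl _) hfr h01 h1 h2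
    (fun W _ => by
      rw [hcut]
      exact Int.le_ceil _)
    (fun β _ => by
      rw [hcut]
      exact Int.floor_le _)
  obtain ⟨X, hX⟩ : ∃ X : Finset E, X = univ.filter fun e => x e = 1 := ⟨_, rfl⟩
  have hmX : ∀ e, e ∈ X ↔ x e = 1 := fun e => by rw [hX]; simp
  have hsX : ∀ S : Finset E, ∑ e ∈ S, x e = ((S ∩ X).card : ℚ) := by
    intro S
    have e1 : ∑ e ∈ S, x e = ∑ e ∈ S, (if e ∈ X then (1 : ℚ) else 0) := by
      refine sum_congr rfl fun e _ => ?_
      by_cases he : e ∈ X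
      · rw [if_pos he]
        exact (hmX e).1 he
      · rw [if_neg he]
        exact (p1 e).resolve_right fun h => he ((hmX e).2 h)
    rw [e1, ← sum_filter, sum_const, nsmul_eq_mul, mul_one, filter_mem_eq_inter]
  have hXT : X ⊆ un T := by
    intro e he
    by_contra hcon
    have e1 := p2 e (Or.inl (hx2 e hcon))
    rw [hx2 e hcon, (hmX e).1 he] at e1
    exact one_ne_zero e1
  obtain ⟨C, hC, hCX⟩ := trees_of a b (k := s) X (fun A => by
    have e1 := p3 A
    rw [hsX] at e1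
    have e2 : (un T \ A) ∩ X = X \ A := by
      ext e
      simp only [mem_inter, mem_sdiff]
      constructor
      · rintro ⟨⟨-, e3⟩, e4⟩
        exact ⟨e4, e3⟩
      · rintro ⟨e3, e4⟩
        exact ⟨⟨hXT e3, e4⟩, e3⟩
    rwa [e2] at e1) hr
  obtain ⟨D, hD, hDX⟩ := trees_of a b (k := q) (un T \ X) (fun A => by
    have e1 := p4 A
    rw [sum_sub_distrib, hsX, sum_const, nsmul_eq_mul, mul_one] at e1
    have e2 : ((un T \ X) \ A).card + ((un T \ A) ∩ X).card = (un T \ A).card := by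
      have e3 : (un T \ X) \ A = (un T \ A) \ X := by
        ext e
        simp only [mem_sdiff]
        tauto
      rw [e3]
      exact card_sdiff_add_card_inter _ _
    have e3 : (((un T \ X) \ A).card : ℚ) + (((un T \ A) ∩ X).card : ℚ) = ((un T \ A).card : ℚ) := by
      exact_mod_cast e2
    linarith) hr
  refine ⟨X, C, D, hXT, hC, hD, hCX, hDX, fun Y hY => ?_, fun β hβ => ?_⟩
  · by_cases hYu : Y = univ
    · have e1 : cut a b Y = ∅ := by
        rw [hYu]
        ext e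
        simp [mem_cut]
      rw [e1, inter_empty, inter_empty, card_empty]
      omega
    · have e1 := p5 Y (mem_erase.2 ⟨hYu, hY⟩)
      rw [hsX] at e1
      have e2 : (⌈((un T ∩ cut a b Y).card : ℚ) * (((s + c : ℕ) : ℚ) / t)⌉ : ℚ) <
          ((un T ∩ cut a b Y).card : ℚ) * (((s + c : ℕ) : ℚ) / t) + 1 := Int.ceil_lt_add_one _
      have e4 : ((X ∩ cut a b Y).card : ℚ) = ((cut a b Y ∩ X).card : ℚ) := by rw [inter_comm]
      have e6 : ((X ∩ cut a b Y).card : ℚ) ≤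
          ((un T ∩ cut a b Y).card : ℚ) * (((s + c : ℕ) : ℚ) / t) + (c + 1) := by
        linarith
      have e7 := mul_le_mul_of_nonneg_left e6 htq.le
      have e8 : (t : ℚ) * (((un T ∩ cut a b Y).card : ℚ) * (((s + c : ℕ) : ℚ) / t) + (c + 1)) =
          ((s + c : ℕ) : ℚ) * ((un T ∩ cut a b Y).card : ℚ) + (c + 1) * t := by
        field_simp
      rw [e8] at e7
      exact_mod_cast e7
  · rcases hor with hor | hor
    · subst hor
      have e1 := p6 β hβ
      rw [hsX, inter_eq_right.2 (hR β hβ)] at e1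
      have e2 : ((β.card : ℚ) * (((s + c : ℕ) : ℚ) / t)) <
          (⌊((β.card : ℚ) * (((s + c : ℕ) : ℚ) / t))⌋ : ℚ) + 1 := Int.lt_floor_add_one _
      have e4 : ((X ∩ β).card : ℚ) = ((β ∩ X).card : ℚ) := by rw [inter_comm]
      have e6 : (β.card : ℚ) * (((s + c : ℕ) : ℚ) / t) ≤ ((X ∩ β).card : ℚ) + h' := by
        linarith
      have e7 := mul_le_mul_of_nonneg_left e6 htq.le
      have e8 : (t : ℚ) * ((β.card : ℚ) * (((s + c : ℕ) : ℚ) / t)) =
          ((s + c : ℕ) : ℚ) * (β.card : ℚ) := by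
        field_simp
      rw [e8, mul_add, mul_comm (t : ℚ) (h' : ℚ)] at e7
      exact_mod_cast e7
    · have e1 : β = ∅ := by
        rw [eq_empty_iff_forall_notMem]
        intro e he
        have e2 := hmo e
        rw [hor, Nat.le_zero, card_eq_zero] at e2
        have e3 : β ∈ R.filter fun β => e ∈ β := mem_filter.2 ⟨hβ, he⟩
        rw [e2] at e3
        exact notMem_empty β e3
      rw [e1, card_empty, mul_zero]
      exact Nat.zero_le _

end Pool.Agent.Lib.MP_21a058_co.Duo
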