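import Pool.Agent.Lib.MP_21a058_co.Duo.Blk

/-!
MP_21a058_co, two-sided rounding with trees on both sides: one side of the state (an active set and a rank
function on it), and the step which frees a small block: the rank function is replaced by its restriction
to the part below the block plus its contraction by the part up to the block, at a cost of at most `c`
spanning sets, once for all blocks.
-/

set_option autoImplicit false
set_option linter.unusedSectionVars false

namespace Pool.Agent.Lib.MP_21a058_co.Duo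

open Finset MP21a058

variable {E : Type} [Fintype E] [DecidableEq E]

/-- the restriction of a point to a set -/
def rs (B : Finset E) (z : E → ℚ) : E → ℚ := fun e => if e ∈ B then z e else 0

theorem sum_rs (B S : Finset E) (z : E → ℚ) : ∑ e ∈ S, rs B z e = ∑ e ∈ S ∩ B, z e := by
  unfold rs
  rw [sum_ite_mem]

theorem rs_mem {B : Finset E} {z : E → ℚ} {e : E} (he : e ∈ B) : rs B z e = z e := if_pos he

theorem rs_notMem {B : Finset E} {z : E → ℚ} {e : E} (he : e ∉ B) : rs B z e = 0 := if_neg he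

theorem mem_frac_rs {B : Finset E} {z : E → ℚ} {e : E} :
    e ∈ frac (rs B z) ↔ e ∈ B ∧ z e ≠ 0 ∧ z e ≠ 1 := by
  rw [mem_frac]
  by_cases he : e ∈ B
  · rw [rs_mem he]
    exact ⟨fun h => ⟨he, h⟩, fun h => h.2⟩
  · rw [rs_notMem he]
    exact ⟨fun h => absurd rfl h.1, fun h => absurd h.1 he⟩

/-- one side of the state -/
structure St (R : Finset E → ℕ) (H : Finset E) (k c : ℕ) (B : Finset E) (r : Finset E → ℕ)
    (z : E → ℚ) : Prop where
  feas : Feas r (k + c) (rs B z)
  sub : B ⊆ H
  loc : ∀ S : Finset E, r (S ∩ B) = r S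
  le : ∀ S : Finset E, r S ≤ R S
  inv : ∀ S : Finset E, k * R H + k * r S ≤
    (((H \ B) \ S).filter fun e => z e = 1).card + k * r univ + k * R S

section
variable {R : Finset E → ℕ} {H : Finset E} {k c : ℕ} {B : Finset E} {r : Finset E → ℕ}
  {z : E → ℚ}

theorem St.start (hR : Rk R) (h : Feas (fun S => R (S ∩ H)) (k + c) (rs H z)) :
    St R H k c H (fun S => R (S ∩ H)) z where
  feas := h
  sub := Subset.refl H
  loc S := by
    change R ((S ∩ H) ∩ H) = R (S ∩ H)
    rw [inter_assoc, inter_self]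
  le S := hR.mono _ _ inter_subset_left
  inv S := by
    change k * R H + k * R (S ∩ H) ≤ _ + k * R (univ ∩ H) + k * R S
    rw [univ_inter]
    have h1 := Nat.mul_le_mul_left k (hR.mono (S ∩ H) S inter_subset_left)
    omega

theorem St.move (h : St R H k c B r z) {z' : E → ℚ} (h1 : ∀ e, z e = 1 → z' e = 1)
    (h2 : Feas r (k + c) (rs B z')) : St R H k c B r z' where
  feas := h2
  sub := h.sub
  loc := h.loc
  le := h.le
  inv S := by
    have h3 := h.inv S
    have h4 : (((H \ B) \ S).filter fun e => z e = 1).card ≤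
        (((H \ B) \ S).filter fun e => z' e = 1).card :=
      card_le_card fun e he => mem_filter.2 ⟨(mem_filter.1 he).1, h1 e (mem_filter.1 he).2⟩
    omega

theorem St.fin (h : St R H k c B r z) (hz : ∀ e ∈ B, z e = 0 ∨ z e = 1) (S : Finset E) :
    k * R H ≤ ((H \ S).filter fun e => z e = 1).card + k * R S := by
  have h1 := h.inv S
  have h2 : ((B \ S).filter fun e => z e = 1).card + (((H \ B) \ S).filter fun e => z e = 1).card ≤
      ((H \ S).filter fun e => z e = 1).card := by
    rw [← card_union_of_disjoint]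
    · refine card_le_card fun e he => ?_
      rcases mem_union.1 he with h3 | h3
      · obtain ⟨h4, h5⟩ := mem_filter.1 h3
        exact mem_filter.2 ⟨mem_sdiff.2 ⟨h.sub (mem_sdiff.1 h4).1, (mem_sdiff.1 h4).2⟩, h5⟩
      · obtain ⟨h4, h5⟩ := mem_filter.1 h3
        exact mem_filter.2 ⟨mem_sdiff.2 ⟨(mem_sdiff.1 (mem_sdiff.1 h4).1).1,
          (mem_sdiff.1 h4).2⟩, h5⟩
    · rw [disjoint_left]
      intro e he he'
      exact (mem_sdiff.1 (mem_sdiff.1 (mem_filter.1 he').1).1).2
        (mem_sdiff.1 (mem_filter.1 he).1).1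
  -- the value of the rest of the active set
  have h3 : ∑ e ∈ B \ S, z e = (((B \ S).filter fun e => z e = 1).card : ℚ) := by
    rw [card_filter, Nat.cast_sum]
    refine sum_congr rfl fun e he => ?_
    rcases hz e (mem_sdiff.1 he).1 with h4 | h4
    · rw [h4, if_neg (by norm_num), Nat.cast_zero]
    · rw [h4, if_pos rfl, Nat.cast_one]
  have h4 : ∑ e ∈ B \ S, z e + ∑ e ∈ S ∩ B, z e = ∑ e ∈ B, z e := by
    have h5 := sum_sdiff (s₁ := S ∩ B) (s₂ := B) (f := z) inter_subset_right
    have h6 : B \ (S ∩ B) = B \ S := by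
      ext e
      simp only [mem_sdiff, mem_inter]
      tauto
    rwa [h6] at h5
  have h5 : ∑ e ∈ S ∩ B, z e ≤ ((k + c : ℕ) : ℚ) * r S := by
    rw [← sum_rs]
    exact h.feas.le S
  have h6 : ∑ e ∈ B, z e = ((k + c : ℕ) : ℚ) * r univ := by
    have h7 := h.feas.top
    have h8 := sum_rs B univ z
    rw [univ_inter] at h8
    rw [← h8]
    exact h7
  have h7 : ((k + c : ℕ) : ℚ) * r univ ≤
      (((B \ S).filter fun e => z e = 1).card : ℚ) + ((k + c : ℕ) : ℚ) * r S := by
    linarith
  have h8 : (k + c) * r univ ≤ ((B \ S).filter fun e => z e = 1).card + (k + c) * r S := by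
    exact_mod_cast h7
  have h9 : k * r univ ≤ ((B \ S).filter fun e => z e = 1).card + k * r S := by
    have h10 : r S ≤ r univ := h.feas.rk.mono S univ (subset_univ S)
    have h11 : c * r S ≤ c * r univ := Nat.mul_le_mul_left c h10
    rw [add_mul, add_mul] at h8
    omega
  omega

end

/-- a set containing `e` loses the elements of a difference -/
private theorem sum_split (x : E → ℚ) {m P : Finset E} (hP : P ⊆ m) (S : Finset E) :
    ∑ e ∈ S \ (m \ P), x e + ∑ e ∈ m, x e = ∑ e ∈ S ∩ P, x e + ∑ e ∈ S ∪ m, x e := by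
  have h1 : S \ (m \ P) = (S ∩ P) ∪ (S \ m) := by
    ext e
    simp only [mem_sdiff, mem_union, mem_inter]
    have := @hP e
    tauto
  have h2 : Disjoint (S ∩ P) (S \ m) := by
    rw [disjoint_left]
    intro e he he'
    exact (mem_sdiff.1 he').2 (hP (mem_inter.1 he).2)
  have h3 : S ∪ m = (S \ m) ∪ m := by
    ext e
    simp only [mem_sdiff, mem_union]
    tauto
  have h4 : Disjoint (S \ m) m := sdiff_disjoint
  rw [h1, sum_union h2, h3, sum_union h4]
  ring

/-- the new rank function -/
def fr (r : Finset E → ℕ) (m P S : Finset E) : ℕ := r (S ∩ P) + r (S ∪ m) - r m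

private theorem fr_eq {r : Finset E → ℕ} (h : Rk r) (m P S : Finset E) :
    fr r m P S + r m = r (S ∩ P) + r (S ∪ m) := by
  have h1 := h.mono m (S ∪ m) subset_union_right
  unfold fr
  omega

private theorem fr_rk {r : Finset E → ℕ} (h : Rk r) {m P : Finset E} (hP : P ⊆ m) :
    Rk (fr r m P) where
  emp := by
    have h1 := fr_eq h m P ∅
    rw [empty_inter, empty_union, h.emp] at h1
    omega
  mono S T hST := by
    have h1 := fr_eq h m P S
    have h2 := fr_eq h m P T
    have h3 := h.mono (S ∩ P) (T ∩ P) (inter_subset_inter_right hST)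
    have h4 := h.mono (S ∪ m) (T ∪ m) (union_subset_union_left hST)
    omega
  one S e := by
    have h1 := fr_eq h m P S
    have h2 := fr_eq h m P (insert e S)
    by_cases he : e ∈ P
    · have h3 : insert e S ∪ m = S ∪ m := by
        rw [insert_union, insert_eq_self]
        exact mem_union_right _ (hP he)
      have h4 : insert e S ∩ P = insert e (S ∩ P) := insert_inter_of_mem he
      rw [h3, h4] at h2
      have h5 := h.one (S ∩ P) e
      omega
    · have h3 : insert e S ∪ m = insert e (S ∪ m) := insert_union _ _ _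
      have h4 : insert e S ∩ P = S ∩ P := insert_inter_of_notMem he
      rw [h3, h4] at h2
      have h5 := h.one (S ∪ m) e
      omega
  sub S T := by
    have h1 := fr_eq h m P S
    have h2 := fr_eq h m P T
    have h3 := fr_eq h m P (S ∪ T)
    have h4 := fr_eq h m P (S ∩ T)
    have h5 := h.sub (S ∩ P) (T ∩ P)
    have h6 := h.sub (S ∪ m) (T ∪ m)
    have e1 : (S ∩ P) ∪ (T ∩ P) = (S ∪ T) ∩ P := (union_inter_distrib_right S T P).symm
    have e2 : (S ∩ P) ∩ (T ∩ P) = (S ∩ T) ∩ P := by
      ext e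
      simp only [mem_inter]
      tauto
    have e3 : (S ∪ m) ∪ (T ∪ m) = (S ∪ T) ∪ m := by
      ext e
      simp only [mem_union]
      tauto
    have e4 : (S ∪ m) ∩ (T ∪ m) = (S ∩ T) ∪ m := (inter_union_distrib_right S T m).symm
    rw [e1, e2] at h5
    rw [e3, e4] at h6
    omega

private theorem fr_le {r : Finset E → ℕ} (h : Rk r) {m P : Finset E} (hP : P ⊆ m)
    (S : Finset E) : fr r m P S ≤ r S := by
  have h1 := fr_eq h m P S
  have h2 := h.sub S m
  have h3 := h.mono (S ∩ P) (S ∩ m) (inter_subset_inter_left hP)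
  omega

private theorem fr_univ {r : Finset E → ℕ} (h : Rk r) (m P : Finset E) :
    fr r m P univ + r m = r P + r univ := by
  have h1 := fr_eq h m P univ
  rw [univ_inter, union_eq_left.2 (subset_univ m)] at h1
  exact h1

/-- the inequality behind the invariant -/
private theorem fr_inv {r : Finset E → ℕ} (h : Rk r) {m P : Finset E} (hP : P ⊆ m)
    (S : Finset E) :
    fr r m P S + r ((S ∩ m) ∪ P) ≤ r P + r S := by
  have h1 := fr_eq h m P S
  have h2 := h.sub S m
  have h3 := h.sub (S ∩ m) P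
  have h4 : (S ∩ m) ∩ P = S ∩ P := by
    ext e
    simp only [mem_inter]
    have := @hP e
    tauto
  rw [h4] at h3
  omega

section
variable {R : Finset E → ℕ} {H : Finset E} {k c : ℕ} {B : Finset E} {r : Finset E → ℕ}
  {z : E → ℚ}

/-- **a small block is freed** -/
theorem St.free (h : St R H k c B r z) {D : Finset E} (hD : D ∈ blks r (k + c) (rs B z))
    (hc : D.card ≤ c) :
    ∃ (B' : Finset E) (r' : Finset E → ℕ), B' ⊂ B ∧ St R H k c B' r' z ∧
      (∀ S, r' S ≤ r S) ∧
      (∀ S, Tight r (k + c) (rs B z) S → Tight r' (k + c) (rs B' z) S) ∧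
      frac (rs B' z) = frac (rs B z) \ D := by
  classical
  have hf := h.feas
  unfold blks at hD
  obtain ⟨e, he, rfl⟩ := mem_image.1 hD
  have heB : e ∈ B := (mem_frac_rs.1 he).1
  obtain ⟨m, hm⟩ : ∃ m : Finset E, m = mm r (k + c) (rs B z) e := ⟨_, rfl⟩
  have hmt : Tight r (k + c) (rs B z) m := by rw [hm]; exact hf.mm_tight e
  have hem : e ∈ m := by rw [hm]; exact hf.mem_mm e
  obtain ⟨P, hP⟩ : ∃ P : Finset E, P = (univ.filter fun S : Finset E =>
      Tight r (k + c) (rs B z) S ∧ S ⊆ m ∧ e ∉ S).biUnion id := ⟨_, rfl⟩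
  have hPt : Tight r (k + c) (rs B z) P := by
    rw [hP]
    exact hf.tight_biUnion _ _ fun S hS => (mem_filter.1 hS).2.1
  have hPm : P ⊆ m := by
    rw [hP]
    intro w hw
    obtain ⟨S, hS, hwS⟩ := mem_biUnion.1 hw
    exact (mem_filter.1 hS).2.2.1 hwS
  have heP : e ∉ P := by
    rw [hP]
    intro h1
    obtain ⟨S, hS, hwS⟩ := mem_biUnion.1 h1
    exact (mem_filter.1 hS).2.2.2 hwS
  -- the active set is tight
  have hBt : Tight r (k + c) (rs B z) B := by
    have h1 := hf.top
    have h2 : ∑ e ∈ B, rs B z e = ∑ e, rs B z e := by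
      rw [sum_rs, sum_rs, inter_self, univ_inter]
    have h3 : r B = r univ := by
      have h4 := h.loc univ
      rw [univ_inter] at h4
      exact h4
    unfold Tight
    rw [h2, h3]
    exact h1
  have hmB : m ⊆ B := by rw [hm]; exact mm_min hBt heB
  have hmem : ∀ f ∈ frac (rs B z), (f ∈ blk r (k + c) (rs B z) e ↔ f ∈ m ∧ f ∉ P) := by
    intro f hf1
    constructor
    · intro h1
      have h2 := (mem_blk.1 h1).2
      have h3 := hf.mem_mm f
      refine ⟨by rw [hm, ← h2]; exact h3, fun h4 => ?_⟩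
      rw [hP] at h4
      obtain ⟨S, hS, hfS⟩ := mem_biUnion.1 h4
      obtain ⟨-, h5, h6, h7⟩ := mem_filter.1 hS
      have h8 := mm_min h5 hfS
      rw [h2] at h8
      exact h7 (h8 (hf.mem_mm e))
    · rintro ⟨h1, h2⟩
      refine mem_blk.2 ⟨hf1, ?_⟩
      have h3 : mm r (k + c) (rs B z) f ⊆ m := mm_min hmt h1
      rw [← hm]
      refine Subset.antisymm h3 ?_
      by_cases h4 : e ∈ mm r (k + c) (rs B z) f
      · rw [hm]
        exact mm_min (hf.mm_tight f) h4
      · exfalso
        apply h2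
        rw [hP]
        exact mem_biUnion.2 ⟨mm r (k + c) (rs B z) f, mem_filter.2 ⟨mem_univ _, hf.mm_tight f, h3,
          h4⟩, hf.mem_mm f⟩
  -- the new point
  have hnew : ∀ S : Finset E, ∑ f ∈ S, rs (B \ (m \ P)) z f + ∑ f ∈ m, rs B z f =
      ∑ f ∈ S ∩ P, rs B z f + ∑ f ∈ S ∪ m, rs B z f := by
    intro S
    rw [← sum_split (rs B z) hPm S, sum_rs (B \ (m \ P)) S z, sum_rs B (S \ (m \ P)) z]
    have h1 : S ∩ (B \ (m \ P)) = (S \ (m \ P)) ∩ B := by
      ext f
      simp only [mem_inter, mem_sdiff]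
      tauto
    rw [h1]
  have hmt' : ∑ f ∈ m, rs B z f = ((k + c : ℕ) : ℚ) * r m := hmt
  have hfr : ∀ S : Finset E, ((k + c : ℕ) : ℚ) * (fr r m P S : ℕ) + ((k + c : ℕ) : ℚ) * r m =
      ((k + c : ℕ) : ℚ) * r (S ∩ P) + ((k + c : ℕ) : ℚ) * r (S ∪ m) := by
    intro S
    have h1 : ((fr r m P S : ℕ) : ℚ) + r m = r (S ∩ P) + r (S ∪ m) := by
      exact_mod_cast fr_eq hf.rk m P S
    rw [← mul_add, h1, mul_add]
  have htight : ∀ S, Tight r (k + c) (rs B z) S →
      Tight (fr r m P) (k + c) (rs (B \ (m \ P)) z) S := by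
    intro S hS
    have h1 : ∑ f ∈ S ∩ P, rs B z f = ((k + c : ℕ) : ℚ) * r (S ∩ P) := hf.tight_inter hS hPt
    have h2 : ∑ f ∈ S ∪ m, rs B z f = ((k + c : ℕ) : ℚ) * r (S ∪ m) := hf.tight_union hS hmt
    have h3 := hnew S
    have h4 := hfr S
    unfold Tight
    linarith
  have hfeas : Feas (fr r m P) (k + c) (rs (B \ (m \ P)) z) := by
    refine ⟨fr_rk hf.rk hPm, ?_, ?_, ?_, ?_⟩
    · intro f
      by_cases h1 : f ∈ B \ (m \ P)
      · have h2 := hf.nn f
        rw [rs_mem (mem_sdiff.1 h1).1] at h2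
        rw [rs_mem h1]
        exact h2
      · rw [rs_notMem h1]
    · intro f
      by_cases h1 : f ∈ B \ (m \ P)
      · have h2 := hf.le1 f
        rw [rs_mem (mem_sdiff.1 h1).1] at h2
        rw [rs_mem h1]
        exact h2
      · rw [rs_notMem h1]
        exact zero_le_one
    · intro S
      have h1 := hf.le (S ∩ P)
      have h2 := hf.le (S ∪ m)
      have h3 := hnew S
      have h4 := hfr S
      linarith
    · exact htight univ hf.tight_univ
  have hloc : ∀ S : Finset E, fr r m P (S ∩ (B \ (m \ P))) = fr r m P S := by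
    intro S
    have h1 := fr_eq hf.rk m P (S ∩ (B \ (m \ P)))
    have h2 := fr_eq hf.rk m P S
    have e1 : S ∩ (B \ (m \ P)) ∩ P = S ∩ P := by
      ext f
      simp only [mem_inter, mem_sdiff]
      have h3 := @hPm f
      have h4 := @hmB f
      tauto
    have e2 : r (S ∩ (B \ (m \ P)) ∪ m) = r (S ∪ m) := by
      rw [← h.loc (S ∪ m)]
      congr 1
      ext f
      simp only [mem_inter, mem_sdiff, mem_union]
      have h3 := @hPm f
      have h4 := @hmB f
      tauto
    rw [e1, e2] at h1
    omega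
  refine ⟨B \ (m \ P), fr r m P, ?_, ⟨hfeas, sdiff_subset.trans h.sub, hloc,
    fun S => (fr_le hf.rk hPm S).trans (h.le S), ?_⟩, fr_le hf.rk hPm, htight, ?_⟩
  · refine (ssubset_iff_of_subset sdiff_subset).2 ⟨e, heB, fun h1 => ?_⟩
    exact (mem_sdiff.1 h1).2 (mem_sdiff.2 ⟨hem, heP⟩)
  · -- the invariant
    intro S
    have h1 := h.inv S
    have h2 := fr_inv hf.rk hPm S
    have h3 := fr_univ hf.rk m P
    -- the ones of the freed part outside `S`
    have h4 : k * r m ≤ (((m \ P) \ S).filter fun f => z f = 1).card + k * r ((S ∩ m) ∪ P) := by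
      have e1 : (m \ P) \ S = m \ ((S ∩ m) ∪ P) := by
        ext f
        simp only [mem_inter, mem_sdiff, mem_union]
        tauto
      have e2 : (S ∩ m) ∪ P ⊆ m := union_subset inter_subset_right hPm
      have h5 := sum_sdiff (f := rs B z) e2
      have h6 := hf.le ((S ∩ m) ∪ P)
      rw [hmt', ← e1] at h5
      have h7 : ∑ f ∈ (m \ P) \ S, rs B z f ≤
          ((((m \ P) \ S).filter fun f => z f = 1).card : ℚ) +
            ((blk r (k + c) (rs B z) e).card : ℚ) := by
        rw [← sum_filter_add_sum_filter_not ((m \ P) \ S) (fun f => z f = 1)]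
        refine add_le_add ?_ ?_
        · have h8 : ∑ f ∈ ((m \ P) \ S).filter (fun f => z f = 1), rs B z f ≤
              ∑ _f ∈ ((m \ P) \ S).filter (fun f => z f = 1), (1 : ℚ) :=
            sum_le_sum fun f _ => hf.le1 f
          rw [sum_const, nsmul_eq_mul, mul_one] at h8
          exact h8
        · have h8 : ∑ f ∈ ((m \ P) \ S).filter (fun f => ¬ z f = 1), rs B z f ≤
              ∑ f ∈ blk r (k + c) (rs B z) e, rs B z f := by
            rw [← sum_filter_add_sum_filter_not
              (((m \ P) \ S).filter (fun f => ¬ z f = 1)) (fun f => z f = 0)]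
            have h9 : ∑ f ∈ (((m \ P) \ S).filter (fun f => ¬ z f = 1)).filter
                (fun f => z f = 0), rs B z f = 0 := by
              refine sum_eq_zero fun f hf1 => ?_
              by_cases h10 : f ∈ B
              · rw [rs_mem h10]
                exact (mem_filter.1 hf1).2
              · exact rs_notMem h10
            rw [h9, zero_add]
            refine sum_le_sum_of_subset_of_nonneg ?_ fun f _ _ => hf.nn f
            intro f hf1
            obtain ⟨h10, h11⟩ := mem_filter.1 hf1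
            obtain ⟨h12, h13⟩ := mem_filter.1 h10
            have h14 := (mem_sdiff.1 h12).1
            have h15 := mem_sdiff.1 h14
            exact (hmem f (mem_frac_rs.2 ⟨hmB h15.1, h11, h13⟩)).2 h15
          have h9 : ∑ f ∈ blk r (k + c) (rs B z) e, rs B z f ≤
              ∑ _f ∈ blk r (k + c) (rs B z) e, (1 : ℚ) :=
            sum_le_sum fun f _ => hf.le1 f
          rw [sum_const, nsmul_eq_mul, mul_one] at h9
          exact h8.trans h9
      have h8 : ((blk r (k + c) (rs B z) e).card : ℚ) ≤ (c : ℚ) := by exact_mod_cast hc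
      have h9 : ((k + c : ℕ) : ℚ) * r m ≤ ((((m \ P) \ S).filter fun f => z f = 1).card : ℚ) +
          c + ((k + c : ℕ) : ℚ) * r ((S ∩ m) ∪ P) := by
        linarith
      have h10 : (k + c) * r m ≤ (((m \ P) \ S).filter fun f => z f = 1).card +
          c + (k + c) * r ((S ∩ m) ∪ P) := by
        exact_mod_cast h9
      have h11 : r ((S ∩ m) ∪ P) ≤ r m := hf.rk.mono _ _ e2
      rcases Nat.eq_or_lt_of_le h11 with h12 | h12
      · rw [h12]
        exact Nat.le_add_left _ _
      · obtain ⟨q, hq⟩ := Nat.exists_eq_add_of_lt h12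
        rw [hq] at h10 ⊢
        nlinarith [Nat.zero_le (c * q)]
    have h5 : (((m \ P) \ S).filter fun f => z f = 1).card +
        (((H \ B) \ S).filter fun f => z f = 1).card ≤
        (((H \ (B \ (m \ P))) \ S).filter fun f => z f = 1).card := by
      rw [← card_union_of_disjoint]
      · refine card_le_card fun f hf1 => ?_
        rcases mem_union.1 hf1 with h6 | h6
        · obtain ⟨h7, h8⟩ := mem_filter.1 h6
          obtain ⟨h9, h10⟩ := mem_sdiff.1 h7
          refine mem_filter.2 ⟨mem_sdiff.2 ⟨mem_sdiff.2 ⟨h.sub (hmB (mem_sdiff.1 h9).1),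
            fun h11 => (mem_sdiff.1 h11).2 h9⟩, h10⟩, h8⟩
        · obtain ⟨h7, h8⟩ := mem_filter.1 h6
          obtain ⟨h9, h10⟩ := mem_sdiff.1 h7
          refine mem_filter.2 ⟨mem_sdiff.2 ⟨mem_sdiff.2 ⟨(mem_sdiff.1 h9).1,
            fun h11 => (mem_sdiff.1 h9).2 (mem_sdiff.1 h11).1⟩, h10⟩, h8⟩
      · rw [disjoint_left]
        intro f hf1 hf2
        exact (mem_sdiff.1 (mem_sdiff.1 (mem_filter.1 hf2).1).1).2
          (hmB (mem_sdiff.1 (mem_sdiff.1 (mem_filter.1 hf1).1).1).1)
    have h6 := Nat.mul_le_mul_left k h2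
    rw [mul_add, mul_add] at h6
    have h7 : k * fr r m P univ + k * r m = k * r P + k * r univ := by
      rw [← mul_add, h3, mul_add]
    omega
  · ext f
    rw [mem_sdiff, mem_frac_rs, mem_frac_rs]
    constructor
    · rintro ⟨h1, h2⟩
      obtain ⟨h3, h4⟩ := mem_sdiff.1 h1
      refine ⟨⟨h3, h2⟩, fun h5 => h4 ?_⟩
      exact mem_sdiff.2 ((hmem f (mem_frac_rs.2 ⟨h3, h2⟩)).1 h5)
    · rintro ⟨⟨h1, h2⟩, h3⟩
      refine ⟨mem_sdiff.2 ⟨h1, fun h4 => h3 ?_⟩, h2⟩
      exact (hmem f (mem_frac_rs.2 ⟨h1, h2⟩)).2 (mem_sdiff.1 h4)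

end

end Pool.Agent.Lib.MP_21a058_co.Duo
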