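import Pool.Agent.Lib.MP_21a058_co.Duo.Back
import Pool.Agent.Lib.MP_21a058_co.Duo.Count2
import Pool.Agent.Lib.MP_21a058_co.Two.Vertex

/-!
MP_21a058_co, two-sided rounding with trees on both sides: the loop.
-/

set_option autoImplicit false

namespace Pool.Agent.Lib.MP_21a058_co.Duo

open Finset MP21a058
open Pool.Agent.Lib.MP_21a058_co.P

variable {V E : Type} [Fintype V] [DecidableEq V] [Fintype E] [DecidableEq E] (a b : E → V)

/-- the data of one side -/
structure SD (L : Finset (Finset V)) (s : ℕ) (B : Finset E) (r : Finset E → ℕ)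
    (z : E → ℚ) : Prop where
  feas : Feas r s (on B z)
  tins : ∀ W ∈ L, Tight r s (on B z) (ins a b W)
  marg : ∀ C ⊆ L, ∀ J : Finset E, r (C.biUnion (ins a b) ∪ J) + rk a b (C.biUnion (ins a b)) ≤
    r (C.biUnion (ins a b)) + rk a b (C.biUnion (ins a b) ∪ J)

variable {a b}
variable {L K : Finset (Finset V)} {s : ℕ} {B : Finset E} {r : Finset E → ℕ} {z : E → ℚ}

theorem SD.move (h : SD a b L s B r z) {z' : E → ℚ} (h0 : ∀ e ∈ B, 0 ≤ z' e ∧ z' e ≤ 1)
    (hle : ∀ S : Finset E, ∑ e ∈ S, on B z' e ≤ (s : ℚ) * r S)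
    (ht : ∀ S, Tight r s (on B z) S → Tight r s (on B z') S) : SD a b L s B r z' where
  feas := {
    rk := h.feas.rk
    nn := fun e => by
      by_cases he : e ∈ B
      · rw [on_mem he]
        exact (h0 e he).1
      · rw [on_not he]
    le1 := fun e => by
      by_cases he : e ∈ B
      · rw [on_mem he]
        exact (h0 e he).2
      · rw [on_not he]
        exact zero_le_one
    le := hle
    top := ht univ h.feas.tight_univ }
  tins W hW := ht _ (h.tins W hW)
  marg := h.marg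

theorem SD.free {k c : ℕ} (h : SD a b L (k + c) B r z)
    {D : Finset E} (hD : D ∈ blks r (k + c) (on B z)) (hc : D.card ≤ c) :
    ∃ (B' : Finset E) (r' : Finset E → ℕ), B' ⊂ B ∧ SD a b L (k + c) B' r' z ∧
      ∀ z' : E → ℚ, (∀ e, 0 ≤ z' e) → (∀ e, z e = 0 ∨ z e = 1 → z' e = z e) →
        (∀ A, (k : ℚ) * ((r' univ : ℚ) - r' A) ≤ ∑ e ∈ B' \ A, z' e) →
        ∀ A, (k : ℚ) * ((r univ : ℚ) - r A) ≤ ∑ e ∈ B \ A, z' e := by
  obtain ⟨B', r', h1, h2, h3, h4, h5⟩ := free_step h.feas hD hc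
  refine ⟨B', r', h1, ⟨h2, fun W hW => h3 _ (h.tins W hW), fun C hC J => ?_⟩, h5⟩
  have h6 : Tight r (k + c) (on B z) (C.biUnion (ins a b)) :=
    h.feas.tight_biUnion _ _ fun W hW => h.tins W (hC hW)
  have h7 := h4 _ J h6
  have h8 := h.marg C hC J
  omega

/-- the hypotheses of the count -/
theorem SD.side (h : SD a b L s B r z) {x : E → ℚ} (hF : frac (on B z) ⊆ frac x) (hK : K ⊆ L)
    (hne : ∀ W ∈ L, W.Nonempty)
    (hZ : ∀ C ⊆ L, (∀ W ∈ C, ∀ W' ∈ C, W ≠ W' → Disjoint W W') →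
      ∑ W ∈ C, W.card ≤ rk a b (C.biUnion (ins a b)) + C.card) :
    Side a b (frac x) K (blks r s (on B z)) where
  sub D hD := (blks_sub hD).trans hF
  disj D hD D' hD' hne := blks_disj hD hD' hne
  con W hW D hD := h.feas.blks_tight (h.tins W (hK hW)) hD
  rep C hC hCne hdis J hJD hJi hJe := by
    have hJX : J ⊆ frac (on B z) := by
      intro e he
      obtain ⟨D, hD, h1⟩ := hJD e he
      exact blks_sub hD h1
    have hZt : Tight r s (on B z) (C.biUnion (ins a b)) :=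
      h.feas.tight_biUnion _ _ fun W hW => h.tins W (hK (hC hW))
    have h1 := h.feas.reps hZt J.card J rfl hJX (fun e he hcon => by
      obtain ⟨W, hW, h2⟩ := mem_biUnion.1 hcon
      exact (hJe e he).2.2 W hW h2) (by
      intro e he f hf hmm
      have h2 : blk r s (on B z) e = blk r s (on B z) f := (blk_eq_iff (hJX he)).2 hmm
      refine hJi (blk r s (on B z) e) (mem_image_of_mem _ (hJX he)) e he f hf
        (mem_blk_self (hJX he)) ?_
      rw [h2]
      exact mem_blk_self (hJX hf))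
    have h2 := h.marg C (hC.trans hK) J
    have hUne : (C.biUnion id).Nonempty := by
      obtain ⟨W, hW⟩ := hCne
      obtain ⟨v, hv⟩ := hne W (hK (hC hW))
      exact ⟨v, mem_biUnion.2 ⟨W, hW, hv⟩⟩
    have h3 : rk a b (C.biUnion (ins a b) ∪ J) + 1 ≤ (C.biUnion id).card := by
      refine rk_ends_le a b hUne fun e he => ?_
      rcases mem_union.1 he with he | he
      · obtain ⟨W, hW, h3⟩ := mem_biUnion.1 he
        obtain ⟨h4, h5⟩ := (mem_ins a b).1 h3
        exact ⟨mem_biUnion.2 ⟨W, hW, h4⟩, mem_biUnion.2 ⟨W, hW, h5⟩⟩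
      · obtain ⟨⟨W, hW, h4⟩, ⟨W', hW', h5⟩, -⟩ := hJe e he
        exact ⟨mem_biUnion.2 ⟨W, hW, h4⟩, mem_biUnion.2 ⟨W', hW', h5⟩⟩
    have h4 : (C.biUnion id).card = ∑ W ∈ C, W.card := by
      rw [card_biUnion]
      · rfl
      · intro W hW W' hW' hne'
        exact hdis W hW W' hW' hne'
    have h5 := hZ C (hC.trans hK) hdis
    omega

/-- the way to a vertex -/
theorem vert_step {s1 s2 : ℕ} {B1 B2 : Finset E} {r1 r2 : Finset E → ℕ} {x : E → ℚ}
    {up : Finset V → ℤ} (h01 : ∀ e, 0 ≤ x e ∧ x e ≤ 1) (h1 : SD a b L s1 B1 r1 x)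
    (h2 : SD a b L s2 B2 r2 fun e => 1 - x e)
    (hK : ∀ W ∈ K, ∑ e ∈ cut a b W, x e ≤ (up W : ℚ)) :
    ∃ x1 : E → ℚ, (∀ e, 0 ≤ x1 e ∧ x1 e ≤ 1) ∧ SD a b L s1 B1 r1 x1 ∧
      (SD a b L s2 B2 r2 fun e => 1 - x1 e) ∧
      (∀ W ∈ K, ∑ e ∈ cut a b W, x1 e ≤ (up W : ℚ)) ∧
      (∀ e, x e = 0 ∨ x e = 1 → x1 e = x e) ∧
      ∀ y : E → ℚ, (∀ e, e ∉ frac x1 → y e = 0) →
        (∀ D ∈ blks r1 s1 (on B1 x1), ∑ e ∈ D, y e = 0) →
        (∀ D ∈ blks r2 s2 (on B2 fun e => 1 - x1 e), ∑ e ∈ D, y e = 0) →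
        (∀ W ∈ K, ∑ e ∈ cut a b W, x1 e = (up W : ℚ) → ∑ e ∈ cut a b W, y e = 0) → y = 0 := by
  classical
  let A : Finset E ⊕ (Finset E ⊕ {W // W ∈ K}) → E → ℚ := fun i e => match i with
    | .inl S => if e ∈ S ∩ B1 then 1 else 0
    | .inr (.inl S) => -(if e ∈ S ∩ B2 then 1 else 0)
    | .inr (.inr W) => if e ∈ cut a b W.1 then 1 else 0
  let c : Finset E ⊕ (Finset E ⊕ {W // W ∈ K}) → ℚ := fun i => match i with
    | .inl S => (s1 : ℚ) * r1 S
    | .inr (.inl S) => (s2 : ℚ) * r2 S - ((S ∩ B2).card : ℚ)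
    | .inr (.inr W) => (up W.1 : ℚ)
  have hind : ∀ (S : Finset E) (x : E → ℚ),
      ∑ e, (if e ∈ S then (1 : ℚ) else 0) * x e = ∑ e ∈ S, x e := by
    intro S x
    simp [ite_mul, sum_ite_mem]
  have hA1 : ∀ (S : Finset E) (x : E → ℚ), ∑ e, A (.inl S) e * x e = ∑ e ∈ S, on B1 x e := by
    intro S x
    rw [sum_on]
    exact hind _ x
  have hA2 : ∀ (S : Finset E) (x : E → ℚ),
      ∑ e, A (.inr (.inl S)) e * x e = -∑ e ∈ S ∩ B2, x e := by
    intro S x
    rw [← hind (S ∩ B2) x, ← sum_neg_distrib]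
    exact sum_congr rfl fun e _ => neg_mul _ _
  have hA3 : ∀ (W : {W // W ∈ K}) (x : E → ℚ),
      ∑ e, A (.inr (.inr W)) e * x e = ∑ e ∈ cut a b W.1, x e := by
    intro W x
    exact hind _ x
  have hon2 : ∀ (S : Finset E) (x : E → ℚ), ∑ e ∈ S, on B2 (fun e => 1 - x e) e =
      ((S ∩ B2).card : ℚ) - ∑ e ∈ S ∩ B2, x e := by
    intro S x
    rw [sum_on, sum_sub_distrib, sum_const, nsmul_eq_mul, mul_one]
  obtain ⟨x1, g1, g2, g3, g4, g5⟩ := Two.exists_vertex A c x h01 (by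
    rintro (S | S | W)
    · rw [hA1]
      exact h1.feas.le S
    · rw [hA2]
      have := h2.feas.le S
      rw [hon2] at this
      change -∑ e ∈ S ∩ B2, x e ≤ (s2 : ℚ) * r2 S - ((S ∩ B2).card : ℚ)
      linarith
    · rw [hA3]
      exact hK W.1 W.2)
  have k1 : ∀ S : Finset E, ∑ e ∈ S, on B1 x1 e ≤ (s1 : ℚ) * r1 S := by
    intro S
    have := g2 (.inl S)
    rw [hA1] at this
    exact this
  have k2 : ∀ S : Finset E, ∑ e ∈ S, on B2 (fun e => 1 - x1 e) e ≤ (s2 : ℚ) * r2 S := by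
    intro S
    have h3 := g2 (.inr (.inl S))
    rw [hA2] at h3
    have h4 : -∑ e ∈ S ∩ B2, x1 e ≤ (s2 : ℚ) * r2 S - ((S ∩ B2).card : ℚ) := h3
    rw [hon2]
    linarith
  have t1 : ∀ S, Tight r1 s1 (on B1 x) S → Tight r1 s1 (on B1 x1) S := by
    intro S hS
    have h3 := g3 (.inl S)
    rw [hA1, hA1] at h3
    exact h3 hS
  have t2 : ∀ S, Tight r2 s2 (on B2 fun e => 1 - x e) S →
      Tight r2 s2 (on B2 fun e => 1 - x1 e) S := by
    intro S hS
    have h3 := g3 (.inr (.inl S))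
    rw [hA2, hA2] at h3
    unfold Tight at hS ⊢
    rw [hon2] at hS ⊢
    have h4 : -∑ e ∈ S ∩ B2, x1 e = (s2 : ℚ) * r2 S - ((S ∩ B2).card : ℚ) := by
      apply h3
      change -∑ e ∈ S ∩ B2, x e = (s2 : ℚ) * r2 S - ((S ∩ B2).card : ℚ)
      linarith
    linarith
  refine ⟨x1, g1, h1.move (fun e _ => g1 e) k1 t1, h2.move (fun e _ => ?_) k2 t2, ?_, g4, ?_⟩
  · have := g1 e
    constructor
    · linarith [this.2]
    · linarith [this.1]
  · intro W hW
    have h3 := g2 (.inr (.inr ⟨W, hW⟩))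
    rw [hA3] at h3
    exact h3
  · intro y y1 y2 y3 y4
    refine g5 y (fun e he => y1 e fun h3 => ?_) ?_
    · rw [mem_frac] at h3
      exact he.elim h3.1 h3.2
    · have hz : ∀ (B : Finset E) (z1 : E → ℚ) (r : Finset E → ℕ) (s : ℕ), Feas r s (on B z1) →
          (∀ e, e ∈ frac x1 ↔ e ∈ frac z1) → (∀ D ∈ blks r s (on B z1), ∑ e ∈ D, y e = 0) →
          ∀ S, Tight r s (on B z1) S → ∑ e ∈ S ∩ B, y e = 0 := by
        intro B z1 r s hf hfz hb S hS
        rw [← sum_on]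
        refine sum_zero (r := r) (s := s) (x := on B z1) ?_ ?_ fun D hD => hf.blks_tight hS hD
        · intro e he
          by_cases hB : e ∈ B
          · rw [on_mem hB]
            apply y1 e
            intro h3
            apply he
            have h4 := mem_frac.1 ((hfz e).1 h3)
            rw [mem_frac, on_mem hB]
            exact h4
          · rw [on_not hB]
        · intro D hD
          rw [← hb D hD]
          refine sum_congr rfl fun e he => on_mem ?_
          exact (mem_inter.1 (frac_on (blks_sub hD he))).1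
      rintro (S | S | W) hi
      · rw [hA1] at hi ⊢
        rw [sum_on]
        exact hz B1 x1 r1 s1 (h1.move (fun e _ => g1 e) k1 t1).feas (fun e => Iff.rfl) y2 S hi
      · rw [hA2] at hi ⊢
        rw [neg_eq_zero]
        refine hz B2 (fun e => 1 - x1 e) r2 s2 (h2.move (fun e _ => ?_) k2 t2).feas
          (fun e => ?_) y3 S ?_
        · have := g1 e
          constructor
          · linarith [this.2]
          · linarith [this.1]
        · rw [mem_frac, mem_frac]
          constructor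
          · rintro ⟨h3, h4⟩
            exact ⟨fun h5 => h4 (by linarith), fun h5 => h3 (by linarith)⟩
          · rintro ⟨h3, h4⟩
            exact ⟨fun h5 => h4 (by linarith), fun h5 => h3 (by linarith)⟩
        · unfold Tight
          rw [hon2]
          have h4 : -∑ e ∈ S ∩ B2, x1 e = (s2 : ℚ) * r2 S - ((S ∩ B2).card : ℚ) := hi
          linarith
      · rw [hA3] at hi ⊢
        exact y4 W.1 W.2 hi

/-- **the loop** -/
theorem back_loop
    (hlam : ∀ X ∈ L, ∀ Y ∈ L, X ⊆ Y ∨ Y ⊆ X ∨ Disjoint X Y) (hne : ∀ W ∈ L, W.Nonempty)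
    (hup : ∀ W ∈ L, W ≠ univ)
    (hZ : ∀ C ⊆ L, (∀ W ∈ C, ∀ W' ∈ C, W ≠ W' → Disjoint W W') →
      ∑ W ∈ C, W.card ≤ rk a b (C.biUnion (ins a b)) + C.card)
    {k q : ℕ} (up : Finset V → ℤ) :
    ∀ (n : ℕ) (B1 B2 : Finset E) (r1 r2 : Finset E → ℕ) (x : E → ℚ) (K : Finset (Finset V)),
      K.card + B1.card + B2.card < n → K ⊆ L → (∀ e, 0 ≤ x e ∧ x e ≤ 1) →
      SD a b L (k + 7) B1 r1 x → (SD a b L (q + 7) B2 r2 fun e => 1 - x e) →
      (∀ W ∈ K, ∑ e ∈ cut a b W, x e ≤ (up W : ℚ)) →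
      ∃ x' : E → ℚ, (∀ e, x' e = 0 ∨ x' e = 1) ∧ (∀ e, x e = 0 ∨ x e = 1 → x' e = x e) ∧
        (∀ A, (k : ℚ) * ((r1 univ : ℚ) - r1 A) ≤ ∑ e ∈ B1 \ A, x' e) ∧
        (∀ A, (q : ℚ) * ((r2 univ : ℚ) - r2 A) ≤ ∑ e ∈ B2 \ A, (1 - x' e)) ∧
        ∀ W ∈ K, ∑ e ∈ cut a b W, x' e ≤ (up W : ℚ) + 7 := by
  classical
  intro n
  induction n with
  | zero =>
    intro B1 B2 r1 r2 x K hn
    omega
  | succ n ih =>
    intro B1 B2 r1 r2 x K hn hKL h01 h1 h2 hK
    obtain ⟨x1, g01, g1, g2, gK, gx, gy⟩ := vert_step h01 h1 h2 hK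
    have hf1 : frac (on B1 x1) ⊆ frac x1 := frac_on.trans inter_subset_right
    have hf2 : frac (on B2 fun e => 1 - x1 e) ⊆ frac x1 := by
      refine (frac_on.trans inter_subset_right).trans fun e he => ?_
      obtain ⟨h3, h4⟩ := mem_frac.1 he
      exact mem_frac.2 ⟨fun h5 => h4 (by linarith), fun h5 => h3 (by linarith)⟩
    have trans : ∀ x' : E → ℚ, (∀ e, x1 e = 0 ∨ x1 e = 1 → x' e = x1 e) →
        ∀ e, x e = 0 ∨ x e = 1 → x' e = x e := by
      intro x' hx' e he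
      have h3 := gx e he
      rw [← h3]
      exact hx' e (by rw [h3]; exact he)
    have h0' : ∀ x' : E → ℚ, (∀ e, x' e = 0 ∨ x' e = 1) → ∀ e, 0 ≤ x' e := by
      intro x' hx' e
      rcases hx' e with h3 | h3 <;> rw [h3]
      exact zero_le_one
    have h0'' : ∀ x' : E → ℚ, (∀ e, x' e = 0 ∨ x' e = 1) → ∀ e, 0 ≤ 1 - x' e := by
      intro x' hx' e
      rcases hx' e with h3 | h3 <;> rw [h3] <;> norm_num
    by_cases hfr : (frac x1).Nonempty
    · have hcnt := count2 a b x1 (K.filter fun W => ∑ e ∈ cut a b W, x1 e = (up W : ℚ))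
        (fun X hX Y hY => hlam X (hKL (mem_filter.1 hX).1) Y (hKL (mem_filter.1 hY).1))
        (fun W hW => hne W (hKL (mem_filter.1 hW).1))
        (fun W hW => hup W (hKL (mem_filter.1 hW).1))
        (blks r1 (k + 7) (on B1 x1)) (blks r2 (q + 7) (on B2 fun e => 1 - x1 e))
        (g1.side hf1 ((filter_subset _ _).trans hKL) hne hZ)
        (g2.side hf2 ((filter_subset _ _).trans hKL) hne hZ) g01
        (fun W hW => ⟨up W, (mem_filter.1 hW).2⟩)
        (fun y y1 y2 y3 y4 => gy y y1 y2 y3 fun W hW hW' =>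
          y4 W (mem_filter.2 ⟨hW, hW'⟩)) hfr
      rcases hcnt with ⟨D, hD, hc⟩ | ⟨D, hD, hc⟩ | ⟨W, hW, hc⟩
      · obtain ⟨B', r', h3, h4, h5⟩ := g1.free hD hc
        have h6 := card_lt_card h3
        obtain ⟨x', p1, p2, p3, p4, p5⟩ := ih B' B2 r' r2 x1 K (by omega) hKL g01 h4 g2 gK
        exact ⟨x', p1, trans x' p2, h5 x' (h0' x' p1) p2 p3, p4, p5⟩
      · obtain ⟨B', r', h3, h4, h5⟩ := g2.free hD hc
        have h6 := card_lt_card h3
        obtain ⟨x', p1, p2, p3, p4, p5⟩ := ih B1 B' r1 r' x1 K (by omega) hKL g01 g1 h4 gK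
        refine ⟨x', p1, trans x' p2, p3, h5 (fun e => 1 - x' e) (h0'' x' p1) ?_ p4, p5⟩
        intro e he
        change 1 - x' e = 1 - x1 e
        rw [p2 e]
        rcases he with he | he
        · exact Or.inr (by linarith)
        · exact Or.inl (by linarith)
      · have hWK := (mem_filter.1 hW).1
        have h6 : (K.erase W).card < K.card := card_erase_lt_of_mem hWK
        obtain ⟨x', p1, p2, p3, p4, p5⟩ := ih B1 B2 r1 r2 x1 (K.erase W) (by omega)
          ((erase_subset _ _).trans hKL) g01 g1 g2 (fun W' hW' => gK W' (mem_of_mem_erase hW'))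
        refine ⟨x', p1, trans x' p2, p3, p4, fun W' hW' => ?_⟩
        by_cases hWW : W' = W
        · subst hWW
          have q1 : ∀ e ∈ cut a b W', x' e ≤ x1 e + (if e ∈ frac x1 then 1 else 0) := by
            intro e _
            by_cases he : e ∈ frac x1
            · rw [if_pos he]
              have := (g01 e).1
              rcases p1 e with h7 | h7 <;> rw [h7] <;> linarith
            · rw [if_neg he, add_zero]
              refine le_of_eq (p2 e ?_)
              by_contra h7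
              rw [not_or] at h7
              exact he (mem_frac.2 h7)
          refine (sum_le_sum q1).trans ?_
          rw [sum_add_distrib]
          have q2 : ∑ e ∈ cut a b W', (if e ∈ frac x1 then (1 : ℚ) else 0) ≤ 7 := by
            rw [← sum_filter, sum_const, nsmul_eq_mul, mul_one, filter_mem_eq_inter]
            exact_mod_cast hc
          have q3 := gK W' hWK
          linarith
        · exact p5 W' (mem_erase.2 ⟨hWW, hW'⟩)
    · have hint : ∀ e, x1 e = 0 ∨ x1 e = 1 := by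
        intro e
        by_contra h3
        rw [not_or] at h3
        exact hfr ⟨e, mem_frac.2 h3⟩
      refine ⟨x1, hint, gx, fun A => fin_acc g1.feas A, fun A => fin_acc g2.feas A, fun W hW => ?_⟩
      have := gK W hW
      linarith

end Pool.Agent.Lib.MP_21a058_co.Duo
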