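import Pool.Agent.Lib.MP_21a058_co.Duo.Cut

/-!
MP_21a058_co, two-sided rounding: the counting theorem. `Q` is a laminar family of tight cuts.
-/

set_option autoImplicit false

namespace Pool.Agent.Lib.MP_21a058_co.Duo

open Finset MP21a058
open Pool.Agent.Lib.MP_21a058_co.P

/-- counting a predicate by exclusive subcases -/
theorem split_card {α β : Type*} [DecidableEq α] [DecidableEq β] (A : Finset α) (C : Finset β)
    (P : α → Prop) (R : β → α → Prop) [DecidablePred P] [∀ K, DecidablePred (R K)] (T : Finset α)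
    (hT : ∀ z, z ∈ T ↔ z ∈ A ∧ P z ∧ ∀ K ∈ C, ¬ R K z)
    (h1 : ∀ K ∈ C, ∀ z ∈ A, R K z → P z)
    (h2 : ∀ z ∈ A, ∀ K ∈ C, ∀ K' ∈ C, R K z → R K' z → K = K') :
    (A.filter P).card = ∑ K ∈ C, (A.filter (R K)).card + T.card := by
  have e1 : A.filter P = (C.biUnion fun K => A.filter (R K)) ∪ T := by
    ext z
    rw [mem_union, mem_biUnion, mem_filter, hT]
    constructor
    · rintro ⟨h3, h4⟩
      by_cases h5 : ∃ K ∈ C, R K z
      · obtain ⟨K, hK, h6⟩ := h5
        exact Or.inl ⟨K, hK, mem_filter.2 ⟨h3, h6⟩⟩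
      · push Not at h5
        exact Or.inr ⟨h3, h4, h5⟩
    · rintro (⟨K, hK, h3⟩ | h3)
      · obtain ⟨h4, h5⟩ := mem_filter.1 h3
        exact ⟨h4, h1 K hK z h4 h5⟩
      · exact ⟨h3.1, h3.2.1⟩
  rw [e1, card_union_of_disjoint, card_biUnion]
  · intro K hK K' hK' hne
    change Disjoint _ _
    rw [disjoint_left]
    intro z hz hz'
    exact hne (h2 z (mem_filter.1 hz).1 K hK K' hK' (mem_filter.1 hz).2 (mem_filter.1 hz').2)
  · rw [disjoint_left]
    intro z hz hz'
    obtain ⟨K, hK, h3⟩ := mem_biUnion.1 hz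
    exact ((hT z).1 hz').2.2 K hK (mem_filter.1 h3).2

section kids
variable {V : Type} [DecidableEq V]

/-- the maximal members of `Q` strictly inside `W` -/
def kids (Q : Finset (Finset V)) (W : Finset V) : Finset (Finset V) :=
  Q.filter fun K => K ⊂ W ∧ ∀ K' ∈ Q, K' ⊂ W → ¬ K ⊂ K'

theorem mem_kids {Q : Finset (Finset V)} {W K : Finset V} :
    K ∈ kids Q W ↔ K ∈ Q ∧ K ⊂ W ∧ ∀ K' ∈ Q, K' ⊂ W → ¬ K ⊂ K' := by
  rw [kids, mem_filter]

theorem kids_cover {Q : Finset (Finset V)} {W : Finset V} :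
    ∀ (n : ℕ) (K : Finset V), W.card ≤ K.card + n → K ∈ Q → K ⊂ W → ∃ K' ∈ kids Q W, K ⊆ K' := by
  intro n
  induction n with
  | zero =>
    intro K h1 _ h2
    have := card_lt_card h2
    omega
  | succ n ih =>
    intro K h1 hK h2
    by_cases h3 : ∀ K' ∈ Q, K' ⊂ W → ¬ K ⊂ K'
    · exact ⟨K, mem_kids.2 ⟨hK, h2, h3⟩, Subset.refl K⟩
    · push Not at h3
      obtain ⟨K', hK', h4, h5⟩ := h3
      have h6 := card_lt_card h5
      obtain ⟨K'', h7, h8⟩ := ih K' (by omega) hK' h4
      exact ⟨K'', h7, h5.1.trans h8⟩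

theorem kids_disj {Q : Finset (Finset V)} {W : Finset V}
    (hlam : ∀ X ∈ Q, ∀ Y ∈ Q, X ⊆ Y ∨ Y ⊆ X ∨ Disjoint X Y) :
    ∀ K ∈ kids Q W, ∀ K' ∈ kids Q W, K ≠ K' → Disjoint K K' := by
  intro K hK K' hK' hne
  obtain ⟨h1, h2, h3⟩ := mem_kids.1 hK
  obtain ⟨h4, h5, h6⟩ := mem_kids.1 hK'
  rcases hlam K h1 K' h4 with h7 | h7 | h7
  · exact absurd (h7.ssubset_of_ne hne) (h3 K' h4 h5)
  · exact absurd (h7.ssubset_of_ne (Ne.symm hne)) (h6 K h1 h2)
  · exact h7

end kids

variable {V E : Type} [Fintype V] [DecidableEq V] [Fintype E] [DecidableEq E] (a b : E → V)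

/-- number of ends in `W` of the edges of `X` -/
def TT (X : Finset E) (W : Finset V) : ℕ :=
  (X.filter fun e => a e ∈ W).card + (X.filter fun e => b e ∈ W).card

/-- blocks inside `W` -/
def rho (B : Finset (Finset E)) (W : Finset V) : ℕ := (B.filter fun D => D ⊆ ins a b W).card

/-- members of `Q` inside `W` -/
def kap (Q : Finset (Finset V)) (W : Finset V) : ℕ := (Q.filter fun K => K ⊆ W).card

variable {s : ℕ} {x : E → ℚ}

/-- the setting: a laminar family of tight cuts -/
structure Set2 (s : ℕ) (x : E → ℚ) (Q : Finset (Finset V)) : Prop where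
  h : Feas (rk a b) s x
  lam : ∀ X ∈ Q, ∀ Y ∈ Q, X ⊆ Y ∨ Y ⊆ X ∨ Disjoint X Y
  ne : ∀ W ∈ Q, W.Nonempty
  tins : ∀ W ∈ Q, Tight (rk a b) s x (ins a b W)
  rins : ∀ W ∈ Q, rk a b (ins a b W) + 1 = W.card
  int : ∀ W ∈ Q, ∃ n : ℤ, ∑ e ∈ cut a b W, x e = n
  wit : ∀ W ∈ Q, ∃ y : E → ℚ, (∀ e, e ∉ frac x → y e = 0) ∧
    (∀ B ∈ blks (rk a b) s x, ∑ e ∈ B, y e = 0) ∧
    (∀ W' ∈ Q, W' ≠ W → ∑ e ∈ cut a b W', y e = 0) ∧ ∑ e ∈ cut a b W, y e ≠ 0

variable {Q : Finset (Finset V)}

/-- ends at `W` outside the children -/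
def tA (Q : Finset (Finset V)) (x : E → ℚ) (W : Finset V) : Finset E :=
  (frac x).filter fun e => a e ∈ W ∧ ∀ K ∈ kids Q W, a e ∉ K

/-- blocks located at `W` -/
noncomputable def bl (s : ℕ) (Q : Finset (Finset V)) (x : E → ℚ) (W : Finset V) :
    Finset (Finset E) :=
  (blks (rk a b) s x).filter fun D => D ⊆ ins a b W ∧ ∀ K ∈ kids Q W, ¬ D ⊆ ins a b K

theorem TT_split (hlam : ∀ X ∈ Q, ∀ Y ∈ Q, X ⊆ Y ∨ Y ⊆ X ∨ Disjoint X Y) (x : E → ℚ)
    (W : Finset V) : TT a b (frac x) W = ∑ K ∈ kids Q W, TT a b (frac x) K +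
      ((tA a Q x W).card + (tA b Q x W).card) := by
  have key : ∀ c : E → V, ((frac x).filter fun e => c e ∈ W).card =
      ∑ K ∈ kids Q W, ((frac x).filter fun e => c e ∈ K).card + (tA c Q x W).card := by
    intro c
    refine split_card (frac x) (kids Q W) (fun e => c e ∈ W) (fun K e => c e ∈ K) (tA c Q x W)
      (fun e => by rw [tA, mem_filter]) ?_ ?_
    · intro K hK e _ he
      exact (mem_kids.1 hK).2.1.1 he
    · intro e _ K hK K' hK' h1 h2
      by_contra hne
      exact disjoint_left.1 (kids_disj hlam K hK K' hK' hne) h1 h2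
  unfold TT
  rw [key a, key b, sum_add_distrib]
  omega

theorem rho_split (hlam : ∀ X ∈ Q, ∀ Y ∈ Q, X ⊆ Y ∨ Y ⊆ X ∨ Disjoint X Y) (W : Finset V) :
    rho a b (blks (rk a b) s x) W = ∑ K ∈ kids Q W, rho a b (blks (rk a b) s x) K +
      (bl a b s Q x W).card := by
  unfold rho
  refine split_card (blks (rk a b) s x) (kids Q W) (fun D => D ⊆ ins a b W)
    (fun K D => D ⊆ ins a b K) (bl a b s Q x W) (fun D => by rw [bl, mem_filter]) ?_ ?_
  · intro K hK D _ hD e he
    obtain ⟨h1, h2⟩ := (mem_ins a b).1 (hD he)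
    exact (mem_ins a b).2 ⟨(mem_kids.1 hK).2.1.1 h1, (mem_kids.1 hK).2.1.1 h2⟩
  · intro D hD K hK K' hK' h1 h2
    by_contra hne
    obtain ⟨e, he⟩ := blks_nonempty hD
    exact disjoint_left.1 (kids_disj hlam K hK K' hK' hne) ((mem_ins a b).1 (h1 he)).1
      ((mem_ins a b).1 (h2 he)).1

theorem kap_split (hlam : ∀ X ∈ Q, ∀ Y ∈ Q, X ⊆ Y ∨ Y ⊆ X ∨ Disjoint X Y)
    (hne : ∀ W ∈ Q, W.Nonempty) (W : Finset V) :
    kap Q W = ∑ K ∈ kids Q W, kap Q K + if W ∈ Q then 1 else 0 := by
  have hW : ∀ Z : Finset V, Z ∈ (if W ∈ Q then {W} else (∅ : Finset (Finset V))) ↔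
      Z ∈ Q ∧ Z ⊆ W ∧ ∀ K ∈ kids Q W, ¬ Z ⊆ K := by
    intro Z
    constructor
    · intro hZ
      by_cases hW : W ∈ Q
      · rw [if_pos hW, mem_singleton] at hZ
        rw [hZ]
        exact ⟨hW, Subset.refl W, fun K hK h2 => (mem_kids.1 hK).2.1.2 h2⟩
      · rw [if_neg hW] at hZ
        exact absurd hZ (notMem_empty _)
    · rintro ⟨h2, h3, h4⟩
      have hZW : Z = W := by
        by_contra hZW
        obtain ⟨K, hK, h5⟩ := kids_cover W.card Z (by omega) h2 (h3.ssubset_of_ne hZW)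
        exact h4 K hK h5
      rw [hZW] at h2 ⊢
      rw [if_pos h2]
      exact mem_singleton_self W
  have h1 := split_card Q (kids Q W) (fun Z => Z ⊆ W) (fun K Z => Z ⊆ K)
    (if W ∈ Q then {W} else (∅ : Finset (Finset V))) hW (by
    intro K hK Z _ hZ
    exact hZ.trans (mem_kids.1 hK).2.1.1) (by
    intro Z hZ K hK K' hK' h1 h2
    by_contra hne'
    obtain ⟨v, hv⟩ := hne Z hZ
    exact disjoint_left.1 (kids_disj hlam K hK K' hK' hne') (h1 hv) (h2 hv))
  unfold kap
  rw [h1]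
  by_cases hW : W ∈ Q
  · rw [if_pos hW, if_pos hW, card_singleton]
  · rw [if_neg hW, if_neg hW, card_empty]

/-- **a node with children** -/
theorem node_kids (H : Set2 a b s x Q) {W : Finset V} (hC : (kids Q W).Nonempty) :
    2 * (bl a b s Q x W).card + 2 ≤
      (tA a Q x W).card + (tA b Q x W).card + 2 * (kids Q W).card := by
  classical
  obtain ⟨G, hG⟩ : ∃ G : Finset (Finset E), G = (bl a b s Q x W).filter fun D =>
      2 ≤ (D ∩ tA a Q x W).card + (D ∩ tA b Q x W).card := ⟨_, rfl⟩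
  obtain ⟨N, hN⟩ : ∃ N : Finset (Finset E), N = (bl a b s Q x W).filter fun D =>
      ¬ 2 ≤ (D ∩ tA a Q x W).card + (D ∩ tA b Q x W).card := ⟨_, rfl⟩
  have hGN : G.card + N.card = (bl a b s Q x W).card := by
    rw [hG, hN]
    exact card_filter_add_card_filter_not _
  have hblk : ∀ D ∈ bl a b s Q x W, D ∈ blks (rk a b) s x := fun D hD => (mem_filter.1 hD).1
  -- good blocks
  have hsum : ∀ c : E → V, ∑ D ∈ G, (D ∩ tA c Q x W).card ≤ (tA c Q x W).card := by
    intro c
    rw [← card_biUnion]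
    · refine card_le_card fun e he => ?_
      obtain ⟨D, -, h1⟩ := mem_biUnion.1 he
      exact (mem_inter.1 h1).2
    · intro D hD D' hD' hne
      change Disjoint _ _
      rw [hG] at hD hD'
      have h1 := blks_disj (hblk D (mem_filter.1 hD).1) (hblk D' (mem_filter.1 hD').1) hne
      exact h1.mono inter_subset_left inter_subset_left
  have hgood : 2 * G.card ≤ (tA a Q x W).card + (tA b Q x W).card := by
    have h1 : ∑ _D ∈ G, 2 ≤ ∑ D ∈ G, ((D ∩ tA a Q x W).card + (D ∩ tA b Q x W).card) :=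
      sum_le_sum fun D hD => by
        rw [hG] at hD
        exact (mem_filter.1 hD).2
    rw [sum_const, smul_eq_mul, sum_add_distrib] at h1
    have h2 := hsum a
    have h3 := hsum b
    omega
  -- bad blocks
  have hrep : ∀ D : Finset E, ∃ e : E, D ∈ N → e ∈ D ∧ e ∉ tA a Q x W ∧ e ∉ tA b Q x W := by
    intro D
    by_cases hD : D ∈ N
    · have hD2 := hD
      rw [hN] at hD2
      obtain ⟨h1, h2⟩ := mem_filter.1 hD2
      have h3 := H.h.two_le_blk (hblk D h1)
      have h4 : ∃ e ∈ D, e ∉ D ∩ (tA a Q x W ∪ tA b Q x W) := by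
        by_contra hcon
        push Not at hcon
        have h5 : D.card ≤ (D ∩ (tA a Q x W ∪ tA b Q x W)).card := card_le_card hcon
        rw [inter_union_distrib_left] at h5
        have h6 := card_union_le (D ∩ tA a Q x W) (D ∩ tA b Q x W)
        omega
      obtain ⟨e, he, h5⟩ := h4
      refine ⟨e, fun _ => ⟨he, fun h6 => h5 ?_, fun h6 => h5 ?_⟩⟩
      · exact mem_inter.2 ⟨he, mem_union_left _ h6⟩
      · exact mem_inter.2 ⟨he, mem_union_right _ h6⟩
    · by_cases hE : Nonempty E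
      · exact ⟨hE.some, fun h1 => absurd h1 hD⟩
      · exfalso
        obtain ⟨K, hK⟩ := hC
        obtain ⟨y, -, -, -, h4⟩ := H.wit K (mem_kids.1 hK).1
        apply h4
        refine sum_eq_zero fun e _ => absurd ⟨e⟩ hE
  choose f hf using hrep
  have hinjD : ∀ D ∈ N, ∀ D' ∈ N, ∀ e : E, e ∈ D → e ∈ D' → D = D' := by
    intro D hD D' hD' e h1 h2
    by_contra hne
    rw [hN] at hD hD'
    exact disjoint_left.1 (blks_disj (hblk D (mem_filter.1 hD).1) (hblk D' (mem_filter.1 hD').1)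
      hne) h1 h2
  have hJcard : (N.image f).card = N.card := by
    refine card_image_of_injOn fun D hD D' hD' hff => ?_
    have h1 := (hf D (mem_coe.1 hD)).1
    have h2 := (hf D' (mem_coe.1 hD')).1
    exact hinjD D (mem_coe.1 hD) D' (mem_coe.1 hD') (f D) h1 (by rw [hff]; exact h2)
  have hbad := bad_le a b H.h hC (kids_disj H.lam)
    (fun K hK => H.ne K (mem_kids.1 hK).1)
    (fun K hK => ⟨H.tins K (mem_kids.1 hK).1, H.rins K (mem_kids.1 hK).1⟩)
    (J := N.image f) (by
      intro e he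
      obtain ⟨D, hD, rfl⟩ := mem_image.1 he
      have h1 := (hf D hD).1
      rw [hN] at hD
      exact blks_sub (hblk D (mem_filter.1 hD).1) h1) (by
      intro e he
      obtain ⟨D, hD, rfl⟩ := mem_image.1 he
      obtain ⟨h1, h2, h3⟩ := hf D hD
      have hD2 := hD
      rw [hN] at hD2
      obtain ⟨h4, -⟩ := mem_filter.1 hD2
      obtain ⟨h5, h6, h7⟩ := mem_filter.1 h4
      have h8 := blks_sub h5 h1
      obtain ⟨h9, h10⟩ := (mem_ins a b).1 (h6 h1)
      have h11 : ∃ K ∈ kids Q W, a (f D) ∈ K := by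
        by_contra hcon
        push Not at hcon
        exact h2 (mem_filter.2 ⟨h8, h9, hcon⟩)
      have h12 : ∃ K ∈ kids Q W, b (f D) ∈ K := by
        by_contra hcon
        push Not at hcon
        exact h3 (mem_filter.2 ⟨h8, h10, hcon⟩)
      refine ⟨h11, h12, fun K hK h13 => ?_⟩
      rcases H.h.blks_tight (H.tins K (mem_kids.1 hK).1) h5 with h14 | h14
      · exact h7 K hK h14
      · exact disjoint_left.1 h14 h1 h13) (by
      intro e he e' he' hmm
      obtain ⟨D, hD, rfl⟩ := mem_image.1 he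
      obtain ⟨D', hD', rfl⟩ := mem_image.1 he'
      have h1 := (hf D hD).1
      have h2 := (hf D' hD').1
      have hD2 := hD
      have hD2' := hD'
      rw [hN] at hD2 hD2'
      have h3 := hblk D (mem_filter.1 hD2).1
      have h4 := hblk D' (mem_filter.1 hD2').1
      have h5 : D = blk (rk a b) s x (f D) := by
        by_contra hne
        have h6 : blk (rk a b) s x (f D) ∈ blks (rk a b) s x :=
          mem_image_of_mem _ (blks_sub h3 h1)
        exact disjoint_left.1 (blks_disj h3 h6 hne) h1 (mem_blk_self (blks_sub h3 h1))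
      have h6 : D' = blk (rk a b) s x (f D') := by
        by_contra hne
        have h7 : blk (rk a b) s x (f D') ∈ blks (rk a b) s x :=
          mem_image_of_mem _ (blks_sub h4 h2)
        exact disjoint_left.1 (blks_disj h4 h7 hne) h2 (mem_blk_self (blks_sub h4 h2))
      have h7 : D = D' := by
        rw [h5, h6]
        exact (blk_eq_iff (blks_sub h3 h1)).2 hmm
      rw [h7])
  rw [hJcard] at hbad
  omega

/-- the fractional edges inside `W`, located at `W` -/
theorem two_bl_le (H : Set2 a b s x Q) (W : Finset V) :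
    2 * (bl a b s Q x W).card ≤
      ((frac x).filter fun e => e ∈ ins a b W ∧ ∀ K ∈ kids Q W, e ∉ ins a b K).card := by
  classical
  have h1 : ∑ _D ∈ bl a b s Q x W, 2 ≤ ∑ D ∈ bl a b s Q x W, D.card :=
    sum_le_sum fun D hD => H.h.two_le_blk (mem_filter.1 hD).1
  rw [sum_const, smul_eq_mul] at h1
  have h2 : ∑ D ∈ bl a b s Q x W, D.card = ((bl a b s Q x W).biUnion id).card := by
    rw [card_biUnion]
    · rfl
    · intro D hD D' hD' hne
      exact blks_disj (mem_filter.1 hD).1 (mem_filter.1 hD').1 hne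
  have h3 : (bl a b s Q x W).biUnion id ⊆
      (frac x).filter fun e => e ∈ ins a b W ∧ ∀ K ∈ kids Q W, e ∉ ins a b K := by
    intro e he
    obtain ⟨D, hD, h4⟩ := mem_biUnion.1 he
    obtain ⟨h5, h6, h7⟩ := mem_filter.1 hD
    refine mem_filter.2 ⟨blks_sub h5 h4, h6 h4, fun K hK h8 => ?_⟩
    rcases H.h.blks_tight (H.tins K (mem_kids.1 hK).1) h5 with h9 | h9
    · exact h7 K hK h9
    · exact disjoint_left.1 h9 h4 h8
  have h4 := card_le_card h3
  omega

/-- **a leaf** -/
theorem node_leaf (H : Set2 a b s x Q) {W : Finset V} (hC : kids Q W = ∅) :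
    4 * (bl a b s Q x W).card + (cut a b W ∩ frac x).card ≤ TT a b (frac x) W := by
  classical
  have h1 := two_bl_le a b H W
  have h2 : TT a b (frac x) W = 2 * ((frac x).filter fun e => e ∈ ins a b W).card +
      (cut a b W ∩ frac x).card := by
    have e1 : ((frac x).filter fun e => e ∈ ins a b W) =
        ((frac x).filter fun e => a e ∈ W) ∩ ((frac x).filter fun e => b e ∈ W) := by
      ext e
      rw [mem_inter, mem_filter, mem_filter, mem_filter, mem_ins]
      tauto
    have e2 : (cut a b W ∩ frac x) = (((frac x).filter fun e => a e ∈ W) ∪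
        ((frac x).filter fun e => b e ∈ W)) \ (((frac x).filter fun e => a e ∈ W) ∩
        ((frac x).filter fun e => b e ∈ W)) := by
      ext e
      rw [mem_inter, mem_sdiff, mem_union, mem_inter, mem_filter, mem_filter, mem_cut]
      tauto
    have e3 := card_union_add_card_inter ((frac x).filter fun e => a e ∈ W)
      ((frac x).filter fun e => b e ∈ W)
    have e4 : (((frac x).filter fun e => a e ∈ W) ∩ ((frac x).filter fun e => b e ∈ W)).card ≤
        (((frac x).filter fun e => a e ∈ W) ∪ ((frac x).filter fun e => b e ∈ W)).card :=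
      card_le_card (inter_subset_left.trans subset_union_left)
    unfold TT
    rw [e1, e2, card_sdiff_of_subset (inter_subset_left.trans subset_union_left)]
    omega
  have h3 : ((frac x).filter fun e => e ∈ ins a b W ∧ ∀ K ∈ kids Q W, e ∉ ins a b K).card ≤
      ((frac x).filter fun e => e ∈ ins a b W).card := by
    refine card_le_card fun e he => ?_
    exact mem_filter.2 ⟨(mem_filter.1 he).1, (mem_filter.1 he).2.1⟩
  omega

theorem touch_sum (y : E → ℚ) (W K : Finset V) (hKW : K ⊆ W) :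
    ∑ e ∈ univ.filter (fun e => (a e ∈ W ∨ b e ∈ W) ∧ ¬ (a e ∈ K ∨ b e ∈ K)), y e =
      ∑ e ∈ ins a b W, y e + ∑ e ∈ cut a b W, y e -
        ∑ e ∈ ins a b K, y e - ∑ e ∈ cut a b K, y e := by
  classical
  unfold ins cut
  rw [sum_filter, sum_filter, sum_filter, sum_filter, sum_filter, ← sum_add_distrib,
    ← sum_sub_distrib, ← sum_sub_distrib]
  refine sum_congr rfl fun e _ => ?_
  have h1 : a e ∈ K → a e ∈ W := fun h => hKW h
  have h2 : b e ∈ K → b e ∈ W := fun h => hKW h
  by_cases c1 : a e ∈ W <;> by_cases c2 : b e ∈ W <;> by_cases c3 : a e ∈ K <;>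
    by_cases c4 : b e ∈ K <;> simp_all

/-- **a node with one child** -/
theorem node_one (H : Set2 a b s x Q) {W K : Finset V} (hW : W ∈ Q) (hC : kids Q W = {K}) :
    2 * (bl a b s Q x W).card + 2 ≤ (tA a Q x W).card + (tA b Q x W).card := by
  classical
  have hK : K ∈ kids Q W := by
    rw [hC]
    exact mem_singleton_self K
  obtain ⟨hKQ, hKW, -⟩ := mem_kids.1 hK
  obtain ⟨L, hL⟩ : ∃ L : Finset E, L = (frac x).filter fun e =>
      e ∈ ins a b W ∧ ∀ K ∈ kids Q W, e ∉ ins a b K := ⟨_, rfl⟩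
  obtain ⟨G, hG⟩ : ∃ G : Finset E, G = (univ.filter fun e =>
      (a e ∈ W ∨ b e ∈ W) ∧ ¬ (a e ∈ K ∨ b e ∈ K)) ∩ frac x := ⟨_, rfl⟩
  have h1 := two_bl_le a b H W
  rw [← hL] at h1
  have h2 : L.card + G.card ≤ (tA a Q x W).card + (tA b Q x W).card := by
    have e1 := card_union_add_card_inter L G
    have e2 := card_union_add_card_inter (tA a Q x W) (tA b Q x W)
    have hcl : ∀ v, (∀ K' ∈ kids Q W, v ∉ K') ↔ v ∉ K := by
      intro v
      rw [hC]
      constructor
      · intro h3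
        exact h3 K (mem_singleton_self K)
      · intro h3 K' hK'
        rw [mem_singleton.1 hK']
        exact h3
    have hmA : ∀ e, e ∈ tA a Q x W ↔ e ∈ frac x ∧ a e ∈ W ∧ a e ∉ K := by
      intro e
      unfold tA
      rw [mem_filter, hcl]
    have hmB : ∀ e, e ∈ tA b Q x W ↔ e ∈ frac x ∧ b e ∈ W ∧ b e ∉ K := by
      intro e
      unfold tA
      rw [mem_filter, hcl]
    have hmL : ∀ e, e ∈ L ↔ e ∈ frac x ∧ (a e ∈ W ∧ b e ∈ W) ∧ ¬ (a e ∈ K ∧ b e ∈ K) := by
      intro e
      rw [hL, mem_filter, mem_ins]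
      constructor
      · rintro ⟨h3, h4, h5⟩
        refine ⟨h3, h4, fun h6 => h5 K hK ((mem_ins a b).2 h6)⟩
      · rintro ⟨h3, h4, h5⟩
        refine ⟨h3, h4, fun K' hK' h6 => h5 ?_⟩
        rw [hC, mem_singleton] at hK'
        rw [hK'] at h6
        exact (mem_ins a b).1 h6
    have hmG : ∀ e, e ∈ G ↔ e ∈ frac x ∧ (a e ∈ W ∨ b e ∈ W) ∧ ¬ (a e ∈ K ∨ b e ∈ K) := by
      intro e
      rw [hG, mem_inter, mem_filter]
      constructor
      · rintro ⟨⟨-, h3⟩, h4⟩
        exact ⟨h4, h3⟩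
      · rintro ⟨h3, h4⟩
        exact ⟨⟨mem_univ e, h4⟩, h3⟩
    have e3 : (L ∪ G).card ≤ (tA a Q x W ∪ tA b Q x W).card := by
      refine card_le_card fun e he => ?_
      rw [mem_union, hmL, hmG] at he
      rw [mem_union, hmA, hmB]
      tauto
    have e4 : (L ∩ G).card ≤ (tA a Q x W ∩ tA b Q x W).card := by
      refine card_le_card fun e he => ?_
      rw [mem_inter, hmL, hmG] at he
      rw [mem_inter, hmA, hmB]
      tauto
    omega
  have h3 : 2 ≤ G.card := by
    obtain ⟨y, hy1, hy2, hy3, hy4⟩ := H.wit W hW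
    have hKne : K ≠ W := fun h => hKW.2 (by rw [h])
    by_contra hcon
    rcases Nat.lt_or_ge G.card 1 with h4 | h4
    · have h5 : G = ∅ := card_eq_zero.1 (by omega)
      have h6 := touch_sum a b y W K hKW.1
      have h7 : ∑ e ∈ univ.filter (fun e => (a e ∈ W ∨ b e ∈ W) ∧ ¬ (a e ∈ K ∨ b e ∈ K)), y e
          = 0 := by
        refine sum_eq_zero fun e he => hy1 e fun h8 => ?_
        have h9 : e ∈ G := by
          rw [hG]
          exact mem_inter.2 ⟨he, h8⟩
        rw [h5] at h9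
        exact notMem_empty e h9
      have h8 : ∑ e ∈ ins a b W, y e = 0 :=
        sum_zero hy1 hy2 fun D hD => H.h.blks_tight (H.tins W hW) hD
      have h9 : ∑ e ∈ ins a b K, y e = 0 :=
        sum_zero hy1 hy2 fun D hD => H.h.blks_tight (H.tins K hKQ) hD
      have h10 := hy3 K hKQ hKne
      rw [h7, h8, h9, h10] at h6
      apply hy4
      linarith
    · have h5 : G.card = 1 := by omega
      obtain ⟨e0, he0⟩ := card_eq_one.1 h5
      have h6 := touch_sum a b x W K hKW.1
      have hone : ∑ e ∈ univ.filter (fun e => (a e ∈ W ∨ b e ∈ W) ∧ ¬ (a e ∈ K ∨ b e ∈ K)), x e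
          = x e0 + (((univ.filter fun e => (a e ∈ W ∨ b e ∈ W) ∧
            ¬ (a e ∈ K ∨ b e ∈ K)).filter fun e => x e = 1).card : ℚ) := by
        rw [← sum_filter_add_sum_filter_not (univ.filter fun e =>
          (a e ∈ W ∨ b e ∈ W) ∧ ¬ (a e ∈ K ∨ b e ∈ K)) (fun e => e ∈ frac x)]
        congr 1
        · rw [filter_mem_eq_inter, ← hG, he0, sum_singleton]
        · rw [sum_filter, card_filter, Nat.cast_sum]
          refine sum_congr rfl fun e _ => ?_
          by_cases h7 : e ∈ frac x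
          · rw [if_neg (not_not.2 h7), if_neg (mem_frac.1 h7).2, Nat.cast_zero]
          · rw [if_pos h7]
            rw [mem_frac] at h7
            by_cases h8 : x e = 1
            · rw [if_pos h8, h8, Nat.cast_one]
            · rw [if_neg h8, Nat.cast_zero]
              by_contra h9
              exact h7 ⟨h9, h8⟩
      obtain ⟨n1, hn1⟩ := H.int W hW
      obtain ⟨n2, hn2⟩ := H.int K hKQ
      have h7 := H.tins W hW
      have h8 := H.tins K hKQ
      unfold Tight at h7 h8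
      have h9 : e0 ∈ frac x := by
        have h10 : e0 ∈ G := by
          rw [he0]
          exact mem_singleton_self e0
        rw [hG] at h10
        exact (mem_inter.1 h10).2
      refine H.h.not_single h9 (n := (s : ℤ) * rk a b (ins a b W) + n1 -
        s * rk a b (ins a b K) - n2 - (((univ.filter fun e => (a e ∈ W ∨ b e ∈ W) ∧
            ¬ (a e ∈ K ∨ b e ∈ K)).filter fun e => x e = 1).card : ℤ)) ?_
      rw [hone, h7, h8, hn1, hn2] at h6
      push_cast
      linarith
  omega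

end Pool.Agent.Lib.MP_21a058_co.Duo
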