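import Pool.Agent.Lib.MP_21a058_co.Duo.Rep
import Pool.Agent.Lib.MP_21a058_co.Thin.Base
import Pool.Agent.Lib.MP_21a058_co.P.Rank
import Pool.Agent.Lib.MP_21a058_co.Every.Tr
import Pool.Agent.Lib.MP_21a058_co.Every.Defs

/-!
MP_21a058_co, two-sided rounding with trees on both sides: the region rank and spanning trees which are
connected on every member of the family.
-/

set_option autoImplicit false
set_option linter.unusedSectionVars false

namespace Pool.Agent.Lib.MP_21a058_co.Duo

open Finset MP21a058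
open Pool.Agent.Lib.MP_21a058_co.P
open Pool.Agent.Lib.MP_21a058_co.Every
open Pool.Agent.Lib.MP_21a058_co.Thin (Fam)

variable {V E : Type} [Fintype V] [DecidableEq V] [Fintype E] [DecidableEq E]

/-- the hypothesis on representatives of `side_of` for the region rank -/
theorem rep_hE (L : Fam V) (a b : E → V) {K : Finset (Finset V)} (hK : K ⊆ L.F) :
    ∀ C ⊆ K, C.Nonempty → (∀ W ∈ C, ∀ W' ∈ C, W ≠ W' → Disjoint W W') → ∀ J : Finset E,
      J.card ≤ L.R a b J → (∀ e ∈ J, (∃ W ∈ C, a e ∈ W) ∧ (∃ W ∈ C, b e ∈ W) ∧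
        ∀ W ∈ C, e ∉ ins a b W) → J.card + 1 ≤ C.card := by
  intro C hC hne hd J hJ hJC
  have h2 := R_between L a b (hC.trans hK) hne hd (J := J) fun e he => by
    obtain ⟨h3, h4, h5⟩ := hJC e he
    exact ⟨h3, h4, fun W hW h6 => h5 W hW ((mem_ins a b).2 h6)⟩
  omega

/-- a laminar family together with the whole set and the singletons -/
theorem exists_fam (hV : Nonempty V) {L0 : Finset (Finset V)} (hne : ∀ Y ∈ L0, Y.Nonempty)
    (hlam : ∀ X ∈ L0, ∀ Y ∈ L0, X ⊆ Y ∨ Y ⊆ X ∨ Disjoint X Y) :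
    ∃ L : Fam V, ∀ Y, Y ∈ L.F ↔ Y ∈ L0 ∨ Y = univ ∨ ∃ x, Y = {x} := by
  classical
  have hm : ∀ Y : Finset V, Y ∈ L0 ∪ ({univ} ∪ univ.image fun x : V => ({x} : Finset V)) ↔
      Y ∈ L0 ∨ Y = univ ∨ ∃ x, Y = {x} := by
    intro Y
    simp only [mem_union, mem_singleton, mem_image, mem_univ, true_and]
    constructor
    · rintro (h | h | ⟨x, h⟩)
      · exact Or.inl h
      · exact Or.inr (Or.inl h)
      · exact Or.inr (Or.inr ⟨x, h.symm⟩)
    · rintro (h | h | ⟨x, h⟩)
      · exact Or.inl h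
      · exact Or.inr (Or.inl h)
      · exact Or.inr (Or.inr ⟨x, h.symm⟩)
  have hs : ∀ (x : V) (Y : Finset V), ({x} : Finset V) ⊆ Y ∨ Y ⊆ {x} ∨ Disjoint {x} Y := by
    intro x Y
    by_cases h : x ∈ Y
    · exact Or.inl (singleton_subset_iff.2 h)
    · exact Or.inr (Or.inr (disjoint_singleton_left.2 h))
  refine ⟨⟨L0 ∪ ({univ} ∪ univ.image fun x : V => ({x} : Finset V)), ?_, ?_, ?_, ?_⟩, hm⟩
  · intro X hX Y hY
    rw [hm] at hX hY
    rcases hY with hY | rfl | ⟨y, rfl⟩
    · rcases hX with hX | rfl | ⟨x, rfl⟩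
      · exact hlam X hX Y hY
      · exact Or.inr (Or.inl (subset_univ Y))
      · exact hs x Y
    · exact Or.inl (subset_univ X)
    · rcases hs y X with h | h | h
      · exact Or.inr (Or.inl h)
      · exact Or.inl h
      · exact Or.inr (Or.inr h.symm)
  · rw [hm]
    exact Or.inr (Or.inl rfl)
  · intro x
    rw [hm]
    exact Or.inr (Or.inr ⟨x, rfl⟩)
  · intro X hX
    rw [hm] at hX
    rcases hX with hX | rfl | ⟨x, rfl⟩
    · exact hne X hX
    · exact univ_nonempty
    · exact singleton_nonempty x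

/-- the region rank is a rank function -/
theorem R_Rk (L : Fam V) (a b : E → V) : Rk (L.R a b) where
  emp := (L.M a b).emp
  mono := fun s t h => (L.M a b).mono s t h
  one := by
    intro s e
    have h1 := (L.M a b).unit e s
    have h2 : @insert E (Finset E) (@Finset.instInsert E (Classical.decEq E)) e s =
        insert e s := by
      ext z
      rw [@mem_insert E (Classical.decEq E), mem_insert]
    have h3 : ∀ S, (L.M a b).r S = L.R a b S := fun S => rfl
    rw [← h3, ← h3, ← h2]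
    exact h1
  sub := by
    intro s t
    have h1 := (L.M a b).sub s t
    have h2 : @Union.union (Finset E) (@Finset.instUnion E (Classical.decEq E)) s t = s ∪ t := by
      ext z
      rw [@mem_union E (Classical.decEq E), mem_union]
    have h3 : @Inter.inter (Finset E) (@Finset.instInter E (Classical.decEq E)) s t = s ∩ t := by
      ext z
      rw [@mem_inter E (Classical.decEq E), mem_inter]
    have h4 : ∀ S, (L.M a b).r S = L.R a b S := fun S => rfl
    rw [← h4, ← h4, ← h4, ← h4, ← h2, ← h3]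
    exact h1

/-- the rank of edges with both ends in `U` -/
theorem R_ends (L : Fam V) (a b : E → V) {S : Finset E} {U : Finset V} (hU : U.Nonempty)
    (hS : ∀ e ∈ S, a e ∈ U ∧ b e ∈ U) : L.R a b S + 1 ≤ U.card := by
  classical
  have h1 : L.R a b S ≤ L.R a b (S.filter fun e => a e ≠ b e) := by
    refine sum_le_sum fun Y _ => ?_
    have hle : L.K a b Y (S.filter fun e => a e ≠ b e) ≤ L.K a b Y S := by
      rintro g ⟨hg1, hg2, hg3⟩
      refine ⟨hg1, hg2, fun e he h h' => ?_⟩
      by_cases hab : a e = b e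
      · rw [hab]
      · exact hg3 e (mem_filter.2 ⟨he, hab⟩) h h'
    have h2 := Submodule.finrank_mono hle
    unfold Fam.rk
    omega
  have h2 := R_between L a b (C := U.image fun x => ({x} : Finset V)) (by
    intro W hW
    obtain ⟨x, -, rfl⟩ := mem_image.1 hW
    exact L.sing x) (hU.image _) (by
    intro W hW W' hW' hne
    obtain ⟨x, -, rfl⟩ := mem_image.1 hW
    obtain ⟨y, -, rfl⟩ := mem_image.1 hW'
    rw [disjoint_singleton]
    rintro rfl
    exact hne rfl) (J := S.filter fun e => a e ≠ b e) (by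
    intro e he
    obtain ⟨h3, h4⟩ := mem_filter.1 he
    refine ⟨⟨{a e}, mem_image_of_mem _ (hS e h3).1, mem_singleton_self _⟩,
      ⟨{b e}, mem_image_of_mem _ (hS e h3).2, mem_singleton_self _⟩, ?_⟩
    rintro W hW ⟨h5, h6⟩
    obtain ⟨x, -, rfl⟩ := mem_image.1 hW
    exact h4 ((mem_singleton.1 h5).trans (mem_singleton.1 h6).symm))
  have h3 : (U.image fun x => ({x} : Finset V)).card ≤ U.card := card_image_le
  omega

/-- a spanning tree which is connected on every member of the family -/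
def TreeL (L : Fam V) (a b : E → V) (T : Finset E) : Prop :=
  Tree a b T ∧ ∀ Y ∈ L.F, (T ∩ ins a b Y).card + 1 = Y.card

/-- it is enough to know the members other than the whole set and the singletons -/
theorem treeL_of (L : Fam V) {a b : E → V} {L0 : Finset (Finset V)}
    (hm : ∀ Y, Y ∈ L.F ↔ Y ∈ L0 ∨ Y = univ ∨ ∃ x, Y = {x}) {T : Finset E} (hT : Tree a b T)
    (h : ∀ Y ∈ L0, (T ∩ ins a b Y).card + 1 = Y.card) : TreeL L a b T := by
  refine ⟨hT, fun Y hY => ?_⟩
  rcases (hm Y).1 hY with hY | rfl | ⟨x, rfl⟩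
  · exact h Y hY
  · have h1 : T ∩ ins a b univ = T := by
      apply inter_eq_left.2
      intro e _
      exact (mem_ins a b).2 ⟨mem_univ _, mem_univ _⟩
    rw [h1, card_univ]
    exact hT.2
  · have h1 := hT.ins_le a b (singleton_nonempty x)
    rw [card_singleton] at h1 ⊢
    omega

variable {L : Fam V} {a b : E → V} {T H A : Finset E}

/-- a part of a tree is independent -/
theorem tree_sub_card (hT : Tree a b T) {F : Finset E} (hF : F ⊆ T) :
    F.card ≤ rk a b F := by
  have h1 : Fintype.card V ≤ rk a b T + 1 := by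
    have := card_le_of_conn a b hT.1
    rwa [card_univ] at this
  have h2 := hT.2
  have h3 : rk a b T ≤ rk a b F + (T \ F).card := by
    apply rk_le_add_card
    rw [union_sdiff_of_subset hF]
  have h4 : (T \ F).card + F.card = T.card := card_sdiff_add_card_eq_card hF
  omega

/-- connected on every member, cut form -/
theorem TreeL.conn (h : TreeL L a b T) (hTH : T ⊆ H) : ∀ Y ∈ L.F, Thin.ConnOn a b H Y := by
  intro Y hY
  have h1 : ConnOn a b (T ∩ ins a b Y) Y := by
    apply conn_of_card_le a b inter_subset_right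
    have h2 := h.2 Y hY
    have h3 := tree_sub_card h.1 (F := T ∩ ins a b Y) inter_subset_left
    omega
  rintro S ⟨x, hxY, hxS⟩ ⟨y, hyY, hyS⟩
  obtain ⟨e, he, h2, h3⟩ := h1 (Y ∩ S) inter_subset_left ⟨x, mem_inter.2 ⟨hxY, hxS⟩⟩
    (fun h4 => hyS (mem_inter.1 (h4 ▸ hyY)).2)
  obtain ⟨h4, h5⟩ := (mem_ins a b).1 h2
  refine ⟨e, hTH (mem_inter.1 he).1, h4, h5, fun h6 => ?_⟩
  rw [mem_cut, mem_inter, mem_inter] at h3
  exact h3 ⟨fun h7 => ⟨h5, h6.1 h7.2⟩, fun h7 => ⟨h4, h6.2 h7.2⟩⟩

/-- a base of the region rank is connected -/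
theorem TreeL.base_conn (h : TreeL L a b T) (hTH : T ⊆ H) (hAH : A ⊆ H)
    (hA : L.R a b A = L.R a b H) : ConnOn a b A univ := by
  have h1 := L.base_conn a b hAH hA (h.conn hTH)
  intro Y _ hY hYu
  obtain ⟨x, hx⟩ := hY
  obtain ⟨y, hy⟩ : ∃ y, y ∉ Y := by
    by_contra hcon
    push Not at hcon
    exact hYu (eq_univ_iff_forall.2 hcon)
  obtain ⟨e, he, -, -, h2⟩ := h1 Y ⟨x, mem_univ _, hx⟩ ⟨y, mem_univ _, hy⟩
  exact ⟨e, he, (mem_ins a b).2 ⟨mem_univ _, mem_univ _⟩, (mem_cut a b).2 h2⟩

/-- **the start**: a part of the tree is independent for the region rank -/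
theorem TreeL.indep (h : TreeL L a b T) {F : Finset E} (hF : F ⊆ T) : F.card ≤ L.R a b F := by
  have hR := R_Rk L a b
  obtain ⟨A, hA1, hA2, hA3⟩ := hR.exists_indep (x := T) (m := L.R a b T) le_rfl
  have h1 := card_le_of_conn a b (h.base_conn Subset.rfl hA1 hA3)
  rw [card_univ] at h1
  have h2 := rk_le_card a b A
  have h3 := h.1.2
  have h4 : L.R a b T ≤ L.R a b F + (T \ F).card := by
    have h5 := hR.union_le F (T \ F)
    rw [union_sdiff_of_subset hF] at h5
    exact h5
  have h5 : (T \ F).card + F.card = T.card := card_sdiff_add_card_eq_card hF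
  omega

/-- the rank inside a member -/
theorem TreeL.R_ins (h : TreeL L a b T) (hTH : T ⊆ H) {Y : Finset V} (hY : Y ∈ L.F) :
    L.R a b (H ∩ ins a b Y) + 1 = Y.card := by
  have h1 := R_ends L a b (S := H ∩ ins a b Y) (L.ne Y hY) fun e he =>
    (mem_ins a b).1 (mem_inter.1 he).2
  have h2 := h.indep (F := T ∩ ins a b Y) inter_subset_left
  have h3 := (R_Rk L a b).mono (T ∩ ins a b Y) (H ∩ ins a b Y)
    (inter_subset_inter_right hTH)
  have h4 := h.2 Y hY
  omega

/-- the total rank -/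
theorem TreeL.R_top (h : TreeL L a b T) (hTH : T ⊆ H) :
    L.R a b H + 1 = Fintype.card V := by
  have h1 := h.R_ins hTH L.top
  have h2 : H ∩ ins a b univ = H := by
    apply inter_eq_left.2
    intro e _
    exact (mem_ins a b).2 ⟨mem_univ _, mem_univ _⟩
  rw [h2, card_univ] at h1
  exact h1

/-- **the end**: a base of the region rank is a spanning tree -/
theorem TreeL.base (h : TreeL L a b T) (hTH : T ⊆ H) (hAH : A ⊆ H)
    (hA : L.R a b A = L.R a b H) (hc : A.card = L.R a b H) : Tree a b A := by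
  refine ⟨h.base_conn hTH hAH hA, ?_⟩
  rw [hc]
  exact h.R_top hTH

end Pool.Agent.Lib.MP_21a058_co.Duo
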