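import Pool.Agent.Lib.MP_21a058_co.Duo.Blk
import Pool.Agent.Lib.MP_21a058_co.Thin.Fam
import Pool.Agent.Lib.MP_21a058_co.Thin.Reg
import Pool.Agent.Lib.MP_21a058_co.P.Defs

/-!
MP_21a058_co, two-sided rounding with trees on both sides: the region rank of edges between disjoint members
of the family, and representatives of different blocks.
-/

set_option autoImplicit false
set_option linter.unusedSectionVars false

namespace Pool.Agent.Lib.MP_21a058_co.Duo

open Finset MP21a058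
open Pool.Agent.Lib.MP_21a058_co.P
open Pool.Agent.Lib.MP_21a058_co.Thin (Fam)

variable {V E : Type} [Fintype V]

/-- a function of the region of `Y` for the edges `z → w z`, `z ∈ S` not first, is constant on `S ∩ Y` -/
theorem R_between_const (L : Fam V) (ν : V → ℕ) (S : Finset V) (m : V) (w : V → V)
    (hm : ∀ z ∈ S, z ≠ m → ∀ Y ∈ L.F, z ∈ Y → (∃ z' ∈ S, z' ∈ Y ∧ ν z' < ν z) →
      w z ∈ S ∧ w z ∈ Y ∧ ν (w z) < ν z)
    {Y : Finset V} (hY : Y ∈ L.F) {K : V → ℚ}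
    (hK : ∀ z ∈ S, z ≠ m → z ∈ Y → w z ∈ Y → K z = K (w z))
    (hmin : ∀ z ∈ S, ν m ≤ ν z) (m0 : V) (hm0 : m0 ∈ S) (hm0Y : m0 ∈ Y)
    (hm0min : ∀ z ∈ S, z ∈ Y → ν m0 ≤ ν z) (hν : Function.Injective ν) :
    ∀ (n : ℕ) (z : V), ν z ≤ n → z ∈ S → z ∈ Y → K z = K m0 := by
  intro n
  induction n with
  | zero =>
    intro z hz hzS hzY
    have h1 := hm0min z hzS hzY
    have h2 : ν m0 = ν z := by omega
    rw [hν h2]
  | succ n ih =>
    intro z hz hzS hzY
    by_cases h1 : ν m0 = ν z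
    · rw [hν h1]
    · have h2 := hm0min z hzS hzY
      have h3 : z ≠ m := by
        rintro rfl
        have := hmin m0 hm0
        omega
      obtain ⟨h4, h5, h6⟩ := hm z hzS h3 Y hY hzY ⟨m0, hm0, hm0Y, by omega⟩
      rw [hK z hzS h3 hzY h5]
      exact ih (w z) (by omega) h4 h5

/-- **the region rank of edges between disjoint members** -/
theorem R_between (L : Fam V) (a b : E → V) {C : Finset (Finset V)} (hCF : C ⊆ L.F)
    (hC : C.Nonempty) (hd : ∀ W ∈ C, ∀ W' ∈ C, W ≠ W' → Disjoint W W') {J : Finset E}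
    (hJ : ∀ e ∈ J, (∃ W ∈ C, a e ∈ W) ∧ (∃ W ∈ C, b e ∈ W) ∧ ∀ W ∈ C, ¬ (a e ∈ W ∧ b e ∈ W)) :
    L.R a b J + 1 ≤ C.card := by
  classical
  -- representatives
  have hch : ∀ W : Finset V, ∃ z : V, W ∈ C → z ∈ W := by
    intro W
    by_cases hW : W ∈ C
    · obtain ⟨z, hz⟩ := L.ne W (hCF hW)
      exact ⟨z, fun _ => hz⟩
    · obtain ⟨W0, hW0⟩ := hC
      obtain ⟨z, -⟩ := L.ne W0 (hCF hW0)
      exact ⟨z, fun h => absurd h hW⟩
  choose f hf using hch
  let S : Finset V := C.image f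
  have hSc : S.card ≤ C.card := card_image_le
  have hSne : S.Nonempty := hC.image f
  let ν : V → ℕ := fun v => (Fintype.equivFin V v).1
  have hν : Function.Injective ν := fun v v' h =>
    (Fintype.equivFin V).injective (Fin.ext h)
  obtain ⟨m, hmS, hmin⟩ := exists_min_image S ν hSne
  -- the predecessor
  have hw : ∀ z : V, ∃ w : V, z ∈ S → z ≠ m → ∀ Y ∈ L.F, z ∈ Y →
      (∃ z' ∈ S, z' ∈ Y ∧ ν z' < ν z) → w ∈ S ∧ w ∈ Y ∧ ν w < ν z := by
    intro z
    by_cases hz : z ∈ S ∧ z ≠ m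
    · obtain ⟨hzS, hzm⟩ := hz
      have hlt : ν m < ν z := lt_of_le_of_ne (hmin z hzS) fun h => hzm (hν h).symm
      obtain ⟨Y0, hY0, hY0min⟩ := exists_min_image
        (L.F.filter fun Y => z ∈ Y ∧ ∃ z' ∈ S, z' ∈ Y ∧ ν z' < ν z) card
        ⟨univ, mem_filter.2 ⟨L.top, mem_univ _, m, hmS, mem_univ _, hlt⟩⟩
      obtain ⟨h1, h2, z', h3, h4, h5⟩ := mem_filter.1 hY0
      refine ⟨z', fun _ _ Y hY hzY hex => ⟨h3, ?_, h5⟩⟩
      have h6 := hY0min Y (mem_filter.2 ⟨hY, hzY, hex⟩)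
      rcases L.lam Y0 h1 Y hY with h7 | h7 | h7
      · exact h7 h4
      · rw [eq_of_subset_of_card_le h7 h6]
        exact h4
      · exact absurd hzY (disjoint_left.1 h7 h2)
    · exact ⟨z, fun h1 h2 => absurd ⟨h1, h2⟩ hz⟩
  choose w hw using hw
  -- the ranks of the regions
  have key : ∀ Y ∈ L.F, L.rk a b Y J ≤ L.rk id w Y (S.erase m) := by
    intro Y hY
    have hle : L.K id w Y (S.erase m) ≤ L.K a b Y J := by
      rintro g ⟨hg1, hg2, hg3⟩
      refine ⟨hg1, hg2, fun e he hae hbe => ?_⟩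
      obtain ⟨⟨W, hW, haW⟩, ⟨W', hW', hbW'⟩, hno⟩ := hJ e he
      have hbW : b e ∉ W := fun h => hno W hW ⟨haW, h⟩
      have haW' : a e ∉ W' := fun h => hno W' hW' ⟨h, hbW'⟩
      have hWY : W ⊂ Y := by
        rcases L.lam W (hCF hW) Y hY with h1 | h1 | h1
        · exact ⟨h1, fun h2 => hbW (h2 hbe)⟩
        · exact absurd (h1 hbe) hbW
        · exact absurd hae (disjoint_left.1 h1 haW)
      have hWY' : W' ⊂ Y := by
        rcases L.lam W' (hCF hW') Y hY with h1 | h1 | h1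
        · exact ⟨h1, fun h2 => haW' (h2 hae)⟩
        · exact absurd (h1 hae) haW'
        · exact absurd hbe (disjoint_left.1 h1 hbW')
      have e1 : g (a e) = g (f W) := hg2 W (hCF hW) hWY _ haW _ (hf W hW)
      have e2 : g (b e) = g (f W') := hg2 W' (hCF hW') hWY' _ hbW' _ (hf W' hW')
      have hfS : f W ∈ S := mem_image_of_mem f hW
      have hfS' : f W' ∈ S := mem_image_of_mem f hW'
      have hfY : f W ∈ Y := hWY.1 (hf W hW)
      have hfY' : f W' ∈ Y := hWY'.1 (hf W' hW')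
      obtain ⟨m0, hm0, hm0min⟩ := exists_min_image (S.filter fun z => z ∈ Y) ν
        ⟨f W, mem_filter.2 ⟨hfS, hfY⟩⟩
      obtain ⟨hm0S, hm0Y⟩ := mem_filter.1 hm0
      have hcon := R_between_const L ν S m w hw hY (K := g)
        (fun z hz hzm hzY hwY => hg3 z (mem_erase.2 ⟨hzm, hz⟩) hzY hwY)
        hmin m0 hm0S hm0Y (fun z hz hzY => hm0min z (mem_filter.2 ⟨hz, hzY⟩)) hν
      rw [e1, e2, hcon _ (f W) le_rfl hfS hfY, hcon _ (f W') le_rfl hfS' hfY']
    have h1 := Submodule.finrank_mono hle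
    have h0 : L.K a b Y ∅ = L.K id w Y ∅ := by
      apply le_antisymm
      · rintro g ⟨hg1, hg2, -⟩
        exact ⟨hg1, hg2, fun e he => absurd he (notMem_empty e)⟩
      · rintro g ⟨hg1, hg2, -⟩
        exact ⟨hg1, hg2, fun e he => absurd he (notMem_empty e)⟩
    unfold Fam.rk
    rw [h0]
    omega
  have h1 : L.R a b J ≤ (S.erase m).card := by
    calc L.R a b J ≤ ∑ Y ∈ L.F, (L.reg id w (S.erase m) Y).card :=
          sum_le_sum fun Y hY => (key Y hY).trans (L.rk_le_card id w Y _)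
      _ ≤ (S.erase m).card := L.reg_sum_le id w _
  rw [card_erase_of_mem hmS] at h1
  have h2 := card_pos.2 hSne
  omega

variable [Fintype E] [DecidableEq V] [DecidableEq E]

/-- **representatives of different blocks between disjoint members** -/
theorem rep_of (L : Fam V) (a b : E → V) {r : Finset E → ℕ} {s : ℕ} {x : E → ℚ}
    (h : Feas r s x) (hr : ∀ S, r S ≤ L.R a b S) {C : Finset (Finset V)} (hCF : C ⊆ L.F)
    (hC : C.Nonempty) (hd : ∀ W ∈ C, ∀ W' ∈ C, W ≠ W' → Disjoint W W') {J : Finset E}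
    (hJX : ∀ e ∈ J, ∃ B ∈ blks r s x, e ∈ B)
    (hinj : ∀ B ∈ blks r s x, ∀ e ∈ J, ∀ f ∈ J, e ∈ B → f ∈ B → e = f)
    (hJ : ∀ e ∈ J, (∃ W ∈ C, a e ∈ W) ∧ (∃ W ∈ C, b e ∈ W) ∧ ∀ W ∈ C, e ∉ ins a b W) :
    J.card + 1 ≤ C.card := by
  have hJf : J ⊆ frac x := by
    intro e he
    obtain ⟨B, hB, heB⟩ := hJX e he
    exact blks_sub hB heB
  have h1 := h.reps h.tight_emp J.card J rfl hJf (fun e _ => notMem_empty e) (by
    intro e he f hf hmm
    have h2 : blk r s x e ∈ blks r s x := mem_image_of_mem _ (hJf he)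
    refine hinj _ h2 e he f hf (mem_blk_self (hJf he)) ?_
    exact mem_blk.2 ⟨hJf hf, hmm.symm⟩)
  rw [h.rk.emp, empty_union, add_zero] at h1
  have h2 := R_between L a b hCF hC hd (J := J) fun e he => by
    obtain ⟨h3, h4, h5⟩ := hJ e he
    exact ⟨h3, h4, fun W hW h6 => h5 W hW ((mem_ins a b).2 h6)⟩
  have h3 := hr J
  omega

end Pool.Agent.Lib.MP_21a058_co.Duo
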