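import Pool.Agent.Lib.MP_21a058_co.Duo.Count4

/-!
MP_21a058_co: the conditions on the extra rows pass to fewer fractional edges, fewer sets, fewer rows.
-/

set_option autoImplicit false
set_option linter.unusedSectionVars false

namespace Pool.Agent.Lib.MP_21a058_co.Duo

open Finset MP21a058

variable {V E : Type} [Fintype V] [DecidableEq V] [Fintype E] [DecidableEq E] {a b : E → V}

theorem btw_mono {F F' : Finset E} (hF : F' ⊆ F) (C : Finset (Finset V)) :
    btw a b F' C ⊆ btw a b F C := by
  intro e he
  obtain ⟨h1, h2⟩ := mem_filter.1 he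
  exact mem_filter.2 ⟨hF h1, h2⟩

/-- fewer fractional edges, fewer kept sets, fewer rows -/
theorem RowSet.mono {F F' : Finset E} {K K' : Finset (Finset V)} {R R' : Finset (Finset E)}
    {mo N : ℕ} (h : RowSet a b F K R mo N) (hF : F' ⊆ F) (hK : K' ⊆ K) (hR : R' ⊆ R) :
    RowSet a b F' K' R' mo N := by
  refine ⟨?_, ?_, ?_⟩
  · intro W hW B hB
    have h1 : B ∩ F' ⊆ B ∩ F := inter_subset_inter (Subset.refl B) hF
    rcases h.con W (hK hW) B (hR hB) with h2 | h2
    · exact Or.inl (h1.trans h2)
    · exact Or.inr (h2.mono_left h1)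
  · intro e he
    exact (card_le_card (filter_subset_filter _ hR)).trans (h.mult e (hF he))
  · intro C hC hCne hCd
    have h1 := h.few C (hC.trans hK) hCne hCd
    have h2 := card_le_card (btw_mono (a := a) (b := b) hF C)
    omega

end Pool.Agent.Lib.MP_21a058_co.Duo
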