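import Pool.Agent.Lib.MP_21a058_co.Duo.Count2

/-!
MP_21a058_co, two-sided rounding with two matroids: the blocks of a rank function below the region
rank `R` satisfy the hypotheses of the count.
-/

set_option autoImplicit false

namespace Pool.Agent.Lib.MP_21a058_co.Duo

open Finset MP21a058
open Pool.Agent.Lib.MP_21a058_co.P

variable {V E : Type} [Fintype V] [DecidableEq V] [Fintype E] [DecidableEq E] (a b : E → V)

theorem side_of {r R : Finset E → ℕ} {s : ℕ} {x1 : E → ℚ} (h : Feas r s x1) {F : Finset E}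
    (hF : frac x1 ⊆ F) {K : Finset (Finset V)} (hins : ∀ W ∈ K, Tight r s x1 (ins a b W))
    (hR : ∀ J, r J ≤ R J)
    (hE : ∀ C ⊆ K, C.Nonempty → (∀ W ∈ C, ∀ W' ∈ C, W ≠ W' → Disjoint W W') →
      ∀ J : Finset E, J.card ≤ R J →
        (∀ e ∈ J, (∃ W ∈ C, a e ∈ W) ∧ (∃ W ∈ C, b e ∈ W) ∧ ∀ W ∈ C, e ∉ ins a b W) →
        J.card + 1 ≤ C.card) : Side a b F K (blks r s x1) where
  sub B hB := (blks_sub hB).trans hF
  disj B hB B' hB' hne := blks_disj hB hB' hne
  con W hW B hB := h.blks_tight (hins W hW) hB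
  rep C hC hCne hdis J hJD hJi hJe := by
    refine hE C hC hCne hdis J ?_ hJe
    have hJX : J ⊆ frac x1 := by
      intro e he
      obtain ⟨B, hB, h1⟩ := hJD e he
      exact blks_sub hB h1
    have h1 := h.reps h.tight_emp J.card J rfl hJX (fun e _ => notMem_empty e) (by
      intro e he f hf hmm
      have h2 : blk r s x1 e = blk r s x1 f := (blk_eq_iff (hJX he)).2 hmm
      refine hJi (blk r s x1 e) (mem_image_of_mem _ (hJX he)) e he f hf
        (mem_blk_self (hJX he)) ?_
      rw [h2]
      exact mem_blk_self (hJX hf))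
    rw [empty_union] at h1
    have h2 := hR J
    omega

end Pool.Agent.Lib.MP_21a058_co.Duo
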