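import Pool.Agent.Lib.MP_21a058_co.Duo.Node
import Pool.Agent.Lib.MP_21a058_co.Duo.Span

/-!
MP_21a058_co, two-sided rounding: if the fractional elements are at most the blocks and the cuts of `Q`, some cut of `Q` has
at most five fractional edges.
-/

set_option autoImplicit false

namespace Pool.Agent.Lib.MP_21a058_co.Duo

open Finset MP21a058
open Pool.Agent.Lib.MP_21a058_co.P

variable {V E : Type} [Fintype V] [DecidableEq V] [Fintype E] [DecidableEq E] (a b : E → V)
variable {s : ℕ} {x : E → ℚ} {Q : Finset (Finset V)}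

theorem inv (H : Set2 a b s x Q) (h6 : ∀ W ∈ Q, 6 ≤ (cut a b W ∩ frac x).card) :
    ∀ (n : ℕ) (W : Finset V), W.card ≤ n → W ∈ Q →
      2 * rho a b (blks (rk a b) s x) W + 2 * kap Q W + 4 ≤ TT a b (frac x) W := by
  intro n
  induction n with
  | zero =>
    intro W hn hW
    have := card_pos.2 (H.ne W hW)
    omega
  | succ n ih =>
    intro W hn hW
    have e1 := TT_split a b H.lam x W
    have e2 := rho_split a b (s := s) (x := x) H.lam W
    have e3 := kap_split H.lam H.ne W
    rw [if_pos hW] at e3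
    have hk : ∀ K ∈ kids Q W,
        2 * rho a b (blks (rk a b) s x) K + 2 * kap Q K + 4 ≤ TT a b (frac x) K := by
      intro K hK
      obtain ⟨h1, h2, -⟩ := mem_kids.1 hK
      have h3 := card_lt_card h2
      exact ih K (by omega) h1
    have h1 := sum_le_sum hk
    rw [sum_add_distrib, sum_add_distrib, ← mul_sum, ← mul_sum, sum_const, smul_eq_mul] at h1
    rcases Nat.lt_or_ge (kids Q W).card 1 with h2 | h2
    · have h3 : kids Q W = ∅ := card_eq_zero.1 (by omega)
      have h4 := node_leaf a b H h3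
      have h5 := h6 W hW
      rw [h3, sum_empty] at e1 e2 e3
      omega
    · rcases Nat.lt_or_ge (kids Q W).card 2 with h3 | h3
      · have h4 : (kids Q W).card = 1 := by omega
        obtain ⟨K, hK⟩ := card_eq_one.1 h4
        have h5 := node_one a b H hW hK
        omega
      · have h4 := node_kids a b H (W := W) (card_pos.1 (by omega))
        omega

/-- **the count** -/
theorem count_Q (H : Set2 a b s x Q) (hup : ∀ W ∈ Q, W ≠ univ)
    (hdim : (frac x).card ≤ (blks (rk a b) s x).card + Q.card)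
    (hfr : (frac x).Nonempty) : ∃ W ∈ Q, (cut a b W ∩ frac x).card ≤ 5 := by
  by_contra hcon
  push Not at hcon
  have h6 : ∀ W ∈ Q, 6 ≤ (cut a b W ∩ frac x).card := fun W hW => hcon W hW
  have hpos := card_pos.2 hfr
  have e0 : TT a b (frac x) univ = 2 * (frac x).card := by
    unfold TT
    rw [filter_true_of_mem fun e _ => mem_univ _, filter_true_of_mem fun e _ => mem_univ _]
    omega
  have e00 : rho a b (blks (rk a b) s x) univ = (blks (rk a b) s x).card := by
    unfold rho
    rw [filter_true_of_mem]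
    intro D _ e _
    exact (mem_ins a b).2 ⟨mem_univ _, mem_univ _⟩
  have e000 : kap Q (univ : Finset V) = Q.card := by
    unfold kap
    rw [filter_true_of_mem fun K _ => subset_univ K]
  have hu : (univ : Finset V) ∉ Q := fun h => hup univ h rfl
  have e1 := TT_split a b H.lam x univ
  have e2 := rho_split a b (s := s) (x := x) H.lam univ
  have e3 := kap_split H.lam H.ne univ
  rw [if_neg hu] at e3
  have hk : ∀ K ∈ kids Q univ,
      2 * rho a b (blks (rk a b) s x) K + 2 * kap Q K + 4 ≤ TT a b (frac x) K :=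
    fun K hK => inv a b H h6 K.card K le_rfl (mem_kids.1 hK).1
  have h1 := sum_le_sum hk
  rw [sum_add_distrib, sum_add_distrib, ← mul_sum, ← mul_sum, sum_const, smul_eq_mul] at h1
  rcases Nat.lt_or_ge (kids Q univ).card 1 with h2 | h2
  · have h3 : kids Q univ = ∅ := card_eq_zero.1 (by omega)
    have h4 := node_leaf a b H h3
    rw [h3, sum_empty] at e1 e2 e3
    omega
  · have h4 := node_kids a b H (W := univ) (card_pos.1 (by omega))
    omega

/-- **the counting theorem**: at a vertex some kept tight cut has at most five fractional edges -/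
theorem count (h : Feas (rk a b) s x) (K : Finset (Finset V))
    (hlam : ∀ X ∈ K, ∀ Y ∈ K, X ⊆ Y ∨ Y ⊆ X ∨ Disjoint X Y) (hne : ∀ W ∈ K, W.Nonempty)
    (hup : ∀ W ∈ K, W ≠ univ)
    (hins : ∀ W ∈ K, Tight (rk a b) s x (ins a b W) ∧ rk a b (ins a b W) + 1 = W.card)
    (hint : ∀ W ∈ K, ∃ n : ℤ, ∑ e ∈ cut a b W, x e = n)
    (hker : ∀ y : E → ℚ, (∀ e, e ∉ frac x → y e = 0) →
      (∀ S, Tight (rk a b) s x S → ∑ e ∈ S, y e = 0) →
      (∀ W ∈ K, ∑ e ∈ cut a b W, y e = 0) → y = 0)
    (hfr : (frac x).Nonempty) : ∃ W ∈ K, (cut a b W ∩ frac x).card ≤ 5 := by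
  obtain ⟨Q, hQ, hdim, hwit⟩ := exists_Q h (cut a b) K hker
  have H : Set2 a b s x Q := ⟨h, fun X hX Y hY => hlam X (hQ hX) Y (hQ hY),
    fun W hW => hne W (hQ hW), fun W hW => (hins W (hQ hW)).1, fun W hW => (hins W (hQ hW)).2,
    fun W hW => hint W (hQ hW), hwit⟩
  obtain ⟨W, hW, h5⟩ := count_Q a b H (fun W hW => hup W (hQ hW)) hdim hfr
  exact ⟨W, hQ hW, h5⟩

end Pool.Agent.Lib.MP_21a058_co.Duo
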